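import Pool.Agent.Lib.H38LS.X3

set_option autoImplicit false

namespace Pool.Agent.H38LS

open NumberField Height IsDedekindDomain

variable {K : Type*} [Field K] [NumberField K]

/-! Chunk DD0 (S/M). Basic facts about the absolute values `av p`
(`NumberField.HeightOneSpectrum.adicAbv`, `HeightOneSpectrum.valuation`, `adicAbv_def`,
`isNonarchimedean_adicAbv`, `FinitePlace.hasFiniteMulSupport`, `FinitePlace.mk`,
`FinitePlace.norm_embedding`). Surjectivity onto `N(p)^ℤ`: a uniformiser
(`HeightOneSpectrum.valuation_exists_uniformizer`). -/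

theorem av_nonarch (p : HeightOneSpectrum (𝓞 K)) : IsNonarchimedean (av p) :=
  NumberField.HeightOneSpectrum.isNonarchimedean_adicAbv K p

theorem one_lt_Nm (p : HeightOneSpectrum (𝓞 K)) : 1 < Nm p := by
  have := NumberField.HeightOneSpectrum.one_lt_absNorm p
  unfold Nm
  exact_mod_cast this

theorem av_value (p : HeightOneSpectrum (𝓞 K)) {a : K} (ha : a ≠ 0) :
    ∃ k : ℤ, av p a = Nm p ^ k := by
  have hv : p.valuation K a ≠ 0 := (Valuation.ne_zero_iff _).2 ha
  refine ⟨(WithZero.unzero hv).toAdd, ?_⟩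
  have h1 : av p a = ((WithZeroMulInt.toNNReal (NumberField.HeightOneSpectrum.absNorm_ne_zero p)
      (p.valuation K a) : NNReal) : ℝ) := rfl
  rw [h1, WithZeroMulInt.toNNReal_neg_apply _ hv]
  simp [Nm]

theorem av_uniformizer (p : HeightOneSpectrum (𝓞 K)) : ∃ a : K, av p a = (Nm p)⁻¹ := by
  obtain ⟨a, ha⟩ := p.valuation_exists_uniformizer K
  refine ⟨a, ?_⟩
  have h1 : av p a = ((WithZeroMulInt.toNNReal (NumberField.HeightOneSpectrum.absNorm_ne_zero p)
      (p.valuation K a) : NNReal) : ℝ) := rfl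
  rw [h1, ha, WithZeroMulInt.toNNReal_neg_apply _ WithZero.exp_ne_zero]
  have h3 : (WithZero.unzero (WithZero.exp_ne_zero (a := (-1 : ℤ)))).toAdd = -1 := rfl
  rw [h3]
  simp [Nm]

theorem av_finite {a : K} (ha : a ≠ 0) :
    {p : HeightOneSpectrum (𝓞 K) | av p a ≠ 1}.Finite := by
  refine ((HeightOneSpectrum.Support.finite (𝓞 K) a).union
    (HeightOneSpectrum.Support.finite (𝓞 K) a⁻¹)).subset ?_
  intro p hp
  have hp' : av p a ≠ 1 := hp
  have h2 : p.valuation K a ≠ 1 := by
    intro h
    apply hp'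
    have h1 : av p a = ((WithZeroMulInt.toNNReal (NumberField.HeightOneSpectrum.absNorm_ne_zero p)
      (p.valuation K a) : NNReal) : ℝ) := rfl
    rw [h1, h, map_one]
    rfl
  rcases lt_or_gt_of_ne h2 with h | h
  · right
    change 1 < p.valuation K a⁻¹
    rw [map_inv₀]
    exact (one_lt_inv₀ (zero_lt_iff.2 ((Valuation.ne_zero_iff _).2 ha))).2 h
  · left
    exact h

/-- A rational integer is a unit at almost all primes; used for `2`, `3`, `6`. -/
theorem av_six_finite :
    {p : HeightOneSpectrum (𝓞 K) | ¬ (av p 2 = 1 ∧ av p 3 = 1)}.Finite := by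
  refine ((av_finite (K := K) (two_ne_zero)).union (av_finite (K := K) (three_ne_zero))).subset ?_
  intro p hp
  by_contra hc
  rw [Set.mem_union, not_or] at hc
  apply hp
  exact ⟨not_not.1 hc.1, not_not.1 hc.2⟩

/-- Almost all primes: `W` integral with unit discriminant. -/
theorem good_finite {W : WeierstrassCurve K} (hW : W.Δ ≠ 0) :
    {p : HeightOneSpectrum (𝓞 K) | ¬ (IntegralAt (av p) W ∧ av p W.Δ = 1)}.Finite := by
  have key : ∀ c : K, {p : HeightOneSpectrum (𝓞 K) | ¬ av p c ≤ 1}.Finite := by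
    intro c
    by_cases hc : c = 0
    · subst hc
      refine Set.finite_empty.subset ?_
      intro p hp
      exact absurd (by rw [map_zero]; exact zero_le_one) hp
    · refine (av_finite hc).subset ?_
      intro p hp h
      exact hp h.le
  refine (((((key W.a₁).union (key W.a₂)).union ((key W.a₃).union (key W.a₄))).union (key W.a₆)).union
    (av_finite hW)).subset ?_
  intro p hp
  by_contra hc
  simp only [Set.mem_union, not_or] at hc
  obtain ⟨⟨⟨⟨h1, h2⟩, h3, h4⟩, h6⟩, h7⟩ := hc
  exact hp ⟨⟨not_not.1 h1, not_not.1 h2, not_not.1 h3, not_not.1 h4, not_not.1 h6⟩, not_not.1 h7⟩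

end Pool.Agent.H38LS
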