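import Pool.Agent.Lib.H38LS.DD0

set_option autoImplicit false

namespace Pool.Agent.H38LS

open NumberField Height IsDedekindDomain WeierstrassCurve

variable {K : Type*} [Field K] [NumberField K]

/-! Chunk DD1 (M). The exponent `dmin W p` of the minimal discriminant.

Proofs. The set in the definition of `dmin` is nonempty: choose `a` with `|a|_p` large
(power of the inverse of a uniformiser) and `C = ⟨Units.mk0 a, 0, 0, 0⟩`: the coefficients `a_i` are
divided by `a ^ i` (`variableChange_def`), so they become integral; the discriminant is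
`a⁻¹ ^ 12 * Δ` (`variableChange_Δ`), integral as a polynomial in the coefficients
(`IntegralAt.b_le`), so its absolute value is `Nm p ^ (-n)` with `n ≥ 0` (`av_value`). Then
`Nat.sInf_mem`. `dmin_zero`: `C = 1` shows that `0` is in the set. Minimality: for every `C` with
`C • W` integral at `p`: `av p (C • W).Δ ≤ Nm p ^ (-dmin)` (`Nat.sInf_le`). -/

/-- A power of the inverse of a uniformiser makes the coefficients integral. -/
private theorem DD1_exists_integral (W : WeierstrassCurve K) (p : HeightOneSpectrum (𝓞 K)) :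
    ∃ C : VariableChange K, IntegralAt (av p) (C • W) := by
  obtain ⟨π, hπ⟩ := av_uniformizer p
  have hN := one_lt_Nm p
  have hN0 : 0 < Nm p := by linarith
  set M : ℝ := max (av p W.a₁) (max (av p W.a₂) (max (av p W.a₃) (max (av p W.a₄)
    (av p W.a₆)))) with hM
  have h1 : av p W.a₁ ≤ M := le_max_left _ _
  have h2 : av p W.a₂ ≤ M := (le_max_left _ _).trans (le_max_right _ _)
  have h3 : av p W.a₃ ≤ M :=
    ((le_max_left _ _).trans (le_max_right _ _)).trans (le_max_right _ _)
  have h4 : av p W.a₄ ≤ M :=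
    (((le_max_left _ _).trans (le_max_right _ _)).trans (le_max_right _ _)).trans
      (le_max_right _ _)
  have h6 : av p W.a₆ ≤ M :=
    (((le_max_right _ _).trans (le_max_right _ _)).trans (le_max_right _ _)).trans
      (le_max_right _ _)
  obtain ⟨k, hk⟩ := pow_unbounded_of_one_lt M hN
  have hπ0 : π ≠ 0 := by
    intro h
    rw [h, map_zero] at hπ
    exact (inv_pos.2 hN0).ne hπ
  have ha : π ^ k ≠ 0 := pow_ne_zero k hπ0
  refine ⟨⟨(Units.mk0 (π ^ k) ha)⁻¹, 0, 0, 0⟩, ?_⟩
  have hu : ((Units.mk0 (π ^ k) ha)⁻¹⁻¹ : Kˣ) = Units.mk0 (π ^ k) ha := inv_inv _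
  have hv : av p (π ^ k) = (Nm p ^ k)⁻¹ := by rw [map_pow, hπ, inv_pow]
  have hw : av p (π ^ k) ≤ 1 := by
    rw [hv]
    exact inv_le_one_of_one_le₀ (one_le_pow₀ hN.le)
  have hw0 : 0 ≤ av p (π ^ k) := (av p).nonneg _
  have key : ∀ (x : K) (i : ℕ), 1 ≤ i → av p x ≤ M → av p ((π ^ k) ^ i * x) ≤ 1 := by
    intro x i hi hx
    rw [map_mul, map_pow]
    calc av p (π ^ k) ^ i * av p x ≤ av p (π ^ k) ^ 1 * M := by
          apply mul_le_mul _ hx ((av p).nonneg _) (by positivity)
          exact pow_le_pow_of_le_one hw0 hw hi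
      _ = (Nm p ^ k)⁻¹ * M := by rw [pow_one, hv]
      _ ≤ (Nm p ^ k)⁻¹ * Nm p ^ k := mul_le_mul_of_nonneg_left hk.le (by positivity)
      _ = 1 := inv_mul_cancel₀ (by positivity)
  refine ⟨?_, ?_, ?_, ?_, ?_⟩
  · rw [variableChange_a₁, hu]
    have := key W.a₁ 1 le_rfl h1
    simpa using this
  · rw [variableChange_a₂, hu]
    have := key W.a₂ 2 (by norm_num) h2
    simpa using this
  · rw [variableChange_a₃, hu]
    have := key W.a₃ 3 (by norm_num) h3
    simpa using this
  · rw [variableChange_a₄, hu]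
    have := key W.a₄ 4 (by norm_num) h4
    simpa using this
  · rw [variableChange_a₆, hu]
    have := key W.a₆ 6 (by norm_num) h6
    simpa using this

/-- The discriminant of an integral model has absolute value `Nm p ^ (-n)` with `n` in `ℕ`. -/
private theorem DD1_disc_value {W : WeierstrassCurve K} (hW : W.Δ ≠ 0)
    (p : HeightOneSpectrum (𝓞 K)) (C : VariableChange K) (hC : IntegralAt (av p) (C • W)) :
    ∃ n : ℕ, av p (C • W).Δ = Nm p ^ (-(n : ℤ)) := by
  have hN := one_lt_Nm p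
  have hne : (C • W).Δ ≠ 0 := by
    rw [variableChange_Δ]
    exact mul_ne_zero (pow_ne_zero _ (Units.ne_zero _)) hW
  obtain ⟨k, hk⟩ := av_value p hne
  have hle : av p (C • W).Δ ≤ 1 := (hC.b_le (av_nonarch p)).2.2.2.2.2.2
  rw [hk] at hle
  have hk0 : k ≤ 0 := by
    by_contra hneg
    push Not at hneg
    have := one_lt_zpow₀ hN hneg
    linarith
  refine ⟨(-k).toNat, ?_⟩
  rw [hk, Int.toNat_of_nonneg (by omega), neg_neg]

theorem dmin_attained {W : WeierstrassCurve K} (hW : W.Δ ≠ 0) (p : HeightOneSpectrum (𝓞 K)) :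
    ∃ C : VariableChange K, IntegralAt (av p) (C • W) ∧
      av p (C • W).Δ = Nm p ^ (-(dmin W p : ℤ)) := by
  have hne : {n : ℕ | ∃ C : VariableChange K, IntegralAt (av p) (C • W) ∧
      av p (C • W).Δ = Nm p ^ (-(n : ℤ))}.Nonempty := by
    obtain ⟨C, hC⟩ := DD1_exists_integral W p
    obtain ⟨n, hn⟩ := DD1_disc_value hW p C hC
    exact ⟨n, C, hC, hn⟩
  exact Nat.sInf_mem hne

theorem dmin_minimal {W : WeierstrassCurve K} (hW : W.Δ ≠ 0) (p : HeightOneSpectrum (𝓞 K))
    (C : VariableChange K) (hC : IntegralAt (av p) (C • W)) :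
    av p (C • W).Δ ≤ Nm p ^ (-(dmin W p : ℤ)) := by
  obtain ⟨n, hn⟩ := DD1_disc_value hW p C hC
  have h : dmin W p ≤ n := Nat.sInf_le ⟨C, hC, hn⟩
  rw [hn]
  exact zpow_le_zpow_right₀ (one_lt_Nm p).le (by omega)

theorem dmin_eq_zero {W : WeierstrassCurve K} {p : HeightOneSpectrum (𝓞 K)}
    (h1 : IntegralAt (av p) W) (h2 : av p W.Δ = 1) : dmin W p = 0 := by
  have h : dmin W p ≤ 0 := by
    apply Nat.sInf_le
    refine ⟨1, ?_, ?_⟩
    · rw [one_smul]; exact h1
    · rw [one_smul, h2, Nat.cast_zero, neg_zero, zpow_zero]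
  omega

theorem dmin_finite {W : WeierstrassCurve K} (hW : W.Δ ≠ 0) :
    {p : HeightOneSpectrum (𝓞 K) | dmin W p ≠ 0}.Finite := by
  refine (good_finite hW).subset ?_
  intro p hp hg
  exact hp (dmin_eq_zero hg.1 hg.2)

end Pool.Agent.H38LS
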