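import Pool.Agent.Lib.H38LS.DD1

set_option autoImplicit false

namespace Pool.Agent.H38LS

open NumberField Height IsDedekindDomain WeierstrassCurve

variable {K : Type*} [Field K] [NumberField K]

/-! Chunk DD2 (M). Primes with `|j|_p > 1`.

Proofs. Take `C` from `dmin_attained`; `j` does not change (`variableChange_j`), `c₄' = (C • W).c₄`
is integral, `c₄'³ = j Δ'` (`j = Δ'⁻¹ * c₄ ^ 3`), so `|j| |Δ'| = |c₄'|³ ≤ 1`.
`tt_value`: `c₆² = c₄³ - 1728 Δ` (`c_relation`), `|1728 Δ| ≤ |Δ| < |c₄|³` because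
`|j| = |c₄|³/|Δ| > 1`, hence `|c₆|² = |c₄|³`, `c₄, c₆ ≠ 0`, `|t| = |Δ|/|c₆|² = 1/|j|`, and
`|cc|² = |c₆|²/|c₄|² = |c₄|`.
`dmin_of_even`: `p ∤ 6` and `|cc|_p = Nm p ^ (2 k)`. Suppose `|c₄'| < 1` for the minimal model `W' =
C • W`. Since `|c₄'| = |cc(W')|²` and `cc W' = cc W / u²`, `|c₄'| = Nm p ^ (4 k')` with an integer
`k' < 0` and `|c₆'| = |c₄'|^(3/2) = Nm p ^ (6 k')`. The short model
`y² = x³ - (c₄'/48) x - c₆'/864` (variable change of `W'` with `u = 1`, `r, s, t` with denominators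
dividing 12, 2, 24: `r = -b₂/12`, `s = -a₁/2`, `t = -(a₃ + r a₁)/2`) divided by `u = a`,
`|a| = Nm p ^ k' < 1`, has coefficients `-c₄'/(48 a⁴)`, `-c₆'/(864 a⁶)`, of absolute value `1`, so it
is integral at `p`, and its discriminant is `Δ'/a^12`, larger than `|Δ'|`: contradiction to
`dmin_minimal`. So `|c₄'| = 1` and `|Δ'| = 1/|j|`. -/

private theorem DD2_j_mul (W : WeierstrassCurve K) [W.IsElliptic] : W.j * W.Δ = W.c₄ ^ 3 := by
  rw [WeierstrassCurve.j, ← W.coe_Δ', mul_comm _ (W.c₄ ^ 3), mul_assoc, Units.inv_mul, mul_one]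

private theorem DD2_nat {v : AbsoluteValue K ℝ} (hv : IsNonarchimedean v) (n : ℕ) :
    v (n : K) ≤ 1 := by
  induction n with
  | zero => rw [Nat.cast_zero, map_zero]; norm_num
  | succ n ih =>
    rw [Nat.cast_succ]
    exact (hv _ _).trans (max_le ih (by rw [map_one]))

theorem log_j_le {W : WeierstrassCurve K} [W.IsElliptic] (p : HeightOneSpectrum (𝓞 K))
    (h : 1 < av p W.j) : Real.log (av p W.j) ≤ (dmin W p : ℝ) * Real.log (Nm p) := by
  have hW : W.Δ ≠ 0 := W.isUnit_Δ.ne_zero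
  obtain ⟨C, hC, hD⟩ := dmin_attained hW p
  have h1 := DD2_j_mul (C • W)
  rw [variableChange_j] at h1
  have h4 : av p (C • W).c₄ ≤ 1 := (hC.b_le (av_nonarch p)).2.2.2.2.1
  have h5 : av p W.j * av p (C • W).Δ ≤ 1 := by
    rw [← map_mul, h1, map_pow]
    exact pow_le_one₀ ((av p).nonneg _) h4
  have hN := one_lt_Nm p
  have hN0 : 0 < Nm p := by linarith
  rw [hD, zpow_neg, ← div_eq_mul_inv, zpow_natCast, div_le_one (by positivity)] at h5
  have h6 := Real.log_le_log (by linarith) h5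
  rwa [Real.log_pow] at h6

theorem tt_value {W : WeierstrassCurve K} [W.IsElliptic] {v : AbsoluteValue K ℝ}
    (hv : IsNonarchimedean v) (h : 1 < v W.j) :
    W.c₄ ≠ 0 ∧ W.c₆ ≠ 0 ∧ v (tt W) = (v W.j)⁻¹ ∧ v (cc W) ^ 2 = v W.c₄ := by
  have hj := congrArg v (DD2_j_mul W)
  rw [map_mul, map_pow] at hj
  have hΔ : 0 < v W.Δ := v.pos W.isUnit_Δ.ne_zero
  have hlt : v W.Δ < v W.c₄ ^ 3 := by
    rw [← hj]
    nlinarith
  have hc4 : W.c₄ ≠ 0 := by
    intro h0
    rw [h0, map_zero] at hlt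
    have : (0 : ℝ) ^ 3 = 0 := by norm_num
    rw [this] at hlt
    linarith
  have hc4' : 0 < v W.c₄ := v.pos hc4
  have h1728 : v (1728 * W.Δ) ≤ v W.Δ := by
    rw [map_mul]
    have := DD2_nat hv 1728
    push_cast at this
    calc v 1728 * v W.Δ ≤ 1 * v W.Δ := mul_le_mul_of_nonneg_right this hΔ.le
      _ = v W.Δ := one_mul _
  have e1 : W.c₆ ^ 2 = W.c₄ ^ 3 + -(1728 * W.Δ) := by linear_combination W.c_relation
  have e2 : W.c₄ ^ 3 = W.c₆ ^ 2 + 1728 * W.Δ := by linear_combination -W.c_relation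
  have k1 : v W.c₆ ^ 2 ≤ v W.c₄ ^ 3 := by
    rw [← map_pow, ← map_pow, e1]
    refine (hv _ _).trans (max_le le_rfl ?_)
    rw [v.map_neg, map_pow]
    linarith
  have k2 : v W.c₄ ^ 3 ≤ v W.c₆ ^ 2 := by
    have := hv (W.c₆ ^ 2) (1728 * W.Δ)
    rw [← e2, map_pow, map_pow] at this
    rcases le_max_iff.mp this with h | h
    · exact h
    · linarith
  have k3 : v W.c₆ ^ 2 = v W.c₄ ^ 3 := le_antisymm k1 k2
  have hc6 : W.c₆ ≠ 0 := by
    intro h0
    rw [h0, map_zero] at k3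
    have : 0 < v W.c₄ ^ 3 := by positivity
    have h0' : (0 : ℝ) ^ 2 = 0 := by norm_num
    rw [h0'] at k3
    linarith
  refine ⟨hc4, hc6, ?_, ?_⟩
  · rw [tt, map_div₀, map_pow, k3, ← hj, div_mul_cancel_right₀ hΔ.ne']
  · rw [cc, map_div₀, v.map_neg, div_pow, k3, pow_succ (v W.c₄) 2]
    exact mul_div_cancel_left₀ _ (by positivity)

theorem dmin_of_even {W : WeierstrassCurve K} [W.IsElliptic] (p : HeightOneSpectrum (𝓞 K))
    (h2 : av p 2 = 1) (h3 : av p 3 = 1) (h : 1 < av p W.j) (k : ℤ)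
    (hk : av p (cc W) = Nm p ^ (2 * k)) :
    Real.log (av p W.j) = (dmin W p : ℝ) * Real.log (Nm p) := by
  have hW : W.Δ ≠ 0 := W.isUnit_Δ.ne_zero
  have hN := one_lt_Nm p
  have hN0 : 0 < Nm p := by linarith
  obtain ⟨C, hC, hD⟩ := dmin_attained hW p
  have h1 := DD2_j_mul (C • W)
  rw [variableChange_j] at h1
  have h4 : av p (C • W).c₄ ≤ 1 := (hC.b_le (av_nonarch p)).2.2.2.2.1
  obtain ⟨hc4, hc6, _, hcc⟩ := tt_value (av_nonarch p) h
  have h' : 1 < av p (C • W).j := by rw [variableChange_j]; exact h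
  obtain ⟨hc4', hc6', _, hcc'⟩ := tt_value (av_nonarch p) h'
  obtain ⟨m, hm⟩ := av_value p (C.u⁻¹).ne_zero
  -- the absolute value of `c₄'`
  have e4 : av p (C • W).c₄ = Nm p ^ (4 * (k + m)) := by
    rw [variableChange_c₄, map_mul, map_pow, hm, ← hcc, hk, ← zpow_natCast, ← zpow_natCast,
      ← zpow_mul, ← zpow_mul, ← zpow_add₀ hN0.ne']
    congr 1
    push_cast
    ring
  have e6 : av p (C • W).c₆ = Nm p ^ (6 * (k + m)) := by
    have k1 : av p (C • W).c₆ ^ 2 = (Nm p ^ (6 * (k + m))) ^ 2 := by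
      have k2 : av p (cc (C • W)) ^ 2 * av p (C • W).c₄ ^ 2 = av p (C • W).c₆ ^ 2 := by
        rw [cc, map_div₀, (av p).map_neg, div_pow]
        exact div_mul_cancel₀ _ (pow_ne_zero 2 ((av p).ne_zero hc4'))
      rw [← k2, hcc', e4, ← pow_succ', ← zpow_natCast, ← zpow_natCast, ← zpow_mul, ← zpow_mul]
      congr 1
      push_cast
      ring
    exact (pow_left_inj₀ ((av p).nonneg _) (by positivity) (by norm_num)).mp k1
  have hle : k + m ≤ 0 := by
    by_contra hneg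
    push Not at hneg
    rw [e4] at h4
    have := one_lt_zpow₀ hN (show 0 < 4 * (k + m) by omega)
    linarith
  have hz : k + m = 0 := by
    by_contra hne
    have hlt : k + m < 0 := lt_of_le_of_ne hle hne
    obtain ⟨π, hπ⟩ := av_uniformizer p
    have hπ0 : π ≠ 0 := by
      intro h0
      rw [h0, map_zero] at hπ
      exact (inv_pos.2 hN0).ne hπ
    obtain ⟨n, hn⟩ : ∃ n : ℕ, (n : ℤ) = -(k + m) := ⟨(-(k + m)).toNat, by omega⟩
    have ha : π ^ n ≠ 0 := pow_ne_zero n hπ0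
    have hva : av p (π ^ n) = Nm p ^ (k + m) := by
      rw [map_pow, hπ, inv_pow, ← zpow_natCast, ← zpow_neg, hn]
      congr 1
      ring
    have t2 : (2 : K) ≠ 0 := two_ne_zero
    have t3 : (3 : K) ≠ 0 := three_ne_zero
    have v48 : av p 48 = 1 := by
      have : (48 : K) = 2 ^ 4 * 3 := by norm_num
      rw [this, map_mul, map_pow, h2, h3]
      norm_num
    have v864 : av p 864 = 1 := by
      have : (864 : K) = 2 ^ 5 * 3 ^ 3 := by norm_num
      rw [this, map_mul, map_pow, map_pow, h2, h3]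
      norm_num
    set V := C • W with hV
    let C2 : VariableChange K := ⟨Units.mk0 (π ^ n) ha, -V.b₂ / 12, -V.a₁ / 2,
      -(V.a₃ + (-V.b₂ / 12) * V.a₁) / 2⟩
    have hu : ((C2.u⁻¹ : Kˣ) : K) = (π ^ n)⁻¹ := by
      rw [Units.val_inv_eq_inv_val]
      rfl
    have i1 : (C2 • V).a₁ = 0 := by
      rw [variableChange_a₁]
      have : V.a₁ + 2 * C2.s = 0 := by
        show V.a₁ + 2 * (-V.a₁ / 2) = 0
        field_simp
        ring
      rw [this, mul_zero]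
    have i2 : (C2 • V).a₂ = 0 := by
      rw [variableChange_a₂]
      have : V.a₂ - C2.s * V.a₁ + 3 * C2.r - C2.s ^ 2 = 0 := by
        show V.a₂ - (-V.a₁ / 2) * V.a₁ + 3 * (-V.b₂ / 12) - (-V.a₁ / 2) ^ 2 = 0
        rw [WeierstrassCurve.b₂]
        ring
      rw [this, mul_zero]
    have i3 : (C2 • V).a₃ = 0 := by
      rw [variableChange_a₃]
      have : V.a₃ + C2.r * V.a₁ + 2 * C2.t = 0 := by
        show V.a₃ + (-V.b₂ / 12) * V.a₁ + 2 * (-(V.a₃ + (-V.b₂ / 12) * V.a₁) / 2) = 0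
        ring
      rw [this, mul_zero]
    have i4 : (C2 • V).a₄ = (π ^ n)⁻¹ ^ 4 * (-V.c₄ / 48) := by
      rw [variableChange_a₄, hu]
      congr 1
      show V.a₄ - (-V.a₁ / 2) * V.a₃ + 2 * (-V.b₂ / 12) * V.a₂ -
        (-(V.a₃ + (-V.b₂ / 12) * V.a₁) / 2 + (-V.b₂ / 12) * (-V.a₁ / 2)) * V.a₁ +
        3 * (-V.b₂ / 12) ^ 2 - 2 * (-V.a₁ / 2) * (-(V.a₃ + (-V.b₂ / 12) * V.a₁) / 2) = _
      rw [WeierstrassCurve.c₄, WeierstrassCurve.b₄, WeierstrassCurve.b₂]
      ring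
    have i6 : (C2 • V).a₆ = (π ^ n)⁻¹ ^ 6 * (-V.c₆ / 864) := by
      rw [variableChange_a₆, hu]
      congr 1
      show V.a₆ + (-V.b₂ / 12) * V.a₄ + (-V.b₂ / 12) ^ 2 * V.a₂ + (-V.b₂ / 12) ^ 3 -
        (-(V.a₃ + (-V.b₂ / 12) * V.a₁) / 2) * V.a₃ - (-(V.a₃ + (-V.b₂ / 12) * V.a₁) / 2) ^ 2 -
        (-V.b₂ / 12) * (-(V.a₃ + (-V.b₂ / 12) * V.a₁) / 2) * V.a₁ = _
      rw [WeierstrassCurve.c₆, WeierstrassCurve.b₆, WeierstrassCurve.b₄, WeierstrassCurve.b₂]
      ring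
    have hpow : ∀ j : ℕ, av p ((π ^ n)⁻¹ ^ j) = Nm p ^ (-((j : ℤ) * (k + m))) := by
      intro j
      rw [map_pow, map_inv₀, hva, ← zpow_neg, ← zpow_natCast, ← zpow_mul]
      congr 1
      ring
    have hint : IntegralAt (av p) (C2 • V) := by
      refine ⟨?_, ?_, ?_, ?_, ?_⟩
      · rw [i1, map_zero]; norm_num
      · rw [i2, map_zero]; norm_num
      · rw [i3, map_zero]; norm_num
      · rw [i4, map_mul, hpow, map_div₀, (av p).map_neg, v48, e4, div_one, ← zpow_add₀ hN0.ne']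
        have : -(((4 : ℕ) : ℤ) * (k + m)) + 4 * (k + m) = 0 := by push_cast; ring
        rw [this, zpow_zero]
      · rw [i6, map_mul, hpow, map_div₀, (av p).map_neg, v864, e6, div_one, ← zpow_add₀ hN0.ne']
        have : -(((6 : ℕ) : ℤ) * (k + m)) + 6 * (k + m) = 0 := by push_cast; ring
        rw [this, zpow_zero]
    have hmul : C2 • V = (C2 * C) • W := by rw [hV, smul_smul]
    have hmin := dmin_minimal hW p (C2 * C) (by rw [← hmul]; exact hint)
    rw [← hmul, variableChange_Δ, map_mul, hu, hpow, hD, ← zpow_add₀ hN0.ne'] at hmin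
    have hfin := (zpow_le_zpow_iff_right₀ hN).mp hmin
    push_cast at hfin
    omega
  rw [hz, mul_zero, zpow_zero] at e4
  have h5 : av p W.j * av p (C • W).Δ = 1 := by
    rw [← map_mul, h1, map_pow, e4, one_pow]
  rw [hD, zpow_neg, zpow_natCast] at h5
  have h6 : av p W.j = Nm p ^ dmin W p := by
    rw [← div_eq_mul_inv, div_eq_one_iff_eq (pow_ne_zero _ hN0.ne')] at h5
    exact h5
  rw [h6, Real.log_pow]

end Pool.Agent.H38LS
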