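import Pool.Agent.Lib.H38LS.DD1

set_option autoImplicit false

namespace Pool.Agent.H38LS

open NumberField Height IsDedekindDomain WeierstrassCurve

variable {K : Type*} [Field K] [NumberField K]

/-! Chunk DD3 (M). Potentially good bad primes `p ∤ 6`: `|Δ|_p` is not a twelfth power.

Proof. Suppose `|Δ|_p = Nm p ^ (12 k)`, and let `W' = C • W` be as in `dmin_attained`, so
`|Δ'| = Nm p ^ (-d)`, `d = dmin W p > 0`; `Δ' = u⁻¹ ^ 12 * Δ`, so `12 ∣ d`, `d = 12 m`, `m ≥ 1`.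
`|c₄'|³ = |j| |Δ'| ≤ |Δ'|`, so `|c₄'| ≤ Nm p ^ (-4 m)`; `c₆'² = c₄'³ - 1728 Δ'`, so
`|c₆'| ≤ Nm p ^ (-6 m)`. Let `|a| = Nm p ^ (-m)` (power of a uniformiser). The short model
`y² = x³ - (c₄'/48) x - c₆'/864` of `W'` (variable change with `u = 1`, `r = -b₂/12`, `s = -a₁/2`,
`t = -(a₃ + r a₁)/2`) divided by `u = a` has the coefficients `-c₄'/(48 a⁴)`, `-c₆'/(864 a⁶)`, integral
at `p`, and discriminant `Δ'/a^12` of absolute value `1 > Nm p ^ (-12 m)`: contradiction to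
`dmin_minimal`. -/

/-- The short Weierstrass model. -/
private theorem DD3_short (W : WeierstrassCurve K) (u : Kˣ) (C : VariableChange K)
    (hu : C.u = u) (hr : C.r = -W.b₂ / 12) (hs : C.s = -W.a₁ / 2)
    (ht : C.t = -(W.a₃ + C.r * W.a₁) / 2) :
    (C • W).a₁ = 0 ∧ (C • W).a₂ = 0 ∧ (C • W).a₃ = 0 ∧
      (C • W).a₄ = (u⁻¹ : Kˣ) ^ 4 * (-W.c₄ / 48) ∧
      (C • W).a₆ = (u⁻¹ : Kˣ) ^ 6 * (-W.c₆ / 864) := by
  refine ⟨?_, ?_, ?_, ?_, ?_⟩
  · rw [variableChange_a₁, hs]; ring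
  · rw [variableChange_a₂, hs, hr, WeierstrassCurve.b₂]; ring
  · rw [variableChange_a₃, ht]; ring
  · rw [variableChange_a₄, ht, hs, hr, hu, WeierstrassCurve.c₄, WeierstrassCurve.b₂,
      WeierstrassCurve.b₄]
    ring
  · rw [variableChange_a₆, ht, hr, hu, WeierstrassCurve.c₆, WeierstrassCurve.b₂,
      WeierstrassCurve.b₄, WeierstrassCurve.b₆]
    ring

private theorem DD3_c4_rel {W : WeierstrassCurve K} [W.IsElliptic] :
    W.c₄ ^ 3 = W.Δ * W.j := by
  rw [WeierstrassCurve.j, ← mul_assoc, ← W.coe_Δ', Units.mul_inv, one_mul]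

theorem disc_not_twelfth {W : WeierstrassCurve K} [W.IsElliptic] (p : HeightOneSpectrum (𝓞 K))
    (h2 : av p 2 = 1) (h3 : av p 3 = 1) (h : av p W.j ≤ 1) (hd : dmin W p ≠ 0) (k : ℤ) :
    av p W.Δ ≠ Nm p ^ (12 * k) := by
  intro hk
  have hW : W.Δ ≠ 0 := W.isUnit_Δ.ne_zero
  have hN := one_lt_Nm p
  have hN0 : 0 < Nm p := by linarith
  obtain ⟨C, hC, hCd⟩ := dmin_attained hW p
  obtain ⟨l, hl⟩ := av_value p (C.u⁻¹ : Kˣ).ne_zero
  -- the exponent is divisible by 12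
  have hexp : -(dmin W p : ℤ) = 12 * l + 12 * k := by
    have h1 : av p (C • W).Δ = Nm p ^ (12 * l + 12 * k) := by
      rw [variableChange_Δ, map_mul, map_pow, hl, hk, zpow_add₀ hN0.ne', ← zpow_natCast,
        ← zpow_mul]
      norm_num [mul_comm]
    rw [hCd] at h1
    exact zpow_right_injective₀ hN0 hN.ne' h1
  set m : ℤ := -(l + k) with hm
  have hd12 : (dmin W p : ℤ) = 12 * m := by rw [hm]; linarith
  have hm1 : 1 ≤ m := by omega
  have hΔ' : av p (C • W).Δ = Nm p ^ (-(12 * m)) := by rw [hCd, hd12]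
  -- bounds for c4 and c6
  have hc4 : av p (C • W).c₄ ≤ Nm p ^ (-(4 * m)) := by
    have h1 : av p ((C • W).c₄) ^ 3 ≤ (Nm p ^ (-(4 * m))) ^ 3 := by
      rw [← map_pow, DD3_c4_rel, map_mul, variableChange_j, hΔ']
      calc Nm p ^ (-(12 * m)) * av p W.j ≤ Nm p ^ (-(12 * m)) * 1 :=
            mul_le_mul_of_nonneg_left h (by positivity)
        _ = (Nm p ^ (-(4 * m))) ^ 3 := by
            rw [mul_one, ← zpow_natCast, ← zpow_mul]
            norm_num
            ring_nf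
    exact (pow_le_pow_iff_left₀ ((av p).nonneg _) (by positivity) (by norm_num)).1 h1
  have h1728 : av p 1728 = 1 := by
    have e : (1728 : K) = 2 ^ 6 * 3 ^ 3 := by norm_num
    rw [e, map_mul, map_pow, map_pow, h2, h3, one_pow, one_pow, one_mul]
  have hc6 : av p (C • W).c₆ ≤ Nm p ^ (-(6 * m)) := by
    have e : (C • W).c₆ ^ 2 = (C • W).c₄ ^ 3 + -(1728 * (C • W).Δ) := by
      rw [WeierstrassCurve.c_relation]; ring
    have h1 : av p ((C • W).c₆) ^ 2 ≤ (Nm p ^ (-(6 * m))) ^ 2 := by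
      rw [← map_pow, e]
      refine (av_nonarch p _ _).trans ?_
      have e2 : (Nm p ^ (-(6 * m))) ^ 2 = Nm p ^ (-(12 * m)) := by
        rw [← zpow_natCast, ← zpow_mul]
        norm_num
        ring_nf
      rw [e2]
      apply max_le
      · rw [map_pow]
        calc av p (C • W).c₄ ^ 3 ≤ (Nm p ^ (-(4 * m))) ^ 3 :=
              pow_le_pow_left₀ ((av p).nonneg _) hc4 3
          _ = Nm p ^ (-(12 * m)) := by
              rw [← zpow_natCast, ← zpow_mul]
              norm_num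
              ring_nf
      · rw [(av p).map_neg, map_mul, h1728, one_mul, hΔ']
    exact (pow_le_pow_iff_left₀ ((av p).nonneg _) (by positivity) (by norm_num)).1 h1
  -- the short model
  obtain ⟨π, hπ⟩ := av_uniformizer p
  have hπ0 : π ≠ 0 := by
    intro h0
    rw [h0, map_zero] at hπ
    exact (inv_pos.2 hN0).ne hπ
  set u : Kˣ := (Units.mk0 π hπ0) ^ m with hu
  have huv : av p ((u⁻¹ : Kˣ) : K) = Nm p ^ m := by
    rw [hu, ← zpow_neg, Units.val_zpow_eq_zpow_val, Units.val_mk0, map_zpow₀, hπ, inv_zpow',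
      neg_neg]
  let D : VariableChange K := ⟨u, -(C • W).b₂ / 12, -(C • W).a₁ / 2,
    -((C • W).a₃ + -(C • W).b₂ / 12 * (C • W).a₁) / 2⟩
  obtain ⟨e1, e2, e3, e4, e6⟩ := DD3_short (C • W) u D rfl rfl rfl rfl
  have h48 : av p 48 = 1 := by
    have e : (48 : K) = 2 ^ 4 * 3 := by norm_num
    rw [e, map_mul, map_pow, h2, h3, one_pow, one_mul]
  have h864 : av p 864 = 1 := by
    have e : (864 : K) = 2 ^ 5 * 3 ^ 3 := by norm_num
    rw [e, map_mul, map_pow, map_pow, h2, h3, one_pow, one_pow, one_mul]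
  have hint : IntegralAt (av p) (D • (C • W)) := by
    refine ⟨?_, ?_, ?_, ?_, ?_⟩
    · rw [e1, map_zero]; norm_num
    · rw [e2, map_zero]; norm_num
    · rw [e3, map_zero]; norm_num
    · rw [e4, map_mul, map_pow, huv, map_div₀, h48, div_one, (av p).map_neg]
      calc (Nm p ^ m) ^ 4 * av p (C • W).c₄ ≤ (Nm p ^ m) ^ 4 * Nm p ^ (-(4 * m)) :=
            mul_le_mul_of_nonneg_left hc4 (by positivity)
        _ = 1 := by
            rw [← zpow_natCast, ← zpow_mul, ← zpow_add₀ hN0.ne']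
            norm_num
            ring_nf
            norm_num
    · rw [e6, map_mul, map_pow, huv, map_div₀, h864, div_one, (av p).map_neg]
      calc (Nm p ^ m) ^ 6 * av p (C • W).c₆ ≤ (Nm p ^ m) ^ 6 * Nm p ^ (-(6 * m)) :=
            mul_le_mul_of_nonneg_left hc6 (by positivity)
        _ = 1 := by
            rw [← zpow_natCast, ← zpow_mul, ← zpow_add₀ hN0.ne']
            norm_num
            ring_nf
            norm_num
  have hmin := dmin_minimal hW p (D * C) (by rw [mul_smul]; exact hint)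
  rw [mul_smul, variableChange_Δ, map_mul, map_pow, hΔ', hd12] at hmin
  have huD : av p ((D.u⁻¹ : Kˣ) : K) = Nm p ^ m := huv
  rw [huD, ← zpow_natCast, ← zpow_mul, ← zpow_add₀ hN0.ne'] at hmin
  have e0 : m * ((12 : ℕ) : ℤ) + -(12 * m) = 0 := by push_cast; ring
  rw [e0, zpow_zero] at hmin
  have hlt : Nm p ^ (-(12 * m)) < 1 := zpow_lt_one_of_neg₀ hN (by omega)
  linarith

/-- `|c₄|³ ≤ |Δ|` if `|j| ≤ 1`. -/
theorem c4_le {W : WeierstrassCurve K} [W.IsElliptic] {v : AbsoluteValue K ℝ} {J : ℝ}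
    (h : v W.j ≤ J) : v W.c₄ ^ 3 ≤ J * v W.Δ := by
  rw [← map_pow, DD3_c4_rel, map_mul, mul_comm]
  exact mul_le_mul_of_nonneg_right h (v.nonneg _)

end Pool.Agent.H38LS
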