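import Mathlib

/-!
# H38LS (MP_d8f466_nt): the x-line of a Weierstrass curve, local functions

A point of the x-line is a pair `(X, Z)` (not both zero) up to scaling, `x = X / Z`.
`dup W` is the duplication map, `asm W` the add-and-subtract map on the symmetric square.
-/

set_option autoImplicit false

namespace Pool.Agent.H38LS

open WeierstrassCurve

variable {K : Type*} [Field K]

/-- Duplication on the x-line, first coordinate. -/
def dupX (W : WeierstrassCurve K) (X Z : K) : K :=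
  X ^ 4 - W.b₄ * X ^ 2 * Z ^ 2 - 2 * W.b₆ * X * Z ^ 3 - W.b₈ * Z ^ 4

/-- Duplication on the x-line, second coordinate (for `Z = 1` it is the square of
`2 y + a₁ x + a₃`). -/
def dupZ (W : WeierstrassCurve K) (X Z : K) : K :=
  4 * X ^ 3 * Z + W.b₂ * X ^ 2 * Z ^ 2 + 2 * W.b₄ * X * Z ^ 3 + W.b₆ * Z ^ 4

/-- Duplication on the x-line. -/
def dup (W : WeierstrassCurve K) (p : K × K) : K × K := (dupX W p.1 p.2, dupZ W p.1 p.2)

/-- Coordinates of an unordered pair of points of the x-line on the symmetric square. -/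
def sym (p q : K × K) : K × K × K := (p.1 * q.1, p.1 * q.2 + q.1 * p.2, p.2 * q.2)

/-- The map `(x(P) x(Q) : x(P) + x(Q) : 1) ↦ (x(P+Q) x(P-Q) : x(P+Q) + x(P-Q) : 1)`. -/
def asm (W : WeierstrassCurve K) (s : K × K × K) : K × K × K :=
  (s.1 ^ 2 - W.b₄ * s.1 * s.2.2 - W.b₆ * s.2.1 * s.2.2 - W.b₈ * s.2.2 ^ 2,
    2 * s.2.1 * s.1 + W.b₂ * s.1 * s.2.2 + W.b₄ * s.2.1 * s.2.2 + W.b₆ * s.2.2 ^ 2,
    s.2.1 ^ 2 - 4 * s.1 * s.2.2)

/-- `r₁, r₂` are the points `x(P+Q), x(P-Q)` of the x-line if `p, q` are `x(P), x(Q)`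
(up to scalars). -/
def AddSub (W : WeierstrassCurve K) (p q r₁ r₂ : K × K) : Prop :=
  p ≠ 0 ∧ q ≠ 0 ∧ r₁ ≠ 0 ∧ r₂ ≠ 0 ∧
    ∃ l : K, l ≠ 0 ∧ sym r₁ r₂ = l • asm W (sym p q)

/-- The curve `y² + x y = x³ - 36 t x - t` (`t = 1/(j - 1728)`): `b₂ = 1`, `b₄ = -72 t`,
`b₆ = -4 t`, `b₈ = -t - 1296 t²`, discriminant `t (1 + 1728 t)²`. -/
def Et (t : K) : WeierstrassCurve K := ⟨1, 0, 0, -36 * t, -t⟩

/-- Weighted maximum norm of a pair. -/
noncomputable def N2 (v : AbsoluteValue K ℝ) (w : ℝ) (p : K × K) : ℝ :=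
  max (v p.1) (w * v p.2)

/-- Weighted maximum norm of a triple. -/
noncomputable def N3 (v : AbsoluteValue K ℝ) (w : ℝ) (s : K × K × K) : ℝ :=
  max (v s.1) (max (w * v s.2.1) (w ^ 2 * v s.2.2))

/-- `al v L (x, 1) = - log |x|` clipped to `[0, L/2]`. -/
noncomputable def al (v : AbsoluteValue K ℝ) (L : ℝ) (p : K × K) : ℝ :=
  Real.log (N2 v 1 p / N2 v (Real.exp (-(L / 2))) p)

/-- Folding on `[0, L]`. -/
noncomputable def fold (L a : ℝ) : ℝ := min a (L - a)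

/-- The function `a (L - a) / L`. -/
noncomputable def hh (L a : ℝ) : ℝ := a * (L - a) / L

/-- `l` is a lower bound for the local height (normalised with `- log |Δ| / 12`) at `v` of the
points with x-coordinate `p`. -/
def LocLB (v : AbsoluteValue K ℝ) (W : WeierstrassCurve K) (p : K × K) (l : ℝ) : Prop :=
  ∃ C : ℝ, ∀ n : ℕ, 4 ^ n * (2 * l + Real.log (v W.Δ) / 6) - C ≤
    Real.log (N2 v 1 ((dup W)^[n] p))

end Pool.Agent.H38LS
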