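import Pool.Agent.Lib.H38LS.Defs

/-!
# H38LS (MP_d8f466_nt): global definitions

Points, canonical height, minimal discriminant, normalised coordinate on the x-line.
-/

set_option autoImplicit false

namespace Pool.Agent.H38LS

open WeierstrassCurve NumberField Height Filter IsDedekindDomain

variable {K : Type*} [Field K]

/-- The x-coordinate of a point as a pair: `(1, 0)` for the point at infinity, `(x, 1)` for an
affine point. -/
def xr {W : WeierstrassCurve K} : W.toAffine.Point → K × K
  | .zero => (1, 0)
  | .some x _ _ => (x, 1)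

section Global

variable [NumberField K]

/-- Naive logarithmic height of `x(P)` (relative to `K`, i.e. `[K : ℚ]` times the absolute
height); `0` for the point at infinity. -/
noncomputable def xh {W : WeierstrassCurve K} (P : W.toAffine.Point) : ℝ :=
  logHeight ![(xr P).1, (xr P).2]

/-- Canonical height (relative to `K`): the limit of `h(x(2^n P)) / (2 * 4^n)`. -/
noncomputable def hhat [DecidableEq K] {W : WeierstrassCurve K} (P : W.toAffine.Point) : ℝ :=
  limUnder atTop (fun n : ℕ => xh ((2 ^ n : ℕ) • P) / (2 * 4 ^ n))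

/-- The normalised absolute value of a prime `p` of `K`: `|a|_p = N(p)^(-ord_p(a))`. -/
noncomputable def av (p : HeightOneSpectrum (𝓞 K)) : AbsoluteValue K ℝ :=
  NumberField.HeightOneSpectrum.adicAbv K p

/-- The norm of a prime. -/
noncomputable def Nm (p : HeightOneSpectrum (𝓞 K)) : ℝ := (Ideal.absNorm p.asIdeal : ℝ)

/-- The coefficients of `W` are integral at `v`. -/
def IntegralAt (v : AbsoluteValue K ℝ) (W : WeierstrassCurve K) : Prop :=
  v W.a₁ ≤ 1 ∧ v W.a₂ ≤ 1 ∧ v W.a₃ ≤ 1 ∧ v W.a₄ ≤ 1 ∧ v W.a₆ ≤ 1

/-- Exponent of the prime `p` in the minimal discriminant of `W`: the smallest exponent of `p`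
in the discriminant of a model of `W` over `K` which is integral at `p`. -/
noncomputable def dmin (W : WeierstrassCurve K) (p : HeightOneSpectrum (𝓞 K)) : ℕ :=
  sInf {n : ℕ | ∃ C : VariableChange K, IntegralAt (av p) (C • W) ∧
    av p (C • W).Δ = Nm p ^ (-(n : ℤ))}

/-- Logarithm of the norm of the minimal discriminant ideal. -/
noncomputable def logDisc (W : WeierstrassCurve K) : ℝ :=
  ∑ᶠ p : HeightOneSpectrum (𝓞 K), (dmin W p : ℝ) * Real.log (Nm p)

/-- Logarithm of the norm of the product of all primes which divide the minimal discriminant. -/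
noncomputable def logRad (W : WeierstrassCurve K) : ℝ :=
  ∑ᶠ p : HeightOneSpectrum (𝓞 K), if dmin W p = 0 then 0 else Real.log (Nm p)

/-- Logarithm of the norm of the product of the primes which divide the minimal discriminant
with an exponent at most `s`. -/
noncomputable def Ts (W : WeierstrassCurve K) (s : ℕ) : ℝ :=
  ∑ᶠ p : HeightOneSpectrum (𝓞 K),
    if dmin W p ≠ 0 ∧ dmin W p ≤ s then Real.log (Nm p) else 0

/-- `max (log N(Δ), h(j))` (both relative to `K`). -/
noncomputable def HH (W : WeierstrassCurve K) [W.IsElliptic] : ℝ :=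
  max (logDisc W) (logHeight₁ W.j)

/-- The archimedean part of `h(j)`. -/
noncomputable def hinf (W : WeierstrassCurve K) [W.IsElliptic] : ℝ :=
  ∑ w : InfinitePlace K, (w.mult : ℝ) * Real.log (max 1 (w W.j))

end Global

/-- x-coordinate of the node (if there is one). -/
def rr (W : WeierstrassCurve K) : K := (18 * W.b₆ - W.b₂ * W.b₄) / W.c₄

/-- Scaling factor of the normalised coordinate. -/
def cc (W : WeierstrassCurve K) : K := -W.c₆ / W.c₄

/-- `t = 1/(j - 1728)`. -/
def tt (W : WeierstrassCurve K) : K := W.Δ / W.c₆ ^ 2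

/-- The normalised coordinate `X = (x - r)/c`: it identifies the x-line of `W` with the x-line
of `Et (tt W)`. -/
def nrm (W : WeierstrassCurve K) (p : K × K) : K × K := ((p.1 - rr W * p.2) / cc W, p.2)

/-- The lower bound of the local height which comes from `al`. -/
noncomputable def Gf (v : AbsoluteValue K ℝ) (L : ℝ) (p : K × K) : ℝ :=
  L / 12 - hh L (al v L p) / 2

/-- Kernel of reduction (`|j| ≤ 1`), `d = |Δ|^(1/6)`. -/
def Ker (v : AbsoluteValue K ℝ) (W : WeierstrassCurve K) (d : ℝ) (p : K × K) : Prop :=
  d * v p.2 < v (p.1 + W.b₂ / 12 * p.2)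

end Pool.Agent.H38LS
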