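import Mathlib

set_option autoImplicit false

namespace Pool.Agent.H38LS

/-! Chunk FN1 (S/M). Choice of `N` (real numbers only).

Proof. `B = 96 C + 1`, `H ≥ T ≥ B > 0`. `N = ⌈4 H/T⌉₊ ≥ 1` (`≥ 4`), `M = 2 N + 1 ≥ 8 H/T`, so
`H/(12 M) ≤ T/96`, `C ≤ T/96`, the left side is `≥ T/24 - T/48 = T/48`; `M ≤ 8 H/T + 3 ≤ 11 H/T`.
Hence `h ≥ T/(48 * 576 * s² * 121 (H/T)²)`. -/

theorem choose_N {C : ℝ} (hC : 0 ≤ C) :
    ∃ c B : ℝ, 0 < c ∧ 1 ≤ B ∧ ∀ (T H h s : ℝ), B ≤ T → T ≤ H → 1 ≤ s →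
      (∀ N : ℕ, 1 ≤ N → T / 24 - H / (12 * (2 * N + 1)) - C ≤
        576 * s ^ 2 * (2 * N + 1) ^ 2 * h) →
      c * T ^ 3 / (s ^ 2 * H ^ 2) ≤ h := by
  refine ⟨1 / (48 * 576 * 121), 96 * C + 1, by norm_num, by linarith, ?_⟩
  intro T H h s hBT hTH hs hN
  have hT : 0 < T := by linarith
  have hH : 0 < H := by linarith
  have hr : 1 ≤ H / T := by
    rw [le_div_iff₀ hT]
    linarith
  obtain ⟨N, hNd⟩ : ∃ N : ℕ, N = ⌈4 * (H / T)⌉₊ := ⟨_, rfl⟩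
  have h1 : 4 * (H / T) ≤ N := by
    rw [hNd]
    exact Nat.le_ceil _
  have h2 : (N : ℝ) < 4 * (H / T) + 1 := by
    rw [hNd]
    exact Nat.ceil_lt_add_one (by positivity)
  have hN1 : 1 ≤ N := by
    have h3 : (1 : ℝ) ≤ N := by linarith
    exact_mod_cast h3
  have h4 := hN N hN1
  set M : ℝ := 2 * (N : ℝ) + 1 with hM
  have hM0 : 0 < M := by positivity
  have hM1 : 8 * (H / T) ≤ M := by linarith
  have hM2 : M ≤ 11 * (H / T) := by linarith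
  have h5 : H / (12 * M) ≤ T / 96 := by
    rw [div_le_div_iff₀ (by positivity) (by norm_num)]
    have h6 : 8 * H ≤ M * T := by
      have h7 := mul_le_mul_of_nonneg_right hM1 hT.le
      have h8 : 8 * (H / T) * T = 8 * H := by field_simp
      rw [h8] at h7
      exact h7
    nlinarith
  have h6 : T / 48 ≤ 576 * s ^ 2 * M ^ 2 * h := by linarith
  have hh : 0 < h := by
    by_contra hneg
    have h7 : 576 * s ^ 2 * M ^ 2 * h ≤ 0 :=
      mul_nonpos_of_nonneg_of_nonpos (by positivity) (not_lt.1 hneg)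
    linarith
  have h7 : M ^ 2 ≤ 121 * (H ^ 2 / T ^ 2) := by
    calc M ^ 2 ≤ (11 * (H / T)) ^ 2 := pow_le_pow_left₀ hM0.le hM2 2
      _ = 121 * (H ^ 2 / T ^ 2) := by ring
  have h8 : T / 48 ≤ 576 * s ^ 2 * (121 * (H ^ 2 / T ^ 2)) * h := by
    refine h6.trans ?_
    gcongr
  rw [div_le_iff₀ (by positivity)]
  have h9 := mul_le_mul_of_nonneg_right h8 (by positivity : (0 : ℝ) ≤ T ^ 2 / (576 * 121))
  have h10 : 576 * s ^ 2 * (121 * (H ^ 2 / T ^ 2)) * h * (T ^ 2 / (576 * 121)) =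
      h * (s ^ 2 * H ^ 2) := by
    field_simp
  have h11 : T / 48 * (T ^ 2 / (576 * 121)) = 1 / (48 * 576 * 121) * T ^ 3 := by ring
  rw [h10, h11] at h9
  exact h9

end Pool.Agent.H38LS
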