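import Pool.Agent.Lib.H38LS.DD2

set_option autoImplicit false

namespace Pool.Agent.H38LS

open NumberField Height IsDedekindDomain

variable {K : Type*} [Field K] [NumberField K]

/-! Chunk HJ (M). Comparison of `h(j)`, `logDisc`, `hinf`, `Ts`, `logRad`.

Proofs. `h(j) = ∑_w w.mult log⁺ |j|_w + ∑ᶠ_p log⁺ |j|_p` (`NumberField.logHeight₁_eq`; finite places
are indexed by the primes: `FinitePlace.equivHeightOneSpectrum`, `FinitePlace.norm_embedding`), and
`log⁺ |j|_p ≤ dmin log (Nm p)` (`log_j_le`, or `0 ≤`). All finsums have finite support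
(`dmin_finite`), so they are sums over any finite set which contains the support;
`finsum_le_finsum`. `Ts_ge`: the primes with `dmin > s` contribute at most `logDisc/s` to
`logRad`. -/

theorem logHeight_j_le (W : WeierstrassCurve K) [W.IsElliptic] :
    logHeight₁ W.j ≤ logDisc W + hinf W := by
  have hΔ : W.Δ ≠ 0 := W.isUnit_Δ.ne_zero
  have harch : (∑ v : InfinitePlace K, (v.mult : ℝ) * Real.posLog (v W.j)) = hinf W := by
    unfold hinf
    refine Finset.sum_congr rfl fun v _ => ?_
    rw [Real.posLog_eq_log_max_one (apply_nonneg v W.j)]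
  have hfin : (∑ᶠ v : FinitePlace K, Real.posLog (v W.j)) =
      ∑ᶠ p : HeightOneSpectrum (𝓞 K), Real.posLog (av p W.j) := by
    rw [← finsum_comp_equiv (FinitePlace.equivHeightOneSpectrum (K := K)).symm]
    refine finsum_congr fun p => ?_
    rw [FinitePlace.equivHeightOneSpectrum_symm_apply, FinitePlace.norm_embedding]
    rfl
  have hle : ∀ p : HeightOneSpectrum (𝓞 K),
      Real.posLog (av p W.j) ≤ (dmin W p : ℝ) * Real.log (Nm p) := by
    intro p
    rcases le_or_gt (av p W.j) 1 with h | h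
    · have h0 : Real.posLog (av p W.j) = 0 := by
        rw [Real.posLog_eq_zero_iff, abs_of_nonneg ((av p).nonneg _)]
        exact h
      rw [h0]
      exact mul_nonneg (Nat.cast_nonneg _) (Real.log_nonneg (one_lt_Nm p).le)
    · have h0 : Real.posLog (av p W.j) = Real.log (av p W.j) := by
        apply Real.posLog_eq_log
        rw [abs_of_nonneg ((av p).nonneg _)]
        exact h.le
      rw [h0]
      exact log_j_le p h
  have hsg : (Function.support fun p : HeightOneSpectrum (𝓞 K) =>
      (dmin W p : ℝ) * Real.log (Nm p)).Finite := by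
    refine (dmin_finite hΔ).subset ?_
    intro p hp hd
    apply hp
    show (dmin W p : ℝ) * Real.log (Nm p) = 0
    rw [hd, Nat.cast_zero, zero_mul]
  have hsf : (Function.support fun p : HeightOneSpectrum (𝓞 K) =>
      Real.posLog (av p W.j)).Finite := by
    refine (dmin_finite hΔ).subset ?_
    intro p hp hd
    apply hp
    show Real.posLog (av p W.j) = 0
    have h1 := hle p
    rw [hd, Nat.cast_zero, zero_mul] at h1
    exact le_antisymm h1 Real.posLog_nonneg
  have hmain : (∑ᶠ p : HeightOneSpectrum (𝓞 K), Real.posLog (av p W.j)) ≤ logDisc W := by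
    unfold logDisc
    exact finsum_le_finsum' hsf hsg hle
  rw [NumberField.logHeight₁_eq, harch, hfin]
  linarith

theorem hinf_nonneg (W : WeierstrassCurve K) [W.IsElliptic] : 0 ≤ hinf W := by
  unfold hinf
  refine Finset.sum_nonneg fun v _ => ?_
  exact mul_nonneg (Nat.cast_nonneg _) (Real.log_nonneg (le_max_left _ _))

theorem logDisc_eq_sum {W : WeierstrassCurve K} {S : Finset (HeightOneSpectrum (𝓞 K))}
    (hS : ∀ p ∉ S, dmin W p = 0) :
    logDisc W = ∑ p ∈ S, (dmin W p : ℝ) * Real.log (Nm p) := by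
  unfold logDisc
  refine finsum_eq_sum_of_support_subset _ ?_
  intro p hp
  by_contra hcon
  apply hp
  show (dmin W p : ℝ) * Real.log (Nm p) = 0
  rw [hS p hcon, Nat.cast_zero, zero_mul]

open Classical in
theorem Ts_eq_sum {W : WeierstrassCurve K} {S : Finset (HeightOneSpectrum (𝓞 K))}
    (hS : ∀ p ∉ S, dmin W p = 0) (s : ℕ) :
    Ts W s = ∑ p ∈ S, if dmin W p ≠ 0 ∧ dmin W p ≤ s then Real.log (Nm p) else 0 := by
  unfold Ts
  refine finsum_eq_sum_of_support_subset _ ?_
  intro p hp
  by_contra hcon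
  apply hp
  show (if dmin W p ≠ 0 ∧ dmin W p ≤ s then Real.log (Nm p) else 0) = 0
  rw [if_neg]
  rintro ⟨h, -⟩
  exact h (hS p hcon)

theorem logRad_eq_sum {W : WeierstrassCurve K} {S : Finset (HeightOneSpectrum (𝓞 K))}
    (hS : ∀ p ∉ S, dmin W p = 0) :
    logRad W = ∑ p ∈ S, if dmin W p = 0 then 0 else Real.log (Nm p) := by
  unfold logRad
  refine finsum_eq_sum_of_support_subset _ ?_
  intro p hp
  by_contra hcon
  apply hp
  show (if dmin W p = 0 then 0 else Real.log (Nm p)) = 0
  rw [if_pos (hS p hcon)]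

private theorem HJ_support {W : WeierstrassCurve K} (hW : W.Δ ≠ 0) :
    ∀ p ∉ (dmin_finite hW).toFinset, dmin W p = 0 := by
  intro p hp
  by_contra hcon
  apply hp
  rw [Set.Finite.mem_toFinset]
  exact hcon

theorem Ts_le {W : WeierstrassCurve K} (hW : W.Δ ≠ 0) (s : ℕ) : Ts W s ≤ logRad W ∧
    logRad W ≤ logDisc W := by
  have hS := HJ_support hW
  rw [Ts_eq_sum hS s, logRad_eq_sum hS, logDisc_eq_sum hS]
  refine ⟨Finset.sum_le_sum fun p _ => ?_, Finset.sum_le_sum fun p _ => ?_⟩
  · have hl : 0 ≤ Real.log (Nm p) := Real.log_nonneg (one_lt_Nm p).le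
    by_cases h0 : dmin W p = 0
    · rw [if_pos h0, if_neg (fun h => h.1 h0)]
    · rw [if_neg h0]
      split_ifs
      · exact le_rfl
      · exact hl
  · have hl : 0 ≤ Real.log (Nm p) := Real.log_nonneg (one_lt_Nm p).le
    by_cases h0 : dmin W p = 0
    · rw [if_pos h0]
      exact mul_nonneg (Nat.cast_nonneg _) hl
    · rw [if_neg h0]
      have h1 : (1 : ℝ) ≤ (dmin W p : ℝ) := by
        exact_mod_cast Nat.one_le_iff_ne_zero.mpr h0
      nlinarith

theorem Ts_ge {W : WeierstrassCurve K} (hW : W.Δ ≠ 0) {s : ℕ} (hs : 1 ≤ s) :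
    logRad W - logDisc W / s ≤ Ts W s := by
  have hS := HJ_support hW
  rw [Ts_eq_sum hS s, logRad_eq_sum hS, logDisc_eq_sum hS, Finset.sum_div,
    ← Finset.sum_sub_distrib]
  refine Finset.sum_le_sum fun p _ => ?_
  have hl : 0 ≤ Real.log (Nm p) := Real.log_nonneg (one_lt_Nm p).le
  have hs0 : (0 : ℝ) < s := by exact_mod_cast hs
  by_cases h0 : dmin W p = 0
  · rw [if_pos h0, if_neg (fun h => h.1 h0), h0]
    simp
  · rw [if_neg h0]
    by_cases h1 : dmin W p ≤ s
    · rw [if_pos ⟨h0, h1⟩]
      have h2 : 0 ≤ (dmin W p : ℝ) * Real.log (Nm p) / s :=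
        div_nonneg (mul_nonneg (Nat.cast_nonneg _) hl) hs0.le
      linarith
    · rw [if_neg (fun h => h1 h.2)]
      have h2 : (s : ℝ) ≤ (dmin W p : ℝ) := by
        exact_mod_cast (not_le.mp h1).le
      have h3 : Real.log (Nm p) ≤ (dmin W p : ℝ) * Real.log (Nm p) / s := by
        rw [le_div_iff₀ hs0]
        nlinarith
      linarith

end Pool.Agent.H38LS
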