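import Mathlib

set_option autoImplicit false

namespace Pool.Agent.H38LS

/-! Chunk PG (M). Iterated pigeonhole.

Proof. One function: given `x` and `k ≥ 1`, if `L ≥ k C` there is `n ∈ [1, 2 k + 2]` with
`a (n x) ≤ 2 L/k`: among the `k + 1` numbers `a (i x) ∈ [0, L]`, `i = 1, …, k + 1`, two, `i < j`,
differ by at most `L/k`; by the second hypothesis one of `a ((j + i) x)`, `a ((j - i) x)` is at
most `L/k + C ≤ 2 L/k`. Doubling: the first hypothesis gives `a (n x) ≤ 2 ^ n * (a x + C)` for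
`n ≥ 1` (induction, `a (x + y) ≤ 2 max (a x) (a y) + C`).
Induction on `r`: for `r + 1` functions and `H`, put `k = 2 H`, `m = 2 k + 2`, and apply the
case `r` with `H' = 2 ^ (m + 1) H` to get `n'` with `a_i (n' x) ≤ L_i/H'` for `i ≤ r`; then the
one-function step for `a_{r+1}` and `n' x` gives `n'' ≤ m` with `a_{r+1} (n'' n' x) ≤ 2 L/k = L/H`, and
`a_i (n'' n' x) ≤ 2 ^ m (L_i/H' + C) ≤ L_i/(2 H) + 2 ^ m C ≤ L_i/H` if
`Λ ≥ 2 ^ (m + 1) H C`. -/

private theorem PG_box (k : ℕ) (hk : 1 ≤ k) (u : ℝ) (hu0 : 0 ≤ u) (huk : u ≤ k) :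
    ((min ⌊u⌋₊ (k - 1) : ℕ) : ℝ) ≤ u ∧ u ≤ ((min ⌊u⌋₊ (k - 1) : ℕ) : ℝ) + 1 := by
  have h1 : ((⌊u⌋₊ : ℕ) : ℝ) ≤ u := Nat.floor_le hu0
  have h2 : u < (⌊u⌋₊ : ℕ) + 1 := Nat.lt_floor_add_one u
  rcases le_total ⌊u⌋₊ (k - 1) with h | h
  · rw [min_eq_left h]
    exact ⟨h1, h2.le⟩
  · rw [min_eq_right h]
    refine ⟨le_trans (by exact_mod_cast h) h1, ?_⟩
    have : ((k - 1 : ℕ) : ℝ) + 1 = k := by
      rw [Nat.cast_sub hk]
      push_cast
      ring
    rw [this]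
    exact huk

private theorem PG_two (k : ℕ) (hk : 1 ≤ k) (L : ℝ) (f : ℕ → ℝ) (hf : ∀ i, 0 ≤ f i ∧ f i ≤ L) :
    ∃ i j : ℕ, 1 ≤ i ∧ i < j ∧ j ≤ k + 1 ∧ |f i - f j| ≤ L / k := by
  have hk0 : (0 : ℝ) < k := by exact_mod_cast hk
  have hL : 0 ≤ L := le_trans (hf 0).1 (hf 0).2
  rcases hL.eq_or_lt with h0 | hpos
  · refine ⟨1, 2, le_rfl, by norm_num, by omega, ?_⟩
    have h1 : f 1 = 0 := le_antisymm (h0 ▸ (hf 1).2) (hf 1).1
    have h2 : f 2 = 0 := le_antisymm (h0 ▸ (hf 2).2) (hf 2).1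
    rw [h1, h2, ← h0]
    simp
  · have hu0 : ∀ i, 0 ≤ f i * k / L := fun i => by
      have := (hf i).1
      positivity
    have huk : ∀ i, f i * k / L ≤ k := fun i => by
      rw [div_le_iff₀ hpos, mul_comm (k : ℝ) L]
      exact mul_le_mul_of_nonneg_right (hf i).2 hk0.le
    obtain ⟨i, hi, j, hj, hij, he⟩ := Finset.exists_ne_map_eq_of_card_lt_of_maps_to
      (s := Finset.Icc 1 (k + 1)) (t := Finset.range k)
      (f := fun i => min ⌊f i * k / L⌋₊ (k - 1)) (by simp) (by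
        intro i _
        simp only [Finset.coe_range, Set.mem_Iio]
        exact lt_of_le_of_lt (min_le_right _ _) (by omega))
    have key : |f i - f j| ≤ L / k := by
      have hbi := PG_box k hk _ (hu0 i) (huk i)
      have hbj := PG_box k hk _ (hu0 j) (huk j)
      have he' : min ⌊f i * k / L⌋₊ (k - 1) = min ⌊f j * k / L⌋₊ (k - 1) := he
      rw [he'] at hbi
      have h3 : |f i * k / L - f j * k / L| ≤ 1 := by
        rw [abs_le]
        constructor <;> linarith [hbi.1, hbi.2, hbj.1, hbj.2]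
      have h4 : f i * k / L - f j * k / L = (f i - f j) * (k / L) := by ring
      rw [h4, abs_mul, abs_of_pos (div_pos hk0 hpos)] at h3
      rw [le_div_iff₀ hk0]
      have h5 : |f i - f j| * k = |f i - f j| * (k / L) * L := by
        field_simp
      rw [h5]
      calc |f i - f j| * (k / L) * L ≤ 1 * L := mul_le_mul_of_nonneg_right h3 hpos.le
        _ = L := one_mul L
    rw [Finset.mem_Icc] at hi hj
    rcases lt_or_gt_of_ne hij with h | h
    · exact ⟨i, j, hi.1, h, hj.2, key⟩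
    · exact ⟨j, i, hj.1, h, hi.2, by rw [abs_sub_comm]; exact key⟩

private theorem PG_one (C : ℝ) (k : ℕ) (hk : 1 ≤ k) (A : Type*) [AddCommGroup A]
    (a : A → ℝ) (L : ℝ) (hL : k * C ≤ L) (h0 : ∀ x, 0 ≤ a x ∧ a x ≤ L)
    (h2 : ∀ x y, min (a (x + y)) (a (x - y)) ≤ |a x - a y| + C) (x : A) :
    ∃ n : ℕ, 1 ≤ n ∧ n ≤ 2 * k + 2 ∧ a (n • x) ≤ 2 * L / k := by
  have hk0 : (0 : ℝ) < k := by exact_mod_cast hk
  obtain ⟨i, j, hi, hij, hj, hd⟩ := PG_two k hk L (fun i => a (i • x)) (fun i => h0 _)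
  have hC : C ≤ L / k := by
    rw [le_div_iff₀ hk0, mul_comm]
    exact hL
  have hm := h2 (j • x) (i • x)
  have hd' : |a (j • x) - a (i • x)| ≤ L / k := by
    rw [abs_sub_comm]
    exact hd
  have hb : min (a (j • x + i • x)) (a (j • x - i • x)) ≤ 2 * L / k := by
    have : 2 * L / k = L / k + L / k := by ring
    rw [this]
    linarith
  rcases min_le_iff.mp hb with h | h
  · refine ⟨j + i, by omega, by omega, ?_⟩
    rw [add_nsmul]
    exact h
  · refine ⟨j - i, by omega, by omega, ?_⟩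
    rw [sub_nsmul x hij.le]
    rw [sub_eq_add_neg] at h
    exact h

private theorem PG_dbl (C : ℝ) (hC : 0 ≤ C) (A : Type*) [AddCommGroup A]
    (a : A → ℝ) (h0 : ∀ x, 0 ≤ a x)
    (h1 : ∀ x y, a (x + y) ≤ 2 * max (a x) (a y) + C) (x : A) (n : ℕ) (hn : 1 ≤ n) :
    a (n • x) ≤ 2 ^ n * (a x + C) - C := by
  induction n, hn using Nat.le_induction with
  | base =>
    rw [one_nsmul]
    have := h0 x
    linarith
  | succ n hn ih =>
    rw [succ_nsmul]
    have h3 := h1 (n • x) x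
    have h4 : a x ≤ 2 ^ n * (a x + C) - C := by
      have h5 : (1 : ℝ) ≤ 2 ^ n := one_le_pow₀ (by norm_num)
      have h6 : 0 ≤ a x + C := add_nonneg (h0 x) hC
      nlinarith [mul_nonneg (sub_nonneg.mpr h5) h6]
    have h7 : max (a (n • x)) (a x) ≤ 2 ^ n * (a x + C) - C := max_le ih h4
    rw [pow_succ]
    linarith

theorem pigeon (C : ℝ) (hC : 0 ≤ C) (r : ℕ) : ∀ H : ℕ, 1 ≤ H → ∃ (N₀ : ℕ) (Λ : ℝ),
    ∀ (A : Type*) [AddCommGroup A] (a : Fin r → A → ℝ) (L : Fin r → ℝ), (∀ i, Λ ≤ L i) →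
      (∀ i x, 0 ≤ a i x ∧ a i x ≤ L i) →
      (∀ i x y, a i (x + y) ≤ 2 * max (a i x) (a i y) + C) →
      (∀ i x y, min (a i (x + y)) (a i (x - y)) ≤ |a i x - a i y| + C) →
      ∀ x : A, ∃ n : ℕ, 1 ≤ n ∧ n ≤ N₀ ∧ ∀ i, a i (n • x) ≤ L i / H := by
  induction r with
  | zero =>
    intro H _
    exact ⟨1, 0, fun A _ a L _ _ _ _ x => ⟨1, le_rfl, le_rfl, fun i => i.elim0⟩⟩
  | succ r ih =>
    intro H hH
    obtain ⟨N', Λ', hP⟩ := ih (2 ^ ((2 * (2 * H) + 2) + 1) * H)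
      (Nat.one_le_iff_ne_zero.mpr (by positivity))
    refine ⟨(2 * (2 * H) + 2) * N', max Λ' (max (((2 * H : ℕ) : ℝ) * C)
      (2 ^ ((2 * (2 * H) + 2) + 1) * H * C)), ?_⟩
    intro A _ a L hΛ h0 h1 h2 x
    obtain ⟨n', hn1, hn2, hn3⟩ := hP A (fun i => a i.castSucc) (fun i => L i.castSucc)
      (fun i => le_trans (le_max_left _ _) (hΛ _)) (fun i => h0 _) (fun i => h1 _)
      (fun i => h2 _) x
    obtain ⟨n'', hm1, hm2, hm3⟩ := PG_one C (2 * H) (by omega) A (a (Fin.last r)) (L (Fin.last r))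
      (le_trans (le_trans (le_max_left _ _) (le_max_right _ _)) (hΛ _)) (h0 _) (h2 _) (n' • x)
    refine ⟨n'' * n', Nat.one_le_iff_ne_zero.mpr (by positivity), Nat.mul_le_mul hm2 hn2, ?_⟩
    intro i
    have hH0 : (0 : ℝ) < H := by exact_mod_cast hH
    rw [mul_nsmul']
    refine Fin.lastCases ?_ (fun i => ?_) i
    · have : 2 * L (Fin.last r) / ((2 * H : ℕ) : ℝ) = L (Fin.last r) / H := by
        push_cast
        field_simp
      rw [← this]
      exact hm3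
    · have hd := PG_dbl C hC A (a i.castSucc) (fun y => (h0 _ y).1) (h1 _) (n' • x) n'' hm1
      have ha : a i.castSucc (n' • x) ≤
          L i.castSucc / ((2 ^ ((2 * (2 * H) + 2) + 1) * H : ℕ) : ℝ) := hn3 i
      have hLC : 2 ^ ((2 * (2 * H) + 2) + 1) * H * C ≤ L i.castSucc :=
        le_trans (le_trans (le_max_right _ _) (le_max_right _ _)) (hΛ _)
      set m : ℕ := 2 * (2 * H) + 2 with hm
      have hp : (2 : ℝ) ^ n'' ≤ 2 ^ m := pow_le_pow_right₀ (by norm_num) hm2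
      have hpm : (0 : ℝ) < 2 ^ m := by positivity
      have hax : 0 ≤ a i.castSucc (n' • x) := (h0 _ _).1
      have e1 : a i.castSucc (n'' • n' • x) ≤ 2 ^ m * (a i.castSucc (n' • x) + C) := by
        have := mul_le_mul_of_nonneg_right hp (add_nonneg hax hC)
        linarith
      have e2 : (2 : ℝ) ^ m * (L i.castSucc / ((2 ^ (m + 1) * H : ℕ) : ℝ)) =
          L i.castSucc / (2 * H) := by
        have e0 : ((2 ^ (m + 1) * H : ℕ) : ℝ) = 2 ^ m * (2 * H) := by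
          push_cast
          rw [pow_succ]
          ring
        rw [e0, mul_div_assoc', mul_div_mul_left _ _ hpm.ne']
      have e3 : (2 : ℝ) ^ m * C ≤ L i.castSucc / (2 * H) := by
        rw [le_div_iff₀ (by positivity)]
        rw [pow_succ] at hLC
        nlinarith [hLC]
      have e4 : L i.castSucc / H = L i.castSucc / (2 * H) + L i.castSucc / (2 * H) := by
        field_simp
        ring
      rw [e4]
      calc a i.castSucc (n'' • n' • x) ≤ 2 ^ m * (a i.castSucc (n' • x) + C) := e1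
        _ = 2 ^ m * a i.castSucc (n' • x) + 2 ^ m * C := by ring
        _ ≤ 2 ^ m * (L i.castSucc / ((2 ^ (m + 1) * H : ℕ) : ℝ)) + 2 ^ m * C := by
            gcongr
        _ = L i.castSucc / (2 * H) + 2 ^ m * C := by rw [e2]
        _ ≤ L i.castSucc / (2 * H) + L i.castSucc / (2 * H) := by gcongr

end Pool.Agent.H38LS
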