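import Pool.Agent.Lib.H38LS.PP0

set_option autoImplicit false

namespace Pool.Agent.H38LS

open NumberField IsDedekindDomain

universe u

variable {K : Type u} [Field K] [NumberField K] [DecidableEq K]

/-! Chunk PP1 (M). The local lower bounds at a prime `p`, for `R = 12 q P`.

Proof. `1 < |j|_p`: `l n = Gf … (nrm W (xr (n R)))` (`locLB_point`), sums `sum_nonarch`,
`sum_nonarch_zero`. `|j| ≤ 1`, `p ∤ 6`: `d = |Δ|^(1/6)`, `l n = log (max |x + b₂/12| d / d)/2` for
`xr (n R) = (x, 1)` (`Spec.B1`, `c4_le`), which is `≥ 0`, and `≥ log (Nm p)/12` if `dmin ≠ 0`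
(`ker_gain`, `ker_value`); there are `(2N+1)² - (2N+1)` pairs (`OD_card`). `|j| ≤ 1`, `p ∣ 6`:
`l n = - Cf p`, and the number of pairs is at most `(2N+1)²`. -/

omit [NumberField K] [DecidableEq K] in
private theorem pp1_delta_ne (W : WeierstrassCurve K) [W.IsElliptic] : W.Δ ≠ 0 :=
  W.isUnit_Δ.ne_zero

private theorem pp1_d (p : HeightOneSpectrum (𝓞 K)) (W : WeierstrassCurve K) [W.IsElliptic] :
    ∃ d : ℝ, 0 < d ∧ d ^ 6 = av p W.Δ := by
  have h0 : 0 < av p W.Δ := (av p).pos (pp1_delta_ne W)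
  refine ⟨av p W.Δ ^ ((1 : ℝ) / 6), Real.rpow_pos_of_pos h0 _, ?_⟩
  rw [← Real.rpow_natCast, ← Real.rpow_mul h0.le]
  norm_num

private theorem pp1_nonneg {a d : ℝ} (hd : 0 < d) : 0 ≤ Real.log (max a d / d) / 2 := by
  have h1 : 1 ≤ max a d / d := by
    rw [le_div_iff₀ hd, one_mul]
    exact le_max_right _ _
  have := Real.log_nonneg h1
  linarith

/-- Potentially good case, `p ∤ 6`. -/
private theorem pp1_good (hs : Specs.{u}) (W : WeierstrassCurve K) [W.IsElliptic]
    (p : HeightOneSpectrum (𝓞 K)) (hG : G6 p) (h : av p W.j ≤ 1) {d : ℝ} (hd : 0 < d)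
    (hd6 : d ^ 6 = av p W.Δ) {Q : W.toAffine.Point} (hQ : Q ≠ 0) :
    LocLB (av p) W (xr Q) (Real.log (max (av p ((xr Q).1 + W.b₂ / 12)) d / d) / 2) := by
  have h1 := hs.B1 K (av p) (av_nonarch p) hG.1 hG.2 W (pp1_delta_ne W)
    (by simpa using c4_le h) d hd hd6 (xr Q).1
  rw [← (xr_affine hQ).1] at h1
  exact h1

theorem prime_bound (hs : Specs.{u}) {Cf : HeightOneSpectrum (𝓞 K) → ℝ} (hCf : CfOK Cf)
    (W : WeierstrassCurve K) [W.IsElliptic] (p : HeightOneSpectrum (𝓞 K)) (P : W.toAffine.Point)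
    (q N : ℕ) (hP : ∀ n : ℤ, n ≠ 0 → n • ((12 * q : ℕ) • P) ≠ 0) :
    ∃ l : ℤ → ℝ, (∀ n : ℤ, n ≠ 0 → LocLB (av p) W (xr (n • ((12 * q : ℕ) • P))) (l n)) ∧
      Bp Cf W p ((12 * q : ℕ) • P) N ≤ ∑ x ∈ OD N, l (x.1 - x.2) := by
  by_cases h : 1 < av p W.j
  · refine ⟨fun n => Gf (av p) (Real.log (av p W.j)) (nrm W (xr (n • ((12 * q : ℕ) • P)))),
      fun n hn => locLB_point hs (av_nonarch p) h rfl (hP n hn), ?_⟩
    unfold Bp
    rw [if_pos h]
    split_ifs with h0
    · exact (sum_nonarch_zero hs.A2 (av_nonarch p) h rfl h0 N).ge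
    · exact sum_nonarch hs.A2 (av_nonarch p) h rfl ((12 * q : ℕ) • P) N
  · have hj : av p W.j ≤ 1 := not_lt.mp h
    by_cases hG : G6 p
    · obtain ⟨d, hd, hd6⟩ := pp1_d p W
      refine ⟨fun n => Real.log (max (av p ((xr (n • ((12 * q : ℕ) • P))).1 + W.b₂ / 12)) d / d) / 2,
        fun n hn => pp1_good hs W p hG hj hd hd6 (hP n hn), ?_⟩
      unfold Bp
      rw [if_neg h, if_pos hG]
      split_ifs with hm
      · have h1 : ∑ _x ∈ OD N, Real.log (Nm p) / 12
            ≤ ∑ x ∈ OD N, Real.log (max (av p ((xr ((x.1 - x.2) • ((12 * q : ℕ) • P))).1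
              + W.b₂ / 12)) d / d) / 2 := by
          refine Finset.sum_le_sum fun x hx => ?_
          have hne : x.1 - x.2 ≠ 0 := by
            have := (Finset.mem_offDiag.mp hx).2.2
            exact sub_ne_zero.mpr this
          refine ker_value p hd hd6 ?_
          have h2 := ker_gain hs.B2 hs.B3 p hG.1 hG.2 hj hm hd hd6 q P (x.1 - x.2)
          rw [(xr_affine (hP _ hne)).1] at h2
          exact h2
        rw [Finset.sum_const, nsmul_eq_mul, OD_card] at h1
        exact h1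
      · exact Finset.sum_nonneg fun x _ => pp1_nonneg hd
    · refine ⟨fun _ => -(Cf p), fun n hn => ?_, ?_⟩
      · have h1 := hCf.2.2 p hG W (pp1_delta_ne W) (c4_le hj) (xr (n • ((12 * q : ℕ) • P))).1
        rw [← (xr_affine (hP n hn)).1] at h1
        exact h1
      · unfold Bp
        rw [if_neg h, if_neg hG, Finset.sum_const, nsmul_eq_mul, OD_card]
        have h1 := hCf.1 p
        have h2 : (0 : ℝ) ≤ (N : ℝ) := Nat.cast_nonneg N
        nlinarith [mul_nonneg h1 h2]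

/-- A single point: the local height is at least `- dmin log (Nm p)/24 - Cf p`
(`hh L a ≤ L/4`, `log_j_le`). -/
theorem prime_single (hs : Specs.{u}) {Cf : HeightOneSpectrum (𝓞 K) → ℝ} (hCf : CfOK Cf)
    (W : WeierstrassCurve K) [W.IsElliptic] (p : HeightOneSpectrum (𝓞 K))
    {Q : W.toAffine.Point} (hQ : Q ≠ 0) :
    LocLB (av p) W (xr Q) (-((dmin W p : ℝ) * Real.log (Nm p) / 24) - Cf p) := by
  have hC := hCf.1 p
  have hN : 0 < Real.log (Nm p) := Real.log_pos (one_lt_Nm p)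
  have hdN : 0 ≤ (dmin W p : ℝ) * Real.log (Nm p) := by positivity
  by_cases h : 1 < av p W.j
  · refine (locLB_point hs (av_nonarch p) h rfl hQ).mono ?_
    have hL : 0 < Real.log (av p W.j) := Real.log_pos h
    have h1 := log_j_le (W := W) p h
    set L := Real.log (av p W.j) with hLdef
    unfold Gf hh
    set a := al (av p) L (nrm W (xr Q)) with ha
    have h2 : a * (L - a) / L ≤ L / 4 := by
      rw [div_le_iff₀ hL]
      nlinarith [sq_nonneg (L / 2 - a)]
    linarith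
  · have hj : av p W.j ≤ 1 := not_lt.mp h
    by_cases hG : G6 p
    · obtain ⟨d, hd, hd6⟩ := pp1_d p W
      refine (pp1_good hs W p hG hj hd hd6 hQ).mono ?_
      have := pp1_nonneg (a := av p ((xr Q).1 + W.b₂ / 12)) hd
      linarith
    · have h1 := hCf.2.2 p hG W (pp1_delta_ne W) (c4_le hj) (xr Q).1
      rw [← (xr_affine hQ).1] at h1
      refine h1.mono ?_
      linarith

end Pool.Agent.H38LS
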