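import Pool.Agent.Lib.H38LS.Defs2

set_option autoImplicit false

namespace Pool.Agent.H38LS

/-! Chunk MJ (M). Majorisation: `hh L` is increasing and concave on `[0, L/2]`, 1-Lipschitz.

Proof. `hh L a = a - a²/L`. Let `α₁ ≤ α₂`, `β₁ ≤ β₂` (everything is symmetric). `o = α₁`:
`2 α₁ ≤ min β₁ α₁ + min β₂ α₁ + C ≤ β₁ + α₁ + C`, so `α₁ ≤ β₁ + C`. `o = L/2`:
`α₁ + α₂ ≤ β₁ + β₂ + C`. If `α₂ ≤ β₂ + C` then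
`hh α₁ + hh α₂ ≤ hh β₁ + C + hh β₂ + C` (1-Lipschitz, monotone). If `α₂ > β₂ + C`, put
`e = α₂ - β₂ - C > 0`; `α₁ ≤ β₁ - e + …`: `α₁ ≤ β₁ + β₂ + C - α₂ = β₁ - e`, so
`hh α₁ ≤ hh (β₁ - e)`, and by concavity (`β₁ ≤ β₂ ≤ α₂`)
`hh α₂ - hh (β₂ + C) ≤ hh β₁ - hh (β₁ - e)`. Sum: `≤ hh β₁ + hh (β₂ + C) ≤ hh β₁ + hh β₂ + C`
(if `β₂ + C` is beyond `L/2` the second case does not occur). -/

private theorem mj_lip {L c x y : ℝ} (hL : 0 < L) (hc : 0 ≤ c) (hx : 0 ≤ x ∧ x ≤ L / 2)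
    (hy : 0 ≤ y ∧ y ≤ L / 2) (h : x ≤ y + c) : x * (L - x) ≤ y * (L - y) + c * L := by
  rcases le_total x y with hxy | hxy
  · have h1 : 0 ≤ (y - x) * (L - x - y) := mul_nonneg (by linarith) (by linarith [hx.2, hy.2])
    have h2 : 0 ≤ c * L := mul_nonneg hc hL.le
    nlinarith
  · have h1 : 0 ≤ (c - (x - y)) * L := mul_nonneg (by linarith) hL.le
    have h2 : 0 ≤ (x - y) * (x + y) := mul_nonneg (by linarith) (by linarith [hx.1, hy.1])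
    nlinarith

private theorem mj_ord {L C a₁ a₂ b₁ b₂ : ℝ} (hL : 0 < L) (hC : 0 ≤ C)
    (ha₁ : 0 ≤ a₁ ∧ a₁ ≤ L / 2) (ha₂ : 0 ≤ a₂ ∧ a₂ ≤ L / 2)
    (hb₁ : 0 ≤ b₁ ∧ b₁ ≤ L / 2) (hb₂ : 0 ≤ b₂ ∧ b₂ ≤ L / 2)
    (hb : b₁ ≤ b₂) (h1 : a₁ ≤ b₁ + C) (h2 : a₁ + a₂ ≤ b₁ + b₂ + C) :
    hh L a₁ + hh L a₂ ≤ hh L b₁ + hh L b₂ + 2 * C := by
  have key : a₁ * (L - a₁) + a₂ * (L - a₂) ≤ b₁ * (L - b₁) + b₂ * (L - b₂) + 2 * C * L := by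
    rcases le_or_gt a₂ (b₂ + C) with h3 | h3
    · have h4 := mj_lip hL hC ha₁ hb₁ h1
      have h5 := mj_lip hL hC ha₂ hb₂ h3
      linarith
    · have he : 0 < a₂ - b₂ - C := by linarith
      have h4 := mj_lip (x := a₁) (y := b₁ - (a₂ - b₂ - C)) hL le_rfl ha₁
        ⟨by linarith [ha₁.1], by linarith [hb₁.2]⟩ (by linarith)
      have h5 : 0 ≤ (a₂ - b₂ - C) * (a₂ + b₂ + C - (2 * b₁ - (a₂ - b₂ - C))) :=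
        mul_nonneg he.le (by linarith [hb₁.1])
      have h6 : 0 ≤ C * (2 * b₂ + C) := mul_nonneg hC (by linarith [hb₂.1])
      have h7 : 0 ≤ C * L := mul_nonneg hC hL.le
      nlinarith
  unfold hh
  rw [← add_div, ← add_div, ← sub_nonneg]
  have h8 : (b₁ * (L - b₁) + b₂ * (L - b₂)) / L + 2 * C - (a₁ * (L - a₁) + a₂ * (L - a₂)) / L =
      (b₁ * (L - b₁) + b₂ * (L - b₂) + 2 * C * L - (a₁ * (L - a₁) + a₂ * (L - a₂))) / L := by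
    field_simp
  rw [h8]
  exact div_nonneg (by linarith) hL.le

private theorem mj_min {L C a₁ a₂ b₁ b₂ : ℝ}
    (ha₁ : 0 ≤ a₁ ∧ a₁ ≤ L / 2) (ha₂ : 0 ≤ a₂ ∧ a₂ ≤ L / 2)
    (h : ∀ o : ℝ, 0 ≤ o → o ≤ L / 2 → min a₁ o + min a₂ o ≤ min b₁ o + min b₂ o + C) :
    min a₁ a₂ ≤ b₁ + C := by
  have h1 := h (min a₁ a₂) (le_min ha₁.1 ha₂.1) ((min_le_left _ _).trans ha₁.2)
  rw [min_eq_right (min_le_left a₁ a₂), min_eq_right (min_le_right a₁ a₂)] at h1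
  have h2 := min_le_left b₁ (min a₁ a₂)
  have h3 := min_le_right b₂ (min a₁ a₂)
  linarith

private theorem mj_sum {L C a₁ a₂ b₁ b₂ : ℝ} (hL : 0 ≤ L)
    (ha₁ : 0 ≤ a₁ ∧ a₁ ≤ L / 2) (ha₂ : 0 ≤ a₂ ∧ a₂ ≤ L / 2)
    (h : ∀ o : ℝ, 0 ≤ o → o ≤ L / 2 → min a₁ o + min a₂ o ≤ min b₁ o + min b₂ o + C) :
    a₁ + a₂ ≤ b₁ + b₂ + C := by
  have h1 := h (L / 2) (by linarith) le_rfl
  rw [min_eq_left ha₁.2, min_eq_left ha₂.2] at h1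
  have h2 := min_le_left b₁ (L / 2)
  have h3 := min_le_left b₂ (L / 2)
  linarith

theorem majorize {L C a₁ a₂ b₁ b₂ : ℝ} (hL : 0 < L) (hC : 0 ≤ C)
    (ha₁ : 0 ≤ a₁ ∧ a₁ ≤ L / 2) (ha₂ : 0 ≤ a₂ ∧ a₂ ≤ L / 2)
    (hb₁ : 0 ≤ b₁ ∧ b₁ ≤ L / 2) (hb₂ : 0 ≤ b₂ ∧ b₂ ≤ L / 2)
    (h : ∀ o : ℝ, 0 ≤ o → o ≤ L / 2 → min a₁ o + min a₂ o ≤ min b₁ o + min b₂ o + C) :
    hh L a₁ + hh L a₂ ≤ hh L b₁ + hh L b₂ + 2 * C := by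
  have hs := mj_sum hL.le ha₁ ha₂ h
  have hm := mj_min ha₁ ha₂ h
  have h' : ∀ o : ℝ, 0 ≤ o → o ≤ L / 2 → min a₁ o + min a₂ o ≤ min b₂ o + min b₁ o + C :=
    fun o h1 h2 => by linarith [h o h1 h2]
  have hm' := mj_min ha₁ ha₂ h'
  rcases le_total a₁ a₂ with ha | ha
  · rw [min_eq_left ha] at hm hm'
    rcases le_total b₁ b₂ with hb | hb
    · exact mj_ord hL hC ha₁ ha₂ hb₁ hb₂ hb hm hs
    · have := mj_ord hL hC ha₁ ha₂ hb₂ hb₁ hb hm' (by linarith)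
      linarith
  · rw [min_eq_right ha] at hm hm'
    rcases le_total b₁ b₂ with hb | hb
    · have := mj_ord hL hC ha₂ ha₁ hb₁ hb₂ hb hm (by linarith)
      linarith
    · have := mj_ord hL hC ha₂ ha₁ hb₂ hb₁ hb hm' (by linarith)
      linarith

/-- The smaller of the two numbers. -/
theorem majorize_min {L C a₁ a₂ b₁ b₂ : ℝ}
    (ha₁ : 0 ≤ a₁ ∧ a₁ ≤ L / 2) (ha₂ : 0 ≤ a₂ ∧ a₂ ≤ L / 2)
    (h : ∀ o : ℝ, 0 ≤ o → o ≤ L / 2 → min a₁ o + min a₂ o ≤ min b₁ o + min b₂ o + C) :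
    min a₁ a₂ ≤ b₁ + C := by
  exact mj_min ha₁ ha₂ h

/-- The larger one, at the end `o = L/2`. -/
theorem majorize_sum {L C a₁ a₂ b₁ b₂ : ℝ} (hL : 0 ≤ L)
    (ha₁ : 0 ≤ a₁ ∧ a₁ ≤ L / 2) (ha₂ : 0 ≤ a₂ ∧ a₂ ≤ L / 2)
    (h : ∀ o : ℝ, 0 ≤ o → o ≤ L / 2 → min a₁ o + min a₂ o ≤ min b₁ o + min b₂ o + C) :
    a₁ + a₂ ≤ b₁ + b₂ + C := by
  exact mj_sum hL ha₁ ha₂ h

end Pool.Agent.H38LS
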