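import Pool.Agent.Lib.H38LS.S4
import Pool.Agent.Lib.H38LS.MJ

set_option autoImplicit false

namespace Pool.Agent.H38LS

universe u

variable {K : Type u} [Field K] [NumberField K] [DecidableEq K]

/-! Chunk S9 (M). Archimedean places (any absolute value) with `|t|` small.

Proof. `Spec.D2` for the points (`addSub_xr`, `addSub_nrm`): with `a_i = aP (i R)`,
`o ∈ [0, L/2]`: `min (aP (P+Q)) o + min (aP (P-Q)) o ≤ min |a - b| o + min (fold L (a+b)) o + C`.
`majorize` turns this into `hh (aP (P+Q)) + hh (aP (P-Q)) ≤ hh |a - b| + hh (fold (a+b)) + 2 C`, so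
`sum_sym` applies with `G Q = Gf v L (nrm W (xr Q))`, `κ` the kernel of K1 and `c = C`. -/

/-- The coarse multiset inequality for points. -/
theorem coarse_points (hD2 : Spec.D2.{u}) (v : AbsoluteValue K ℝ) :
    ∃ C t₀ : ℝ, 0 < C ∧ 0 < t₀ ∧ t₀ < 1 ∧ ∀ (W : WeierstrassCurve K) [W.IsElliptic],
      W.c₄ ≠ 0 → W.c₆ ≠ 0 → v (tt W) ≤ t₀ → ∀ L : ℝ, L = -Real.log (v (tt W)) →
      ∀ P Q : W.toAffine.Point, ∀ o : ℝ, 0 ≤ o → o ≤ L / 2 →
        min (aP v L (P + Q)) o + min (aP v L (P - Q)) o ≤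
          min |aP v L P - aP v L Q| o + min (fold L (aP v L P + aP v L Q)) o + C := by
  obtain ⟨C, t₀, ht0, ht1, h⟩ := hD2 K v two_ne_zero three_ne_zero
  refine ⟨max C 1, t₀, lt_of_lt_of_le one_pos (le_max_right _ _), ht0, ht1, ?_⟩
  intro W _ h4 h6 hv L hL P Q o ho1 ho2
  have hΔ : W.Δ ≠ 0 := W.isUnit_Δ.ne_zero
  have htt : tt W ≠ 0 := div_ne_zero hΔ (pow_ne_zero 2 h6)
  have h1 := h (tt W) (v.pos htt) hv L hL _ _ _ _ (addSub_nrm h4 h6 (addSub_xr hΔ P Q)) o ho1 ho2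
  exact h1.trans (add_le_add le_rfl (le_max_left C 1))

theorem sum_arch (hD2 : Spec.D2.{u}) (v : AbsoluteValue K ℝ) :
    ∃ C t₀ : ℝ, 0 < C ∧ 0 < t₀ ∧ t₀ < 1 ∧ ∀ (W : WeierstrassCurve K) [W.IsElliptic],
      W.c₄ ≠ 0 → W.c₆ ≠ 0 → v (tt W) ≤ t₀ → ∀ L : ℝ, L = -Real.log (v (tt W)) →
      ∀ (R : W.toAffine.Point) (N : ℕ),
        -(2 * N + 1) * (L / 12) - C * (2 * N + 1) ^ 2 ≤
          ∑ x ∈ OD N, Gf v L (nrm W (xr ((x.1 - x.2) • R))) := by
  obtain ⟨C, t₀, hC, ht0, ht1, h⟩ := coarse_points hD2 v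
  refine ⟨C, t₀, hC, ht0, ht1, ?_⟩
  intro W _ h4 h6 hv L hL R N
  have hΔ : W.Δ ≠ 0 := W.isUnit_Δ.ne_zero
  have htt : tt W ≠ 0 := div_ne_zero hΔ (pow_ne_zero 2 h6)
  have hLpos : 0 < L := by
    rw [hL]
    have := Real.log_neg (v.pos htt) (lt_of_le_of_lt hv ht1)
    linarith
  have hmem : ∀ P : W.toAffine.Point, 0 ≤ aP v L P ∧ aP v L P ≤ L / 2 :=
    fun P => aP_mem v hLpos.le h4 h6 P
  have hs := sum_sym R (fun Q : W.toAffine.Point => Gf v L (nrm W (xr Q))) N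
    (fun i j => L / 6 - hh L |aP v L (i • R) - aP v L (j • R)| / 2 -
      hh L (fold L (aP v L (i • R) + aP v L (j • R))) / 2) C
    (kernel_pos (Finset.Icc (-(N : ℤ)) N) hLpos (fun i => aP v L (i • R))
      (fun i _ => hmem (i • R))) ?_
  · have h0 : Gf v L (nrm W (xr (0 : W.toAffine.Point))) = L / 12 := by
      have e : al v L (nrm W (xr (0 : W.toAffine.Point))) = 0 := aP_zero v L h4 h6
      unfold Gf hh
      rw [e]
      ring
    simp only [h0] at hs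
    have hsq : (0 : ℝ) ≤ (2 * N + 1) ^ 2 := by positivity
    have h5 : C * (2 * (N : ℝ) + 1) ^ 2 / 2 ≤ C * (2 * N + 1) ^ 2 := by nlinarith
    linarith
  · intro i _ j _
    obtain ⟨ha0, ha1⟩ := hmem (i • R)
    obtain ⟨hb0, hb1⟩ := hmem (j • R)
    have hm := majorize hLpos hC.le (hmem (i • R + j • R)) (hmem (i • R - j • R))
      (b₁ := |aP v L (i • R) - aP v L (j • R)|) (b₂ := fold L (aP v L (i • R) + aP v L (j • R)))
      ⟨abs_nonneg _, abs_le.mpr ⟨by linarith, by linarith⟩⟩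
      ⟨le_min (by linarith) (by linarith), by
        unfold fold
        rcases le_total (aP v L (i • R) + aP v L (j • R)) (L / 2) with h1 | h1
        · exact (min_le_left _ _).trans h1
        · exact (min_le_right _ _).trans (by linarith)⟩
      (h W h4 h6 hv L hL (i • R) (j • R))
    show L / 6 - hh L |aP v L (i • R) - aP v L (j • R)| / 2 -
      hh L (fold L (aP v L (i • R) + aP v L (j • R))) / 2 - C ≤
      Gf v L (nrm W (xr (i • R + j • R))) + Gf v L (nrm W (xr (i • R - j • R)))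
    have e1 : Gf v L (nrm W (xr (i • R + j • R))) = L / 12 - hh L (aP v L (i • R + j • R)) / 2 := rfl
    have e2 : Gf v L (nrm W (xr (i • R - j • R))) = L / 12 - hh L (aP v L (i • R - j • R)) / 2 := rfl
    rw [e1, e2]
    linarith

end Pool.Agent.H38LS
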