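import Pool.Agent.Lib.H38LS.LG
import Pool.Agent.Lib.H38LS.PP1
import Pool.Agent.Lib.H38LS.S9
import Pool.Agent.Lib.H38LS.HJ
import Pool.Agent.Lib.H38LS.PG

set_option autoImplicit false

namespace Pool.Agent.H38LS

open NumberField Height IsDedekindDomain

universe u

variable {K : Type u} [Field K] [NumberField K] [DecidableEq K]

private theorem TL_hh_le {L a : ℝ} (hL : 0 < L) : hh L a ≤ a := by
  unfold hh
  rw [div_le_iff₀ hL]
  nlinarith [mul_self_nonneg a]

omit [NumberField K] [DecidableEq K] in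
private theorem TL_tt_pos (W : WeierstrassCurve K) [W.IsElliptic] (h6 : W.c₆ ≠ 0)
    (v : AbsoluteValue K ℝ) : 0 < v (tt W) := by
  apply v.pos
  unfold tt
  exact div_ne_zero W.isUnit_Δ.ne_zero (pow_ne_zero 2 h6)

omit [NumberField K] [DecidableEq K] in
private theorem TL_c4 (W : WeierstrassCurve K) [W.IsElliptic] : W.c₄ ^ 3 = W.Δ * W.j := by
  rw [WeierstrassCurve.j, ← mul_assoc, ← W.coe_Δ', Units.mul_inv, one_mul]

omit [NumberField K] [DecidableEq K] in
private theorem TL_j (W : WeierstrassCurve K) [W.IsElliptic] :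
    W.j = (tt W)⁻¹ + 1728 := by
  have hD : W.Δ ≠ 0 := W.isUnit_Δ.ne_zero
  have h := TL_c4 W
  have hc := W.c_relation
  have e : W.Δ * W.j = W.Δ * ((tt W)⁻¹ + 1728) := by
    unfold tt
    rw [mul_add, inv_div, mul_div_cancel₀ _ hD]
    linear_combination -hc - h
  exact mul_left_cancel₀ hD e

omit [NumberField K] [DecidableEq K] in
private theorem TL_1728 (v : AbsoluteValue K ℝ) : v 1728 ≤ 1728 := by
  have h := v.apply_nat_le_self 1728
  simpa using h

/-! Chunk TL1 (M). A bounded multiple which is near `0` at all infinite places with large `|j|`.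

Proof. Constants `C, t₀` from `coarse_points` for the finitely many infinite places (maximum,
minimum). `T = {w : c₄, c₆ ≠ 0, |t|_w ≤ t₁}`, where `t₁ ≤ t₀` is so small that `- log t₁ ≥ Λ`. For
`w ∈ T`: `a_w Q = aP w L_w Q ∈ [0, L_w/2]`, and `coarse_points` with `majorize_min`,
`majorize_sum` gives the two hypotheses of `pigeon` (`a± ≤ a₊ + a₋ ≤ |a - b| + fold (a + b) + C ≤
2 max a b + C`). Apply `pigeon` with `H = 12`, `r = #T ≤ #(InfinitePlace K)` (a maximum over
`r`). -/

theorem near_zero (hD2 : Spec.D2.{u}) (t' : ℝ) (ht' : 0 < t') :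
    ∃ (N₀ : ℕ) (t₁ : ℝ), 0 < t₁ ∧ t₁ ≤ t' ∧
      ∀ (W : WeierstrassCurve K) [W.IsElliptic], W.c₄ ≠ 0 → W.c₆ ≠ 0 →
      ∀ P : W.toAffine.Point, ∃ n : ℕ, 1 ≤ n ∧ n ≤ N₀ ∧
        ∀ w : InfinitePlace K, w.val (tt W) ≤ t₁ →
          aP w.val (-Real.log (w.val (tt W))) (n • P) ≤ -Real.log (w.val (tt W)) / 12 := by
  classical
  choose Cw t0 hC ht0 ht01 hcp using
    fun w : InfinitePlace K => coarse_points (K := K) hD2 w.val
  have hC0 : 0 ≤ ∑ w, Cw w := Finset.sum_nonneg fun w _ => (hC w).le
  have hCw : ∀ w, Cw w ≤ ∑ w, Cw w := fun w =>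
    Finset.single_le_sum (fun w _ => (hC w).le) (Finset.mem_univ w)
  generalize (∑ w, Cw w) = C at hC0 hCw
  obtain ⟨wm, hwm⟩ := Finite.exists_min t0
  choose N Λ hpig using fun r : ℕ => pigeon.{u} C hC0 r 12 (by norm_num)
  have hNr : ∀ r ≤ Fintype.card (InfinitePlace K),
      N r ≤ ∑ r ∈ Finset.range (Fintype.card (InfinitePlace K) + 1), N r := fun r hr =>
    Finset.single_le_sum (fun _ _ => Nat.zero_le _) (Finset.mem_range.2 (by omega))
  have hΛr : ∀ r ≤ Fintype.card (InfinitePlace K),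
      Λ r ≤ ∑ r ∈ Finset.range (Fintype.card (InfinitePlace K) + 1), |Λ r| := fun r hr =>
    (le_abs_self _).trans
      (Finset.single_le_sum (f := fun r => |Λ r|) (fun _ _ => abs_nonneg _)
        (Finset.mem_range.2 (by omega)))
  generalize (∑ r ∈ Finset.range (Fintype.card (InfinitePlace K) + 1), N r) = N₀ at hNr
  generalize (∑ r ∈ Finset.range (Fintype.card (InfinitePlace K) + 1), |Λ r|) = Λm at hΛr
  refine ⟨N₀, min (min t' (t0 wm)) (Real.exp (-Λm)), ?_, ?_, ?_⟩
  · exact lt_min (lt_min ht' (ht0 wm)) (Real.exp_pos _)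
  · exact (min_le_left _ _).trans (min_le_left _ _)
  intro W _ h4 h6 P
  set t₁ : ℝ := min (min t' (t0 wm)) (Real.exp (-Λm)) with ht₁
  have ht1a : ∀ w, t₁ ≤ t0 w := fun w =>
    ((min_le_left _ _).trans (min_le_right _ _)).trans (hwm w)
  have ht1b : t₁ ≤ Real.exp (-Λm) := min_le_right _ _
  set T : Finset (InfinitePlace K) :=
    Finset.univ.filter (fun w : InfinitePlace K => w.val (tt W) ≤ t₁) with hT
  set e : Fin T.card ≃ T := T.equivFin.symm with he
  have hTm : ∀ i : Fin T.card, (e i).1.val (tt W) ≤ t₁ := fun i =>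
    (Finset.mem_filter.1 (e i).2).2
  have hr : T.card ≤ Fintype.card (InfinitePlace K) := Finset.card_le_univ T
  have hpos : ∀ w : InfinitePlace K, 0 < w.val (tt W) := fun w => TL_tt_pos W h6 w.val
  have hLΛ : ∀ w : InfinitePlace K, w.val (tt W) ≤ t₁ →
      Λm ≤ -Real.log (w.val (tt W)) := by
    intro w hw
    have := Real.log_le_log (hpos w) (hw.trans ht1b)
    rw [Real.log_exp] at this
    linarith
  have hL0 : ∀ w : InfinitePlace K, w.val (tt W) ≤ t₁ →
      0 < -Real.log (w.val (tt W)) := by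
    intro w hw
    have h1 : w.val (tt W) < 1 := (hw.trans (ht1a w)).trans_lt (ht01 w)
    have := Real.log_neg (hpos w) h1
    linarith
  obtain ⟨n, hn1, hnN, hn⟩ := hpig T.card W.toAffine.Point
    (fun i Q => aP (e i).1.val (-Real.log ((e i).1.val (tt W))) Q)
    (fun i => -Real.log ((e i).1.val (tt W)))
    (fun i => (hΛr _ hr).trans (hLΛ _ (hTm i)))
    (fun i x => by
      have hL := hL0 _ (hTm i)
      have h := aP_mem (e i).1.val hL.le h4 h6 x
      exact ⟨h.1, by linarith [h.2]⟩)
    (fun i x y => by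
      have hL := hL0 _ (hTm i)
      have h := hcp (e i).1 W h4 h6 ((hTm i).trans (ht1a _)) _ rfl x y
      have m1 := aP_mem (e i).1.val hL.le h4 h6 (x + y)
      have m2 := aP_mem (e i).1.val hL.le h4 h6 (x - y)
      have s := majorize_sum hL.le m1 m2 h
      have f : fold (-Real.log ((e i).1.val (tt W)))
          (aP (e i).1.val (-Real.log ((e i).1.val (tt W))) x +
            aP (e i).1.val (-Real.log ((e i).1.val (tt W))) y) ≤
          aP (e i).1.val (-Real.log ((e i).1.val (tt W))) x +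
            aP (e i).1.val (-Real.log ((e i).1.val (tt W))) y := min_le_left _ _
      have hc := hCw (e i).1
      have mx : |aP (e i).1.val (-Real.log ((e i).1.val (tt W))) x -
          aP (e i).1.val (-Real.log ((e i).1.val (tt W))) y| +
          (aP (e i).1.val (-Real.log ((e i).1.val (tt W))) x +
            aP (e i).1.val (-Real.log ((e i).1.val (tt W))) y) =
          2 * max (aP (e i).1.val (-Real.log ((e i).1.val (tt W))) x)
            (aP (e i).1.val (-Real.log ((e i).1.val (tt W))) y) := by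
        rw [max_def]
        split_ifs with hh
        · rw [abs_of_nonpos (by linarith)]; ring
        · rw [abs_of_nonneg (by linarith)]; ring
      have m3 := m2.1
      linarith)
    (fun i x y => by
      have hL := hL0 _ (hTm i)
      have h := hcp (e i).1 W h4 h6 ((hTm i).trans (ht1a _)) _ rfl x y
      have m1 := aP_mem (e i).1.val hL.le h4 h6 (x + y)
      have m2 := aP_mem (e i).1.val hL.le h4 h6 (x - y)
      have s := majorize_min m1 m2 h
      have hc := hCw (e i).1
      linarith)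
    P
  refine ⟨n, hn1, hnN.trans (hNr _ hr), fun w hw => ?_⟩
  have hwT : w ∈ T := Finset.mem_filter.2 ⟨Finset.mem_univ _, hw⟩
  have h := hn (e.symm ⟨w, hwT⟩)
  simp only [Equiv.apply_symm_apply] at h
  exact_mod_cast h

/-! Chunk TL2 (M/L). If the archimedean part of `h(j)` dominates, the height is at least a
constant times it, without any loss.

Proof. `n` from `near_zero` (with `t'` smaller than the `t₀` of `Spec.D1` at all `w`). Lower bounds
for `Q = n P`: at `w` with `|t|_w ≤ t₁`: `Gf - C ≥ L/12 - L/24 - C = L/24 - C`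
(`hh L a ≤ a ≤ L/12`), `L_w ≥ log⁺ |j|_w - log 2 …` (`|j| ≤ |j - 1728| + 1728`, so
`log (max 1 |j|) ≤ L + log 1729`); at the other `w`: `- C` (`Spec.E1`), `log (max 1 |j|) ≤ C`
there; at the primes `prime_single`. Sum: `n² hhat P = hhat (n P) ≥ hinf/24 - C' - logDisc/24 -
∑ Cf p`. With `κ` large and `hinf ≥ κ (logDisc + 1)` this is `≥ hinf/48`. If `c₄ c₆ = 0` or no `w` has
small `|t|_w` then `hinf ≤ C''`, so the hypothesis fails for `κ > C''`. -/

theorem large_inf (hs : Specs.{u}) : ∃ c κ : ℝ, 0 < c ∧ 1 ≤ κ ∧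
    ∀ (W : WeierstrassCurve K) [W.IsElliptic] (P : W.toAffine.Point),
      (∀ n : ℤ, n ≠ 0 → n • P ≠ 0) → κ * (logDisc W + 1) ≤ hinf W → c * hinf W ≤ hhat P := by
  classical
  have h2 : (2 : K) ≠ 0 := two_ne_zero
  have h3 : (3 : K) ≠ 0 := three_ne_zero
  choose C1 t0 ht0 ht01 hD1 using fun w : InfinitePlace K => hs.D1 K w.val h2 h3
  obtain ⟨wm, hwm⟩ := Finite.exists_min t0
  obtain ⟨N₀, t₁, ht₁, ht₁', hnz⟩ := near_zero (K := K) hs.D2 (t0 wm) (ht0 wm)
  set J : ℝ := 1728 + 1 / t₁ with hJ
  have hJ1 : 1728 ≤ J := by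
    have : 0 ≤ 1 / t₁ := by positivity
    linarith
  choose C2 hE1 using fun w : InfinitePlace K => hs.E1 K w.val h2 h3 J
  obtain ⟨Cf, hCf⟩ := exists_Cf (K := K) hs
  -- the constants
  have hlogJ : 0 ≤ Real.log J := Real.log_nonneg (by linarith)
  have hl1729 : 0 ≤ Real.log 1729 := Real.log_nonneg (by norm_num)
  set C3 : InfinitePlace K → ℝ :=
    fun w => Real.log 1729 / 24 + |C1 w| + Real.log J / 24 + |C2 w| with hC3
  have hC30 : ∀ w, 0 ≤ C3 w := fun w => by positivity
  set C4 : ℝ := ∑ w : InfinitePlace K, (w.mult : ℝ) * C3 w with hC4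
  have hC40 : 0 ≤ C4 := Finset.sum_nonneg fun w _ => mul_nonneg (Nat.cast_nonneg _) (hC30 w)
  set S6 : Finset (HeightOneSpectrum (𝓞 K)) := (av_six_finite (K := K)).toFinset with hS6
  set C5 : ℝ := ∑ p ∈ S6, Cf p with hC5
  have hC50 : 0 ≤ C5 := Finset.sum_nonneg fun p _ => hCf.1 p
  set C6 : ℝ := ∑ w : InfinitePlace K, (w.mult : ℝ) * Real.log J with hC6
  have hC60 : 0 ≤ C6 := Finset.sum_nonneg fun w _ => mul_nonneg (Nat.cast_nonneg _) hlogJ
  refine ⟨1 / (48 * ((N₀ : ℝ) + 1) ^ 2), 4 + 96 * (C4 + C5) + C6, by positivity, by linarith, ?_⟩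
  intro W _ P hP hκ
  have hD : W.Δ ≠ 0 := W.isUnit_Δ.ne_zero
  have hdisc : 0 ≤ logDisc W := by
    unfold logDisc
    exact finsum_nonneg fun p =>
      mul_nonneg (Nat.cast_nonneg _) (Real.log_nonneg (one_lt_Nm p).le)
  have hκ' : 4 + 96 * (C4 + C5) + C6 ≤ hinf W := by
    refine le_trans ?_ hκ
    have : 0 ≤ (4 + 96 * (C4 + C5) + C6) * logDisc W := mul_nonneg (by linarith) hdisc
    linarith
  have hκ4 : 4 * logDisc W ≤ hinf W := by
    refine le_trans ?_ hκ
    have h0 : 0 ≤ (96 * (C4 + C5) + C6) * logDisc W := mul_nonneg (by linarith) hdisc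
    have h1 : 0 ≤ 4 + 96 * (C4 + C5) + C6 := by linarith
    linarith
  -- places with small `|j|`
  have hjJ : ∀ w : InfinitePlace K, (W.c₄ = 0 ∨ W.c₆ = 0 ∨ ¬ w.val (tt W) ≤ t₁) →
      w.val W.j ≤ J := by
    intro w h
    by_cases h6 : W.c₆ = 0
    · have e : W.j = 1728 := by
        have h1 := TL_c4 W
        have h2 := W.c_relation
        rw [h6] at h2
        have e : W.Δ * W.j = W.Δ * 1728 := by linear_combination -h1 - h2
        exact mul_left_cancel₀ hD e
      rw [e]
      exact (TL_1728 w.val).trans hJ1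
    by_cases h4 : W.c₄ = 0
    · have e : W.j = 0 := by
        have h1 := TL_c4 W
        rw [h4] at h1
        have : W.Δ * W.j = 0 := by rw [← h1]; ring
        rcases mul_eq_zero.1 this with h | h
        · exact absurd h hD
        · exact h
      rw [e, map_zero]
      linarith
    have ht : t₁ < w.val (tt W) := by
      rcases h with h | h | h
      · exact absurd h h4
      · exact absurd h h6
      · exact not_le.1 h
    rw [TL_j W]
    refine (w.val.add_le _ _).trans ?_
    rw [map_inv₀, hJ, add_comm, one_div]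
    exact add_le_add (TL_1728 w.val) (inv_anti₀ ht₁ ht.le)
  have hlogmax : ∀ w : InfinitePlace K, w.val W.j ≤ J →
      Real.log (max 1 (w W.j)) ≤ Real.log J := by
    intro w h
    apply Real.log_le_log (lt_of_lt_of_le one_pos (le_max_left _ _))
    exact max_le (by linarith) h
  -- `c₄ c₆ ≠ 0`
  have hne : W.c₄ ≠ 0 ∧ W.c₆ ≠ 0 := by
    by_contra hcon
    have hcon' : W.c₄ = 0 ∨ W.c₆ = 0 := by tauto
    have h1 : hinf W ≤ C6 := by
      unfold hinf
      rw [hC6]
      apply Finset.sum_le_sum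
      intro w _
      apply mul_le_mul_of_nonneg_left _ (Nat.cast_nonneg _)
      apply hlogmax w
      apply hjJ w
      tauto
    linarith
  obtain ⟨h4, h6⟩ := hne
  obtain ⟨n, hn1, hnN, hn⟩ := hnz W h4 h6 P
  have hQ : n • P ≠ 0 := by
    have := hP (n : ℤ) (by omega)
    rwa [natCast_zsmul] at this
  obtain ⟨hx, -⟩ := xr_affine hQ
  -- the set of primes
  set S : Finset (HeightOneSpectrum (𝓞 K)) := (good_finite hD).toFinset ∪ S6 with hS
  have hSg : ∀ p ∉ S, IntegralAt (av p) W ∧ av p W.Δ = 1 := by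
    intro p hp
    by_contra hcon
    apply hp
    rw [hS, Finset.mem_union]
    left
    rw [Set.Finite.mem_toFinset]
    exact hcon
  have hSd : ∀ p ∉ S, dmin W p = 0 := fun p hp => dmin_eq_zero (hSg p hp).1 (hSg p hp).2
  have hlow := hhat_lower hQ S hSg
    (fun p => -((dmin W p : ℝ) * Real.log (Nm p) / 24) - Cf p)
    (fun p _ => prime_single hs hCf W p hQ)
    (fun w => Real.log (max 1 (w W.j)) / 24 - C3 w) (by
      intro w
      by_cases hw : w.val (tt W) ≤ t₁
      · have hpos := TL_tt_pos W h6 w.val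
        have hlt : w.val (tt W) < 1 := (hw.trans (ht₁'.trans (hwm w))).trans_lt (ht01 w)
        have hL0 : 0 < -Real.log (w.val (tt W)) := by
          have := Real.log_neg hpos hlt
          linarith
        have hd := hD1 w (tt W) hpos (hw.trans (ht₁'.trans (hwm w)))
          (nrm W (xr (n • P))).1
        have hx2 : nrm W (xr (n • P)) = ((nrm W (xr (n • P))).1, 1) := by
          rw [hx]
          rfl
        rw [← hx2] at hd
        have hd2 := locLB_nrm w.val h4 h6 hD (xr_ne_zero (n • P)) hd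
        refine hd2.mono ?_
        have ha := hn w hw
        unfold aP at ha
        have hhle := TL_hh_le (a := al w.val (-Real.log (w.val (tt W)))
          (nrm W (xr (n • P)))) hL0
        have hjl : Real.log (max 1 (w W.j)) ≤ -Real.log (w.val (tt W)) + Real.log 1729 := by
          rw [← Real.log_inv, ← Real.log_mul (inv_ne_zero hpos.ne') (by norm_num)]
          apply Real.log_le_log (lt_of_lt_of_le one_pos (le_max_left _ _))
          have h1 : 1 ≤ (w.val (tt W))⁻¹ := (one_le_inv₀ hpos).2 hlt.le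
          apply max_le
          · linarith
          · have e : w W.j = w.val W.j := rfl
            rw [e, TL_j W]
            refine (w.val.add_le _ _).trans ?_
            rw [map_inv₀]
            have := TL_1728 w.val
            nlinarith
        have e1 := le_abs_self (C1 w)
        have e2 := abs_nonneg (C2 w)
        simp only [hC3]
        linarith
      · have hJw := hjJ w (Or.inr (Or.inr hw))
        have hd := hE1 w W hD (c4_le hJw) (xr (n • P)).1
        rw [← hx] at hd
        refine hd.mono ?_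
        have hl := hlogmax w hJw
        have e1 := abs_nonneg (C1 w)
        have e2 := le_abs_self (C2 w)
        simp only [hC3]
        linarith)
  -- evaluation of the two sums
  have hsum1 : ∑ w : InfinitePlace K, (w.mult : ℝ) * (Real.log (max 1 (w W.j)) / 24 - C3 w) =
      hinf W / 24 - C4 := by
    unfold hinf
    rw [hC4, Finset.sum_div, ← Finset.sum_sub_distrib]
    apply Finset.sum_congr rfl
    intro w _
    ring
  have hsumC : ∑ p ∈ S, Cf p = C5 := by
    rw [hC5]
    symm
    apply Finset.sum_subset (hS ▸ Finset.subset_union_right)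
    intro p _ hp
    apply hCf.2.1 p
    by_contra hcon
    apply hp
    rw [hS6, Set.Finite.mem_toFinset]
    exact hcon
  have hsum2 : ∑ p ∈ S, (-((dmin W p : ℝ) * Real.log (Nm p) / 24) - Cf p) =
      -(logDisc W / 24) - C5 := by
    rw [logDisc_eq_sum hSd, Finset.sum_sub_distrib, hsumC, Finset.sum_neg_distrib,
      Finset.sum_div]
  rw [hsum1, hsum2] at hlow
  have hz := hhat_zsmul W (n : ℤ) P
  rw [natCast_zsmul] at hz
  rw [hz] at hlow
  have hh0 := hhat_nonneg W P
  have hinf0 := hinf_nonneg W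
  have hmain : hinf W / 48 ≤ (n : ℝ) ^ 2 * hhat P := by
    push_cast at hlow
    linarith
  have hnle : (n : ℝ) ^ 2 ≤ ((N₀ : ℝ) + 1) ^ 2 := by
    have : (n : ℝ) ≤ N₀ := by exact_mod_cast hnN
    have h0 : (0 : ℝ) ≤ n := Nat.cast_nonneg _
    nlinarith
  have hpos2 : (0 : ℝ) < ((N₀ : ℝ) + 1) ^ 2 := by positivity
  have hfin : hinf W / 48 ≤ ((N₀ : ℝ) + 1) ^ 2 * hhat P :=
    hmain.trans (mul_le_mul_of_nonneg_right hnle hh0)
  rw [one_div, mul_inv, mul_assoc, inv_mul_le_iff₀ (by norm_num : (0 : ℝ) < 48),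
    inv_mul_le_iff₀ hpos2]
  linarith

end Pool.Agent.H38LS
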