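import Pool.Agent.Lib.H38LS.MI2
import Pool.Agent.Lib.H38LS.FN1
import Pool.Agent.Lib.H38LS.TL

set_option autoImplicit false

namespace Pool.Agent.H38LS

open NumberField Height IsDedekindDomain

universe u

variable {K : Type u} [Field K] [NumberField K] [DecidableEq K]

/-! Chunk FN2 (M). The theorem with `Ts`.

Proof. `c₁, B₁` from `choose_N` for the constant of `main_ineq` (`H = logDisc + hinf ≥ T = Ts W s`
by `Ts_le`, `hinf_nonneg`), `c₂, κ` from `large_inf`. If `κ (logDisc + 1) ≤ hinf`: `hhat ≥ c₂ hinf`,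
`HH ≤ logDisc + hinf ≤ 2 hinf` (`logHeight_j_le`), and `(Ts/logDisc)³/s² ≤ 1`. Otherwise
`hinf < κ (logDisc + 1) ≤ 2 κ logDisc` (`logDisc ≥ Ts ≥ B ≥ 1`), so `H, HH ≤ (1 + 2 κ) logDisc` and
`hhat ≥ c₁ Ts³/(s² H²) ≥ c₁ (1 + 2 κ)⁻³ HH Ts³/(s² logDisc³)`. -/

theorem main_Ts (hs : Specs.{u}) : ∃ c B : ℝ, 0 < c ∧ 1 ≤ B ∧
    ∀ (W : WeierstrassCurve K) [W.IsElliptic] (P : W.toAffine.Point),
      (∀ n : ℤ, n ≠ 0 → n • P ≠ 0) → ∀ s : ℕ, 1 ≤ s → B ≤ Ts W s →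
        c * (Ts W s / logDisc W) ^ 3 / (s : ℝ) ^ 2 * HH W ≤ hhat P := by
  obtain ⟨C, hC, hmain⟩ := main_ineq (K := K) hs
  obtain ⟨c₁, B₁, hc₁, hB₁, hch⟩ := choose_N hC
  obtain ⟨c₂, κ, hc₂, hκ, hlarge⟩ := large_inf (K := K) hs
  have hκ0 : 0 < 1 + 2 * κ := by linarith
  have hc0 : 0 < min (c₂ / 2) (c₁ / (1 + 2 * κ) ^ 3) := lt_min (by positivity) (by positivity)
  refine ⟨min (c₂ / 2) (c₁ / (1 + 2 * κ) ^ 3), B₁, hc0, hB₁, ?_⟩
  intro W _ P hP s hs1 hBT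
  have hΔ : W.Δ ≠ 0 := W.isUnit_Δ.ne_zero
  obtain ⟨hTR, hRD⟩ := Ts_le hΔ s
  have hinf0 := hinf_nonneg W
  have hj := logHeight_j_le W
  set c : ℝ := min (c₂ / 2) (c₁ / (1 + 2 * κ) ^ 3) with hc
  set T : ℝ := Ts W s with hT
  set D : ℝ := logDisc W with hD
  have hs1' : (1 : ℝ) ≤ s := by exact_mod_cast hs1
  have hT1 : 1 ≤ T := hB₁.trans hBT
  have hTD : T ≤ D := hTR.trans hRD
  have hD1 : 1 ≤ D := hT1.trans hTD
  have hD0 : 0 < D := by linarith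
  have hHH : HH W ≤ D + hinf W := max_le (by linarith) hj
  have hHH0 : 0 ≤ HH W := hD0.le.trans (le_max_left _ _)
  rcases le_or_gt (κ * (D + 1)) (hinf W) with hcase | hcase
  · have h1 := hlarge W P hP hcase
    have hDi : D ≤ hinf W := by nlinarith
    have h2 : T / D ≤ 1 := (div_le_one hD0).2 hTD
    have h3 : (T / D) ^ 3 ≤ 1 := pow_le_one₀ (by positivity) h2
    have h4 : c * (T / D) ^ 3 / (s : ℝ) ^ 2 ≤ c₂ / 2 := by
      rw [div_le_iff₀ (by positivity)]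
      have h5 : (1 : ℝ) ≤ (s : ℝ) ^ 2 := one_le_pow₀ hs1'
      have h6 : c ≤ c₂ / 2 := min_le_left _ _
      calc c * (T / D) ^ 3 ≤ c * 1 := mul_le_mul_of_nonneg_left h3 hc0.le
        _ ≤ c₂ / 2 * 1 := by linarith
        _ ≤ c₂ / 2 * (s : ℝ) ^ 2 := mul_le_mul_of_nonneg_left h5 (by positivity)
    calc c * (T / D) ^ 3 / (s : ℝ) ^ 2 * HH W ≤ c₂ / 2 * (2 * hinf W) :=
          mul_le_mul h4 (by linarith) hHH0 (by positivity)
      _ = c₂ * hinf W := by ring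
      _ ≤ hhat P := h1
  · have hH : D + hinf W ≤ (1 + 2 * κ) * D := by nlinarith
    have hH0 : 0 < D + hinf W := by linarith
    have h1 := hch T (D + hinf W) (hhat P) s hBT (by linarith) hs1' (fun N hN => by
      have := hmain W P hP s N hs1 hN
      exact this)
    refine le_trans ?_ h1
    have h2 : c * (1 + 2 * κ) ^ 3 ≤ c₁ := by
      have h3 : c ≤ c₁ / (1 + 2 * κ) ^ 3 := min_le_right _ _
      rwa [le_div_iff₀ (by positivity)] at h3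
    have h4 : c * HH W * (D + hinf W) ^ 2 ≤ c₁ * D ^ 3 := by
      calc c * HH W * (D + hinf W) ^ 2 ≤ c * ((1 + 2 * κ) * D) * ((1 + 2 * κ) * D) ^ 2 := by
            have h5 : HH W ≤ (1 + 2 * κ) * D := hHH.trans hH
            gcongr
        _ = c * (1 + 2 * κ) ^ 3 * D ^ 3 := by ring
        _ ≤ c₁ * D ^ 3 := mul_le_mul_of_nonneg_right h2 (by positivity)
    rw [div_pow, le_div_iff₀ (by positivity)]
    have e : c * (T ^ 3 / D ^ 3) / (s : ℝ) ^ 2 * HH W * ((s : ℝ) ^ 2 * (D + hinf W) ^ 2) =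
        (c * HH W * (D + hinf W) ^ 2) * (T ^ 3 / D ^ 3) := by
      field_simp
    rw [e]
    calc (c * HH W * (D + hinf W) ^ 2) * (T ^ 3 / D ^ 3) ≤ (c₁ * D ^ 3) * (T ^ 3 / D ^ 3) :=
          mul_le_mul_of_nonneg_right h4 (by positivity)
      _ = c₁ * T ^ 3 := by field_simp

/-! Chunk FN3 (S/M). The theorem with the Szpiro ratio `σ = logDisc/logRad ≥ 1`.

Proof. `s = ⌈2 σ⌉₊ ≤ 3 σ`, `Ts ≥ logRad - logDisc/s ≥ logRad/2` (`Ts_ge`), so
`Ts/logDisc ≥ 1/(2 σ)` and the bound of `main_Ts` is `≥ c (1/(2 σ))³/(9 σ²) HH = (c/72) σ⁻⁵ HH`,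
if `logRad ≥ 2 B`. -/

theorem main_sigma (hs : Specs.{u}) : ∃ c B : ℝ, 0 < c ∧ 1 ≤ B ∧
    ∀ (W : WeierstrassCurve K) [W.IsElliptic] (P : W.toAffine.Point),
      (∀ n : ℤ, n ≠ 0 → n • P ≠ 0) → B ≤ logRad W →
        c * (logRad W / logDisc W) ^ 5 * HH W ≤ hhat P := by
  obtain ⟨c, B, hc, hB, hmain⟩ := main_Ts (K := K) hs
  refine ⟨c / 72, 2 * B, by positivity, by linarith, ?_⟩
  intro W _ P hP hBR
  have hΔ : W.Δ ≠ 0 := W.isUnit_Δ.ne_zero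
  set R : ℝ := logRad W with hR
  set D : ℝ := logDisc W with hD
  have hRD : R ≤ D := (Ts_le hΔ 1).2
  have hR0 : 0 < R := by linarith
  have hD0 : 0 < D := by linarith
  have hσ : 1 ≤ D / R := (one_le_div hR0).2 hRD
  set s : ℕ := ⌈2 * (D / R)⌉₊ with hsdef
  have hs2 : 2 * (D / R) ≤ s := Nat.le_ceil _
  have hs3 : (s : ℝ) ≤ 3 * (D / R) := by
    have h1 := Nat.ceil_lt_add_one (show (0 : ℝ) ≤ 2 * (D / R) by positivity)
    rw [← hsdef] at h1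
    linarith
  have hspos : (0 : ℝ) < s := by linarith
  have hs1 : 1 ≤ s := by
    have : (0 : ℝ) < s := hspos
    exact_mod_cast this
  have hTge := Ts_ge hΔ hs1
  have hDs : D / s ≤ R / 2 := by
    rw [div_le_div_iff₀ hspos (by norm_num)]
    have h1 : 2 * (D / R) * R = 2 * D := by field_simp
    have h2 := mul_le_mul_of_nonneg_right hs2 hR0.le
    linarith
  have hT : R / 2 ≤ Ts W s := by linarith
  have h1 := hmain W P hP s hs1 (by linarith)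
  refine le_trans ?_ h1
  have hHH0 : 0 ≤ HH W := hD0.le.trans (le_max_left _ _)
  apply mul_le_mul_of_nonneg_right _ hHH0
  rw [le_div_iff₀ (by positivity)]
  have h2 : (R / 2 / D) ^ 3 ≤ (Ts W s / D) ^ 3 := by
    have h3 : R / 2 / D ≤ Ts W s / D := div_le_div_of_nonneg_right hT hD0.le
    exact pow_le_pow_left₀ (by positivity) h3 3
  have h3 : (s : ℝ) ^ 2 ≤ (3 * (D / R)) ^ 2 := pow_le_pow_left₀ hspos.le hs3 2
  calc c / 72 * (R / D) ^ 5 * (s : ℝ) ^ 2 ≤ c / 72 * (R / D) ^ 5 * (3 * (D / R)) ^ 2 :=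
        mul_le_mul_of_nonneg_left h3 (by positivity)
    _ = c * (R / 2 / D) ^ 3 := by
      field_simp
      ring
    _ ≤ c * (Ts W s / D) ^ 3 := mul_le_mul_of_nonneg_left h2 hc.le

end Pool.Agent.H38LS
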