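import Pool.Agent.Lib.H38LS.P2

set_option autoImplicit false

namespace Pool.Agent.H38LS

open NumberField Height

variable {K : Type*} [Field K] [NumberField K] [DecidableEq K]

/-! Chunk H1 (M). The approximate parallelogram law for the naive height.

Proof. Mathlib: `Height.abs_logHeight_sym2_sub_le` (height of `![a c, a d + b c, b d]` against
`logHeight ![a, b] + logHeight ![c, d]`, see `Mathlib.NumberTheory.Height.MvPolynomial`),
`WeierstrassCurve.abs_logHeight_addSubMap_sub_two_mul_logHeight_le`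
(`Mathlib.NumberTheory.Height.EllipticCurve`), invariance of `logHeight` under scaling
(`Height.logHeight_smul_eq_logHeight`), and chunk P1: with `s = sym (xr P) (xr Q)`,
`logHeight (sym (xr (P+Q)) (xr (P-Q))) = logHeight (asm W s)` and
`|logHeight (asm W s) - 2 logHeight s| ≤ C`, `|logHeight s - xh P - xh Q| ≤ C'`. (`asm W s` written
as a vector is `fun i => (addSubMap W i).eval ![s.1, s.2.1, s.2.2]`.) -/

omit [NumberField K] [DecidableEq K] in
private theorem H1_vec_ne {p : K × K} (hp : p ≠ 0) : (![p.1, p.2] : Fin 2 → K) ≠ 0 := by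
  intro h
  refine hp (Prod.ext ?_ ?_)
  · simpa using congrFun h 0
  · simpa using congrFun h 1

omit [NumberField K] [DecidableEq K] in
private theorem H1_asm (W : WeierstrassCurve K) (s : K × K × K) :
    (fun i => (WeierstrassCurve.addSubMap W i).eval ![s.1, s.2.1, s.2.2]) =
      ![(asm W s).1, (asm W s).2.1, (asm W s).2.2] := by
  funext i
  fin_cases i <;> simp [WeierstrassCurve.addSubMap, asm]

theorem xh_par (W : WeierstrassCurve K) [W.IsElliptic] :
    ∃ C : ℝ, ∀ P Q : W.toAffine.Point,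
      |xh (P + Q) + xh (P - Q) - 2 * xh P - 2 * xh Q| ≤ C := by
  obtain ⟨C1, h1⟩ := WeierstrassCurve.abs_logHeight_addSubMap_sub_two_mul_logHeight_le W
  obtain ⟨C2, h2⟩ := abs_logHeight_sym2_sub_le K
  have hW : W.Δ ≠ 0 := W.isUnit_Δ.ne_zero
  refine ⟨C2 + C1 + 2 * C2, fun P Q => ?_⟩
  obtain ⟨hp, hq, hr1, hr2, l, hl, hs⟩ := addSub_xr hW P Q
  have e1 := h2 (H1_vec_ne hp) (H1_vec_ne hq)
  have e2 := h2 (H1_vec_ne hr1) (H1_vec_ne hr2)
  have e3 := h1 ![(sym (xr P) (xr Q)).1, (sym (xr P) (xr Q)).2.1, (sym (xr P) (xr Q)).2.2]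
  rw [H1_asm] at e3
  have e4 : logHeight ![(asm W (sym (xr P) (xr Q))).1, (asm W (sym (xr P) (xr Q))).2.1,
      (asm W (sym (xr P) (xr Q))).2.2] =
      logHeight ![(xr (P + Q)).1 * (xr (P - Q)).1,
        (xr (P + Q)).1 * (xr (P - Q)).2 + (xr (P + Q)).2 * (xr (P - Q)).1,
        (xr (P + Q)).2 * (xr (P - Q)).2] := by
    rw [← logHeight_smul_eq_logHeight _ hl]
    congr 1
    have f1 := congrArg Prod.fst hs
    have f2 := congrArg (fun z => z.2.1) hs
    have f3 := congrArg (fun z => z.2.2) hs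
    simp only [sym, Prod.smul_fst, Prod.smul_snd] at f1 f2 f3
    funext i
    fin_cases i
    · simpa [sym] using f1.symm
    · have : (xr (P + Q)).1 * (xr (P - Q)).2 + (xr (P + Q)).2 * (xr (P - Q)).1 =
          (xr (P + Q)).1 * (xr (P - Q)).2 + (xr (P - Q)).1 * (xr (P + Q)).2 := by ring
      simpa [sym, this] using f2.symm
    · simpa [sym] using f3.symm
  have e5 : ![(sym (xr P) (xr Q)).1, (sym (xr P) (xr Q)).2.1, (sym (xr P) (xr Q)).2.2] =
      ![(xr P).1 * (xr Q).1, (xr P).1 * (xr Q).2 + (xr P).2 * (xr Q).1,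
        (xr P).2 * (xr Q).2] := by
    funext i
    fin_cases i
    · simp [sym]
    · simp [sym, mul_comm]
    · simp [sym]
  rw [e4, e5] at e3
  have g1 : xh P = logHeight ![(xr P).1, (xr P).2] := rfl
  have g2 : xh Q = logHeight ![(xr Q).1, (xr Q).2] := rfl
  have g3 : xh (P + Q) = logHeight ![(xr (P + Q)).1, (xr (P + Q)).2] := rfl
  have g4 : xh (P - Q) = logHeight ![(xr (P - Q)).1, (xr (P - Q)).2] := rfl
  rw [← g1, ← g2] at e1
  rw [← g3, ← g4] at e2
  obtain ⟨a1, a2⟩ := abs_le.mp e1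
  obtain ⟨b1, b2⟩ := abs_le.mp e2
  obtain ⟨c1, c2⟩ := abs_le.mp e3
  rw [abs_le]
  constructor <;> linarith

theorem xh_nonneg {W : WeierstrassCurve K} (P : W.toAffine.Point) : 0 ≤ xh P :=
  logHeight_nonneg _

theorem xh_zero {W : WeierstrassCurve K} : xh (0 : W.toAffine.Point) = 0 := by
  show logHeight ![(1 : K), 0] = 0
  rw [logHeight_swap]
  rw [logHeight_cons_zero]
  exact logHeight_eq_zero_of_subsingleton _

end Pool.Agent.H38LS
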