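import Pool.Agent.Lib.H38LS.H1

set_option autoImplicit false

namespace Pool.Agent.H38LS

open NumberField Height Filter Topology

variable {K : Type*} [Field K] [NumberField K] [DecidableEq K]

/-! Chunk H2 (M). The canonical height.

Proof. `a_n = xh (2^n P)/(2 * 4^n)`. `xh_par` with `Q = P` (and `xh 0 = 0`) gives
`|xh (2 P) - 4 xh P| ≤ C`, so `|a_{n+1} - a_n| ≤ C/(8 * 4^n)`: Cauchy
(`cauchySeq_of_le_geometric` with ratio `1/4`), `Tendsto.limUnder_eq`; bound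
`dist_le_of_le_geometric_of_tendsto₀` for `hhat_sub`. Parallelogram: divide `xh_par` for
`2^n P, 2^n Q` by `2 * 4^n` and let `n → ∞` (`smul_add`, `smul_sub`). `hhat_zsmul`: from
`hhat 0 = 0`, `hhat (P + Q) + hhat (P - Q) = 2 hhat P + 2 hhat Q` by induction
(`hhat ((n+1) P) = 2 hhat (n P) + 2 hhat P - hhat ((n-1) P)`), `hhat (-P) = hhat P`. -/

private theorem H2_step (W : WeierstrassCurve K) [W.IsElliptic] :
    ∃ C : ℝ, ∀ P : W.toAffine.Point, |xh (P + P) - 4 * xh P| ≤ C := by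
  obtain ⟨C, hC⟩ := xh_par W
  refine ⟨C, fun P => ?_⟩
  have h := hC P P
  rw [sub_self, xh_zero] at h
  have e : xh (P + P) + 0 - 2 * xh P - 2 * xh P = xh (P + P) - 4 * xh P := by ring
  rwa [e] at h

private theorem H2_cauchy (W : WeierstrassCurve K) [W.IsElliptic] (P : W.toAffine.Point) :
    CauchySeq (fun n : ℕ => xh ((2 ^ n : ℕ) • P) / (2 * 4 ^ n)) := by
  obtain ⟨C, hC⟩ := H2_step W
  refine cauchySeq_of_le_geometric (1 / 4) (C / 8) (by norm_num) (fun n => ?_)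
  have h := hC ((2 ^ n : ℕ) • P)
  have e2 : (2 ^ (n + 1) : ℕ) • P = (2 ^ n : ℕ) • P + (2 ^ n : ℕ) • P := by
    rw [pow_succ, mul_two, add_nsmul]
  have h4 : (0 : ℝ) < 4 ^ n := by positivity
  rw [Real.dist_eq, abs_sub_comm, e2]
  have e3 : xh ((2 ^ n : ℕ) • P + (2 ^ n : ℕ) • P) / (2 * 4 ^ (n + 1)) -
      xh ((2 ^ n : ℕ) • P) / (2 * 4 ^ n) =
      (xh ((2 ^ n : ℕ) • P + (2 ^ n : ℕ) • P) - 4 * xh ((2 ^ n : ℕ) • P)) / (8 * 4 ^ n) := by
    rw [pow_succ]
    field_simp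
    ring
  rw [e3, abs_div, abs_of_pos (by positivity : (0 : ℝ) < 8 * 4 ^ n)]
  have e4 : C / 8 * (1 / 4) ^ n = C / (8 * 4 ^ n) := by
    rw [one_div, inv_pow]
    field_simp
  rw [e4]
  exact div_le_div_of_nonneg_right h (by positivity)

theorem hhat_tendsto (W : WeierstrassCurve K) [W.IsElliptic] (P : W.toAffine.Point) :
    Tendsto (fun n : ℕ => xh ((2 ^ n : ℕ) • P) / (2 * 4 ^ n)) atTop (𝓝 (hhat P)) :=
  (H2_cauchy W P).tendsto_limUnder

theorem hhat_par (W : WeierstrassCurve K) [W.IsElliptic] (P Q : W.toAffine.Point) :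
    hhat (P + Q) + hhat (P - Q) = 2 * hhat P + 2 * hhat Q := by
  obtain ⟨C, hC⟩ := xh_par W
  have h1 := (((hhat_tendsto W (P + Q)).add (hhat_tendsto W (P - Q))).sub
    ((hhat_tendsto W P).const_mul 2)).sub ((hhat_tendsto W Q).const_mul 2)
  have h2 : Tendsto (fun n : ℕ => C / 2 * (1 / 4 : ℝ) ^ n) atTop (𝓝 0) := by
    have := (tendsto_pow_atTop_nhds_zero_of_lt_one (r := (1 / 4 : ℝ)) (by norm_num)
      (by norm_num)).const_mul (C / 2)
    simpa using this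
  have h3 := squeeze_zero_norm (f := fun n : ℕ =>
    xh ((2 ^ n : ℕ) • (P + Q)) / (2 * 4 ^ n) + xh ((2 ^ n : ℕ) • (P - Q)) / (2 * 4 ^ n) -
      2 * (xh ((2 ^ n : ℕ) • P) / (2 * 4 ^ n)) - 2 * (xh ((2 ^ n : ℕ) • Q) / (2 * 4 ^ n)))
    (fun n => ?_) h2
  · have h4 := tendsto_nhds_unique h1 h3
    linarith
  · have h := hC ((2 ^ n : ℕ) • P) ((2 ^ n : ℕ) • Q)
    rw [← smul_add, ← smul_sub] at h
    have e : xh ((2 ^ n : ℕ) • (P + Q)) / (2 * 4 ^ n) + xh ((2 ^ n : ℕ) • (P - Q)) / (2 * 4 ^ n) -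
      2 * (xh ((2 ^ n : ℕ) • P) / (2 * 4 ^ n)) - 2 * (xh ((2 ^ n : ℕ) • Q) / (2 * 4 ^ n)) =
      (xh ((2 ^ n : ℕ) • (P + Q)) + xh ((2 ^ n : ℕ) • (P - Q)) -
        2 * xh ((2 ^ n : ℕ) • P) - 2 * xh ((2 ^ n : ℕ) • Q)) / (2 * 4 ^ n) := by
      ring
    rw [e, Real.norm_eq_abs, abs_div, abs_of_pos (by positivity : (0 : ℝ) < 2 * 4 ^ n)]
    have e4 : C / 2 * (1 / 4) ^ n = C / (2 * 4 ^ n) := by
      rw [one_div, inv_pow]
      field_simp
    rw [e4]
    exact div_le_div_of_nonneg_right h (by positivity)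

theorem hhat_nonneg (W : WeierstrassCurve K) [W.IsElliptic] (P : W.toAffine.Point) :
    0 ≤ hhat P :=
  ge_of_tendsto' (hhat_tendsto W P) (fun n => div_nonneg (xh_nonneg _) (by positivity))

private theorem H2_zero (W : WeierstrassCurve K) [W.IsElliptic] :
    hhat (0 : W.toAffine.Point) = 0 := by
  have h := hhat_par W 0 0
  rw [add_zero, sub_zero] at h
  linarith

private theorem H2_neg (W : WeierstrassCurve K) [W.IsElliptic] (P : W.toAffine.Point) :
    hhat (-P) = hhat P := by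
  have h := hhat_par W 0 P
  rw [zero_add, zero_sub, H2_zero W] at h
  linarith

private theorem H2_nsmul (W : WeierstrassCurve K) [W.IsElliptic] (P : W.toAffine.Point) (n : ℕ) :
    hhat (n • P) = (n : ℝ) ^ 2 * hhat P ∧ hhat ((n + 1) • P) = ((n : ℝ) + 1) ^ 2 * hhat P := by
  induction n with
  | zero =>
    refine ⟨?_, ?_⟩
    · rw [zero_smul, H2_zero W]
      simp
    · simp
  | succ n ih =>
    obtain ⟨h1, h2⟩ := ih
    refine ⟨?_, ?_⟩
    · rw [h2]
      push_cast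
      ring
    · have h := hhat_par W ((n + 1) • P) P
      have e1 : (n + 1) • P + P = (n + 1 + 1) • P := (succ_nsmul P (n + 1)).symm
      have e2 : (n + 1) • P - P = n • P := by
        rw [succ_nsmul, add_sub_cancel_right]
      rw [e1, e2, h1, h2] at h
      push_cast
      linarith

theorem hhat_zsmul (W : WeierstrassCurve K) [W.IsElliptic] (n : ℤ) (P : W.toAffine.Point) :
    hhat (n • P) = (n : ℝ) ^ 2 * hhat P := by
  obtain ⟨m, rfl | rfl⟩ := n.eq_nat_or_neg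
  · rw [natCast_zsmul, (H2_nsmul W P m).1]
    push_cast
    ring
  · rw [neg_smul, H2_neg, natCast_zsmul, (H2_nsmul W P m).1]
    push_cast
    ring

end Pool.Agent.H38LS
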