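import Pool.Agent.Lib.H38LS.Defs2

set_option autoImplicit false

namespace Pool.Agent.H38LS

/-! Chunk K1 (M). The kernel `B₂(x - y) + B₂(x + y)` is positive.

For `0 ≤ a, b ≤ L/2`, `u = a/L`, `w = b/L`:
`L/6 - hh L |a - b|/2 - hh L (fold L (a + b))/2 = L (1/6 - max u w + u² + w²)` (note
`hh L (L - y) = hh L y`). Positivity of `∑_{i,j} (1/6 - max u_i u_j + u_i² + u_j²)` for
`0 ≤ u_i ≤ 1/2`: either the integral representation
`1/6 - max u w + u² + w² = ∫ s in 0..1/2, (1_{u ≤ s} - 2 s) (1_{w ≤ s} - 2 s)`, or: for a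
nondecreasing enumeration `u_1 ≤ … ≤ u_n` the double sum of the maxima is `∑ (2 k - 1) u_k`,
and `2 n u² - (2 k - 1) u ≥ -(2 k - 1)²/(8 n)`, `∑ (2 k - 1)²/(8 n) = (4 n² - 1)/24 ≤ n²/6`.
(For a general finite type: by `Finset`/`List` sorting, or by the integral.) -/

theorem kernel_formula {L a b : ℝ} (hL : 0 < L) (ha : 0 ≤ a) (ha' : a ≤ L / 2) (hb : 0 ≤ b)
    (hb' : b ≤ L / 2) :
    L / 6 - hh L |a - b| / 2 - hh L (fold L (a + b)) / 2 =
      L * (1 / 6 - max (a / L) (b / L) + (a / L) ^ 2 + (b / L) ^ 2) := by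
  have hL0 : L ≠ 0 := hL.ne'
  have h1 : hh L (fold L (a + b)) = (a + b) * (L - (a + b)) / L := by
    unfold hh fold
    rcases le_total (a + b) (L - (a + b)) with h | h
    · rw [min_eq_left h]
    · rw [min_eq_right h]
      ring
  rw [h1]
  unfold hh
  rcases le_total a b with h | h
  · have h2 : a / L ≤ b / L := div_le_div_of_nonneg_right h hL.le
    rw [max_eq_right h2, abs_of_nonpos (by linarith)]
    field_simp
    ring
  · have h2 : b / L ≤ a / L := div_le_div_of_nonneg_right h hL.le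
    rw [max_eq_left h2, abs_of_nonneg (by linarith)]
    field_simp
    ring

private theorem K1_max {ι : Type*} (s : Finset ι) (u : ι → ℝ) {N : ℝ} (hN : 0 < N) :
    ∑ i ∈ s, ∑ j ∈ s, max (u i) (u j) ≤
      2 * N * ∑ i ∈ s, u i ^ 2 + ((s.card : ℝ) * (4 * (s.card : ℝ) ^ 2 - 1) / 3) / (8 * N) := by
  classical
  induction s using Finset.induction_on_max_value u with
  | empty => simp
  | insert a s has hmax ih =>
    have e1 : ∑ i ∈ insert a s, ∑ j ∈ insert a s, max (u i) (u j) =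
        ∑ i ∈ s, ∑ j ∈ s, max (u i) (u j) + (2 * (s.card : ℝ) + 1) * u a := by
      rw [Finset.sum_insert has, Finset.sum_insert has, max_self]
      have e2 : ∑ j ∈ s, max (u a) (u j) = (s.card : ℝ) * u a := by
        rw [Finset.sum_congr rfl fun j hj => max_eq_left (hmax j hj), Finset.sum_const,
          nsmul_eq_mul]
      have e3 : ∑ i ∈ s, ∑ j ∈ insert a s, max (u i) (u j) =
          ∑ i ∈ s, ∑ j ∈ s, max (u i) (u j) + (s.card : ℝ) * u a := by
        rw [Finset.sum_congr rfl fun i (hi : i ∈ s) => by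
          rw [Finset.sum_insert has, max_eq_right (hmax i hi)], Finset.sum_add_distrib,
          Finset.sum_const, nsmul_eq_mul]
        ring
      rw [e2, e3]
      ring
    rw [e1, Finset.sum_insert has, Finset.card_insert_of_notMem has]
    push_cast
    set c : ℝ := 2 * (s.card : ℝ) + 1 with hc
    have h1 : 0 ≤ 2 * N * (u a - c / (4 * N)) ^ 2 := by positivity
    have h2 : 2 * N * (u a - c / (4 * N)) ^ 2 = 2 * N * u a ^ 2 - c * u a + c ^ 2 / (8 * N) := by
      field_simp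
      ring
    have h3 : (((s.card : ℝ) + 1) * (4 * ((s.card : ℝ) + 1) ^ 2 - 1) / 3) / (8 * N) =
        ((s.card : ℝ) * (4 * (s.card : ℝ) ^ 2 - 1) / 3) / (8 * N) + c ^ 2 / (8 * N) := by
      rw [hc]
      field_simp
      ring
    rw [h3]
    rw [h2] at h1
    linarith

theorem kernel_pos {ι : Type*} (s : Finset ι) {L : ℝ} (hL : 0 < L) (a : ι → ℝ)
    (ha : ∀ i ∈ s, 0 ≤ a i ∧ a i ≤ L / 2) :
    0 ≤ ∑ i ∈ s, ∑ j ∈ s,
      (L / 6 - hh L |a i - a j| / 2 - hh L (fold L (a i + a j)) / 2) := by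
  rcases s.eq_empty_or_nonempty with rfl | hs
  · simp
  have hm : (0 : ℝ) < s.card := by
    exact_mod_cast hs.card_pos
  have h1 : ∑ i ∈ s, ∑ j ∈ s,
      (L / 6 - hh L |a i - a j| / 2 - hh L (fold L (a i + a j)) / 2) =
      L * ((s.card : ℝ) ^ 2 / 6 - ∑ i ∈ s, ∑ j ∈ s, max (a i / L) (a j / L) +
        2 * (s.card : ℝ) * ∑ i ∈ s, (a i / L) ^ 2) := by
    have h2 : ∀ i ∈ s, ∑ j ∈ s,
        (L / 6 - hh L |a i - a j| / 2 - hh L (fold L (a i + a j)) / 2) =
        L * ((s.card : ℝ) / 6 - ∑ j ∈ s, max (a i / L) (a j / L) +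
          (s.card : ℝ) * (a i / L) ^ 2 + ∑ j ∈ s, (a j / L) ^ 2) := by
      intro i hi
      rw [Finset.sum_congr rfl fun j hj =>
        kernel_formula hL (ha i hi).1 (ha i hi).2 (ha j hj).1 (ha j hj).2, ← Finset.mul_sum,
        Finset.sum_add_distrib, Finset.sum_add_distrib, Finset.sum_sub_distrib, Finset.sum_const,
        Finset.sum_const, nsmul_eq_mul, nsmul_eq_mul]
      ring
    rw [Finset.sum_congr rfl h2, ← Finset.mul_sum, Finset.sum_add_distrib,
      Finset.sum_add_distrib, Finset.sum_sub_distrib, Finset.sum_const, Finset.sum_const,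
      nsmul_eq_mul, nsmul_eq_mul, ← Finset.mul_sum]
    ring
  rw [h1]
  refine mul_nonneg hL.le ?_
  have h3 := K1_max s (fun i => a i / L) hm
  have h4 : ((s.card : ℝ) * (4 * (s.card : ℝ) ^ 2 - 1) / 3) / (8 * (s.card : ℝ)) =
      (s.card : ℝ) ^ 2 / 6 - 1 / 24 := by
    field_simp
    ring
  rw [h4] at h3
  linarith

end Pool.Agent.H38LS
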