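import Pool.Agent.Lib.H38LS.X1

set_option autoImplicit false

namespace Pool.Agent.H38LS

variable {K : Type*} [Field K]

/-! Chunk X3 (M). Good reduction: the norm of `dup W p` is the fourth power of the norm of `p`.

Proof. `≤`: the coefficients `b₂, b₄, b₆, b₈` are integral, nonarchimedean inequality.
`≥`: Mathlib's identity `WeierstrassCurve.addSubMapCoeff_condition` (in
`Mathlib.AlgebraicGeometry.EllipticCurve.Affine.AddSubMap`) at the vector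
`x = ![X ^ 2, 2 * X * Z, Z ^ 2]` for `i = 0` and `i = 2` reads
`Δ * X ^ 8 = c₀ * f + c₁ * g` and `Δ * Z ^ 8 = c₀' * f + c₁' * g` with `(f, g) = dup W (X, Z)` (the
third component of `asm` vanishes) and `c`'s which are polynomials of degree 2 in the three
coordinates `X ^ 2, 2 X Z, Z ^ 2` with integral coefficients, so `|c| ≤ N ^ 4`,
`N = N2 v 1 (X, Z)`. Hence `N ^ 8 ≤ N ^ 4 * N2 v 1 (f, g)`. (It may be easier to write the two
identities down explicitly and to prove them by `ring` after replacing `b₈` with the relation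
`4 b₈ = b₂ b₆ - b₄ ^ 2`; `addSubMapCoeff` is `private`-free, its evaluation is by `simp`.) -/

/-- The identity behind `good_dup` for `X ^ 8`. -/
private theorem x3_idX {R : Type*} [CommRing R] (W : WeierstrassCurve R) (X Z : R) :
    ∃ c0 c1 : R, W.Δ * X ^ 8 =
      c0 * (X ^ 4 - W.b₄ * X ^ 2 * Z ^ 2 - 2 * W.b₆ * X * Z ^ 3 - W.b₈ * Z ^ 4) +
      c1 * (4 * X ^ 3 * Z + W.b₂ * X ^ 2 * Z ^ 2 + 2 * W.b₄ * X * Z ^ 3 + W.b₆ * Z ^ 4) := by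
  refine ⟨(-W.b₂ ^ 2 * W.b₈ + 9 * W.b₂ * W.b₄ * W.b₆ - 8 * W.b₄ ^ 3 - 27 * W.b₆ ^ 2) * X ^ 4 +
      (2 * W.b₂ * W.b₄ * W.b₈ - 2 * W.b₄ ^ 2 * W.b₆ - 10 * W.b₆ * W.b₈) * X ^ 2 * (2 * X * Z) +
      (-W.b₂ * W.b₆ * W.b₈ + W.b₄ * W.b₆ ^ 2) * X ^ 2 * Z ^ 2 +
      (3 * W.b₄ ^ 2 * W.b₈ - 3 * W.b₄ * W.b₆ ^ 2) * (2 * X * Z) ^ 2 +
      (3 * W.b₄ * W.b₆ * W.b₈ - 3 * W.b₆ ^ 3) * (2 * X * Z) * Z ^ 2,
    (-W.b₂ * W.b₄ * W.b₈ + W.b₄ ^ 2 * W.b₆ + 5 * W.b₆ * W.b₈) * X ^ 4 +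
      (2 * W.b₂ * W.b₆ * W.b₈ - 2 * W.b₄ * W.b₆ ^ 2 - 10 * W.b₈ ^ 2) * X ^ 2 * (2 * X * Z) +
      (-W.b₂ * W.b₈ ^ 2 + W.b₄ * W.b₆ * W.b₈) * X ^ 2 * Z ^ 2 +
      (3 * W.b₄ * W.b₆ * W.b₈ - 3 * W.b₆ ^ 3) * (2 * X * Z) ^ 2 +
      (3 * W.b₄ * W.b₈ ^ 2 - 3 * W.b₆ ^ 2 * W.b₈) * (2 * X * Z) * Z ^ 2, ?_⟩
  have h := W.b_relation
  rw [WeierstrassCurve.Δ]
  grind only

/-- The identity behind `good_dup` for `Z ^ 8`. -/
private theorem x3_idZ {R : Type*} [CommRing R] (W : WeierstrassCurve R) (X Z : R) :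
    ∃ c0 c1 : R, W.Δ * Z ^ 8 =
      c0 * (X ^ 4 - W.b₄ * X ^ 2 * Z ^ 2 - 2 * W.b₆ * X * Z ^ 3 - W.b₈ * Z ^ 4) +
      c1 * (4 * X ^ 3 * Z + W.b₂ * X ^ 2 * Z ^ 2 + 2 * W.b₄ * X * Z ^ 3 + W.b₆ * Z ^ 4) := by
  refine ⟨-12 * (2 * X * Z) ^ 2 - 4 * W.b₂ * (2 * X * Z) * Z ^ 2 +
      (W.b₂ ^ 2 - 32 * W.b₄) * Z ^ 4,
    6 * X ^ 2 * (2 * X * Z) - W.b₂ * X ^ 2 * Z ^ 2 - 5 * W.b₄ * (2 * X * Z) * Z ^ 2 +
      (W.b₂ * W.b₄ - 27 * W.b₆) * Z ^ 4, ?_⟩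
  have h := W.b_relation
  rw [WeierstrassCurve.Δ]
  grind only

/-- The subring of `v`-integers. -/
private def x3O (v : AbsoluteValue K ℝ) (hv : IsNonarchimedean v) : Subring K where
  carrier := {x | v x ≤ 1}
  mul_mem' := by
    intro a b ha hb
    have ha' : v a ≤ 1 := ha
    have hb' : v b ≤ 1 := hb
    show v (a * b) ≤ 1
    rw [map_mul]
    exact mul_le_one₀ ha' (v.nonneg b) hb'
  one_mem' := by
    show v 1 ≤ 1
    rw [map_one]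
  add_mem' := by
    intro a b ha hb
    have ha' : v a ≤ 1 := ha
    have hb' : v b ≤ 1 := hb
    show v (a + b) ≤ 1
    exact (hv a b).trans (max_le ha' hb')
  zero_mem' := by
    show v 0 ≤ 1
    rw [map_zero]
    exact zero_le_one
  neg_mem' := by
    intro a ha
    have ha' : v a ≤ 1 := ha
    show v (-a) ≤ 1
    rw [v.map_neg]
    exact ha'

private theorem x3_lift {v : AbsoluteValue K ℝ} (hv : IsNonarchimedean v)
    {W : WeierstrassCurve K} (hi : IntegralAt v W) :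
    ∃ W₀ : WeierstrassCurve (x3O v hv), W = W₀.map (x3O v hv).subtype := by
  obtain ⟨h1, h2, h3, h4, h6⟩ := hi
  exact ⟨⟨⟨W.a₁, h1⟩, ⟨W.a₂, h2⟩, ⟨W.a₃, h3⟩, ⟨W.a₄, h4⟩, ⟨W.a₆, h6⟩⟩, rfl⟩

private theorem x3_unit {v : AbsoluteValue K ℝ} (hv : IsNonarchimedean v)
    {W : WeierstrassCurve K} (hi : IntegralAt v W) (hd : v W.Δ = 1) {X Z : K}
    (h1 : max (v X) (v Z) = 1) : max (v (dupX W X Z)) (v (dupZ W X Z)) = 1 := by
  obtain ⟨W₀, hW⟩ := x3_lift hv hi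
  have hX : v X ≤ 1 := h1 ▸ le_max_left _ _
  have hZ : v Z ≤ 1 := h1 ▸ le_max_right _ _
  obtain ⟨x, hx⟩ : ∃ x : x3O v hv, (x : K) = X := ⟨⟨X, hX⟩, rfl⟩
  obtain ⟨z, hz⟩ : ∃ z : x3O v hv, (z : K) = Z := ⟨⟨Z, hZ⟩, rfl⟩
  set f : x3O v hv := x ^ 4 - W₀.b₄ * x ^ 2 * z ^ 2 - 2 * W₀.b₆ * x * z ^ 3 - W₀.b₈ * z ^ 4
    with hf
  set g : x3O v hv := 4 * x ^ 3 * z + W₀.b₂ * x ^ 2 * z ^ 2 + 2 * W₀.b₄ * x * z ^ 3 +
    W₀.b₆ * z ^ 4 with hg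
  have hle : ∀ a : x3O v hv, v (a : K) ≤ 1 := fun a => a.2
  have eb2 : W.b₂ = ((W₀.b₂ : x3O v hv) : K) := by rw [hW, WeierstrassCurve.map_b₂]; rfl
  have eb4 : W.b₄ = ((W₀.b₄ : x3O v hv) : K) := by rw [hW, WeierstrassCurve.map_b₄]; rfl
  have eb6 : W.b₆ = ((W₀.b₆ : x3O v hv) : K) := by rw [hW, WeierstrassCurve.map_b₆]; rfl
  have eb8 : W.b₈ = ((W₀.b₈ : x3O v hv) : K) := by rw [hW, WeierstrassCurve.map_b₈]; rfl
  have eD : W.Δ = ((W₀.Δ : x3O v hv) : K) := by rw [hW, WeierstrassCurve.map_Δ]; rfl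
  have ef : dupX W X Z = (f : K) := by
    have e : (f : K) = (x3O v hv).subtype f := rfl
    rw [e, hf, dupX, eb4, eb6, eb8, ← hx, ← hz]
    simp only [map_sub, map_mul, map_pow, map_ofNat, Subring.subtype_apply]
  have eg : dupZ W X Z = (g : K) := by
    have e : (g : K) = (x3O v hv).subtype g := rfl
    rw [e, hg, dupZ, eb2, eb4, eb6, ← hx, ← hz]
    simp only [map_add, map_mul, map_pow, map_ofNat, Subring.subtype_apply]
  rw [ef, eg]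
  refine le_antisymm (max_le (hle f) (hle g)) ?_
  -- the key estimate
  have key : ∀ t : x3O v hv, v (t : K) = 1 → (∃ c0 c1 : x3O v hv, W₀.Δ * t ^ 8 = c0 * f + c1 * g) →
      1 ≤ max (v (f : K)) (v (g : K)) := by
    intro t ht hc
    obtain ⟨c0, c1, hc⟩ := hc
    have e : W.Δ * (t : K) ^ 8 = (c0 : K) * (f : K) + (c1 : K) * (g : K) := by
      rw [eD]
      exact_mod_cast congrArg (fun a : x3O v hv => (a : K)) hc
    have e2 : v (W.Δ * (t : K) ^ 8) = 1 := by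
      rw [map_mul, map_pow, hd, ht]
      norm_num
    rw [← e2, e]
    refine (hv _ _).trans (max_le_max ?_ ?_)
    · rw [map_mul]
      exact mul_le_of_le_one_left (v.nonneg _) (hle c0)
    · rw [map_mul]
      exact mul_le_of_le_one_left (v.nonneg _) (hle c1)
  rcases max_choice (v X) (v Z) with h | h
  · exact key x (by rw [hx, ← h, h1]) (x3_idX W₀ x z)
  · exact key z (by rw [hz, ← h, h1]) (x3_idZ W₀ x z)

theorem good_dup {v : AbsoluteValue K ℝ} (hv : IsNonarchimedean v) {W : WeierstrassCurve K}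
    (hi : IntegralAt v W) (hd : v W.Δ = 1) (p : K × K) :
    N2 v 1 (dup W p) = N2 v 1 p ^ 4 := by
  obtain ⟨X, Z⟩ := p
  simp only [N2, dup, one_mul]
  by_cases h0 : max (v X) (v Z) = 0
  · have hX : X = 0 := by
      have : v X ≤ 0 := h0 ▸ le_max_left _ _
      exact (v.eq_zero).mp (le_antisymm this (v.nonneg X))
    have hZ : Z = 0 := by
      have : v Z ≤ 0 := h0 ▸ le_max_right _ _
      exact (v.eq_zero).mp (le_antisymm this (v.nonneg Z))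
    rw [h0]
    simp [dupX, dupZ, hX, hZ]
  · -- scale by a coordinate of maximal size
    obtain ⟨m, hm0, hm⟩ : ∃ m : K, m ≠ 0 ∧ v m = max (v X) (v Z) := by
      rcases max_choice (v X) (v Z) with h | h
      · refine ⟨X, ?_, h.symm⟩
        rintro rfl
        exact h0 (by rw [h, map_zero])
      · refine ⟨Z, ?_, h.symm⟩
        rintro rfl
        exact h0 (by rw [h, map_zero])
    have hvm : 0 < v m := v.pos hm0
    have hu := x3_unit hv hi hd (X := m⁻¹ * X) (Z := m⁻¹ * Z) (by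
      rw [map_mul, map_mul, ← mul_max_of_nonneg _ _ (v.nonneg _), ← hm, map_inv₀]
      exact inv_mul_cancel₀ hvm.ne')
    have e1 : dupX W X Z = m ^ 4 * dupX W (m⁻¹ * X) (m⁻¹ * Z) := by
      simp only [dupX]
      field_simp
    have e2 : dupZ W X Z = m ^ 4 * dupZ W (m⁻¹ * X) (m⁻¹ * Z) := by
      simp only [dupZ]
      field_simp
    rw [e1, e2, map_mul, map_mul, map_pow, ← mul_max_of_nonneg _ _ (pow_nonneg (v.nonneg _) _),
      hu, mul_one, hm]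

/-- Integrality of the b-invariants. -/
theorem IntegralAt.b_le {v : AbsoluteValue K ℝ} (hv : IsNonarchimedean v)
    {W : WeierstrassCurve K} (hi : IntegralAt v W) :
    v W.b₂ ≤ 1 ∧ v W.b₄ ≤ 1 ∧ v W.b₆ ≤ 1 ∧ v W.b₈ ≤ 1 ∧ v W.c₄ ≤ 1 ∧ v W.c₆ ≤ 1 ∧ v W.Δ ≤ 1 := by
  obtain ⟨W₀, hW⟩ := x3_lift hv hi
  have hle : ∀ a : x3O v hv, v (a : K) ≤ 1 := fun a => a.2
  have eb2 : W.b₂ = ((W₀.b₂ : x3O v hv) : K) := by rw [hW, WeierstrassCurve.map_b₂]; rfl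
  have eb4 : W.b₄ = ((W₀.b₄ : x3O v hv) : K) := by rw [hW, WeierstrassCurve.map_b₄]; rfl
  have eb6 : W.b₆ = ((W₀.b₆ : x3O v hv) : K) := by rw [hW, WeierstrassCurve.map_b₆]; rfl
  have eb8 : W.b₈ = ((W₀.b₈ : x3O v hv) : K) := by rw [hW, WeierstrassCurve.map_b₈]; rfl
  have ec4 : W.c₄ = ((W₀.c₄ : x3O v hv) : K) := by rw [hW, WeierstrassCurve.map_c₄]; rfl
  have ec6 : W.c₆ = ((W₀.c₆ : x3O v hv) : K) := by rw [hW, WeierstrassCurve.map_c₆]; rfl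
  have eD : W.Δ = ((W₀.Δ : x3O v hv) : K) := by rw [hW, WeierstrassCurve.map_Δ]; rfl
  rw [eb2, eb4, eb6, eb8, ec4, ec6, eD]
  exact ⟨hle _, hle _, hle _, hle _, hle _, hle _, hle _⟩

end Pool.Agent.H38LS
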