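import Pool.Agent.Lib.H38LS.Defs2

set_option autoImplicit false

namespace Pool.Agent.H38LS

variable {K : Type*} [Field K]

/-! Chunk X4 (S). Elementary facts about the norms `N2`. -/

theorem N2_smul (v : AbsoluteValue K ℝ) (w : ℝ) (hw : 0 ≤ w) (l : K) (p : K × K) :
    N2 v w (l • p) = v l * N2 v w p := by
  unfold N2
  rw [mul_max_of_nonneg _ _ (v.nonneg l), Prod.smul_fst, Prod.smul_snd, smul_eq_mul, smul_eq_mul,
    v.map_mul, v.map_mul]
  congr 1
  ring

theorem N2_pos (v : AbsoluteValue K ℝ) {w : ℝ} (hw : 0 < w) {p : K × K} (hp : p ≠ 0) :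
    0 < N2 v w p := by
  unfold N2
  by_cases h1 : p.1 = 0
  · have h2 : p.2 ≠ 0 := fun h2 => hp (Prod.ext h1 h2)
    exact lt_max_of_lt_right (mul_pos hw (v.pos h2))
  · exact lt_max_of_lt_left (v.pos h1)

theorem N2_mono (v : AbsoluteValue K ℝ) {w w' : ℝ} (h : w ≤ w') (p : K × K) :
    N2 v w p ≤ N2 v w' p :=
  max_le_max le_rfl (mul_le_mul_of_nonneg_right h (v.nonneg _))

theorem N2_scale (v : AbsoluteValue K ℝ) {w : ℝ} (h0 : 0 ≤ w) (h1 : w ≤ 1) (p : K × K) :
    w * N2 v 1 p ≤ N2 v w p := by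
  unfold N2
  rw [mul_max_of_nonneg _ _ h0, one_mul]
  exact max_le_max (mul_le_of_le_one_left (v.nonneg _) h1) le_rfl

/-- `al` does not depend on the representative. -/
theorem al_smul (v : AbsoluteValue K ℝ) (L : ℝ) {l : K} (hl : l ≠ 0) (p : K × K) :
    al v L (l • p) = al v L p := by
  unfold al
  rw [N2_smul v 1 zero_le_one, N2_smul v _ (Real.exp_pos _).le,
    mul_div_mul_left _ _ (v.ne_zero hl)]

/-- (A0) -/
theorem al_mem (v : AbsoluteValue K ℝ) {L : ℝ} (hL : 0 ≤ L) {p : K × K} (hp : p ≠ 0) :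
    0 ≤ al v L p ∧ al v L p ≤ L / 2 := by
  have hw : 0 < Real.exp (-(L / 2)) := Real.exp_pos _
  have hw1 : Real.exp (-(L / 2)) ≤ 1 := Real.exp_le_one_iff.mpr (by linarith)
  have hB : 0 < N2 v (Real.exp (-(L / 2))) p := N2_pos v hw hp
  have hA : 0 < N2 v 1 p := N2_pos v one_pos hp
  have hBA : N2 v (Real.exp (-(L / 2))) p ≤ N2 v 1 p := N2_mono v hw1 p
  have hAB := N2_scale v hw.le hw1 p
  unfold al
  constructor
  · exact Real.log_nonneg ((one_le_div hB).mpr hBA)
  · rw [Real.log_le_iff_le_exp (div_pos hA hB), div_le_iff₀ hB]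
    have h1 : Real.exp (L / 2) * Real.exp (-(L / 2)) = 1 := by
      rw [← Real.exp_add, add_neg_cancel, Real.exp_zero]
    calc N2 v 1 p = Real.exp (L / 2) * (Real.exp (-(L / 2)) * N2 v 1 p) := by
          rw [← mul_assoc, h1, one_mul]
      _ ≤ Real.exp (L / 2) * N2 v (Real.exp (-(L / 2))) p :=
          mul_le_mul_of_nonneg_left hAB (Real.exp_pos _).le

/-- The point at infinity. -/
theorem al_inf (v : AbsoluteValue K ℝ) (L : ℝ) : al v L (1, 0) = 0 := by
  unfold al N2
  simp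

private theorem X4_dup_smul (W : WeierstrassCurve K) (l : K) (p : K × K) :
    dup W (l • p) = l ^ 4 • dup W p := by
  refine Prod.ext ?_ ?_
  · simp only [dup, dupX, Prod.smul_fst, Prod.smul_snd, smul_eq_mul]
    ring
  · simp only [dup, dupZ, Prod.smul_fst, Prod.smul_snd, smul_eq_mul]
    ring

private theorem X4_iter (W : WeierstrassCurve K) (l : K) (p : K × K) (n : ℕ) :
    (dup W)^[n] (l • p) = l ^ (4 ^ n) • (dup W)^[n] p := by
  induction n with
  | zero => simp
  | succ n ih =>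
    rw [Function.iterate_succ_apply', Function.iterate_succ_apply', ih, X4_dup_smul, ← pow_mul,
      ← pow_succ]

/-- `LocLB` does not depend on the representative up to the shift by `log |l|`: here only the
iterates are compared. -/
theorem N2_iter_smul (v : AbsoluteValue K ℝ) (W : WeierstrassCurve K) (l : K) (p : K × K)
    (n : ℕ) : N2 v 1 ((dup W)^[n] (l • p)) = v l ^ (4 ^ n) * N2 v 1 ((dup W)^[n] p) := by
  rw [X4_iter, N2_smul v 1 zero_le_one, v.map_pow]

end Pool.Agent.H38LS
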