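import Pool.Agent.Lib.H38LS.H2
import Pool.Agent.Lib.H38LS.X3
import Pool.Agent.Lib.H38LS.X4

set_option autoImplicit false

namespace Pool.Agent.H38LS

open NumberField Height Filter Topology IsDedekindDomain

variable {K : Type*} [Field K] [NumberField K] [DecidableEq K]

/-! Chunk LG (M). The canonical height is at least the sum of the local lower bounds.

Proof. Let `q_n = (dup W)^[n] (xr P)`. By `iter_xr` and the scaling invariance of `logHeight`,
`xh (2^n P) = logHeight ![q_n.1, q_n.2]`, which is (Mathlib `NumberField.mulHeight_eq`, take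
logarithms; or `logHeight_eq`) the sum over the infinite places `w` of `w.mult * log (max (w q_n.1)
(w q_n.2))` plus the `finsum` over the finite places of `log (max …)`. For a prime `p ∉ S`:
`N2 (av p) 1 q_n = N2 (av p) 1 (xr P) ^ (4 ^ n) ≥ 1` by `good_dup` (induction; the second coordinate
of `xr P` is `1` as `P ≠ 0`), so these terms are `≥ 0` and the sum is at least the sum over `S`.
Hence `xh (2^n P) ≥ ∑_w w.mult (4^n (2 l_w + log |Δ|_w / 6) - C_w) + ∑_{p ∈ S} (4^n (2 l_p +
log |Δ|_p / 6) - C_p)`; by the product formula (`|Δ|_p = 1` off `S`) the `Δ`-terms cancel. Divide by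
`2 * 4^n`, `n → ∞`, `hhat_tendsto`. -/

omit [DecidableEq K] in
/-- The value of a finite place given by a prime. -/
private theorem lg_mk (p : HeightOneSpectrum (𝓞 K)) (x : K) : FinitePlace.mk p x = av p x := by
  rw [FinitePlace.mk_apply, FinitePlace.norm_embedding]
  rfl

omit [NumberField K] [DecidableEq K] in
/-- Finite support of a function which is `0` at all primes where `a` and `b` are units. -/
private theorem lg_sup2 (v : AbsoluteValue K ℝ) (a b : K) : (⨆ i, v (![a, b] i)) = N2 v 1 (a, b) := by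
  rw [N2, one_mul]
  apply le_antisymm
  · refine ciSup_le fun i => ?_
    fin_cases i
    · exact le_max_left _ _
    · exact le_max_right _ _
  · refine max_le ?_ ?_
    · exact Finite.le_ciSup_of_le (0 : Fin 2) le_rfl
    · exact Finite.le_ciSup_of_le (1 : Fin 2) le_rfl

omit [DecidableEq K] in
private theorem lg_finsupp {x : K} (hx : x ≠ 0) :
    {p : HeightOneSpectrum (𝓞 K) | av p x ≠ 1}.Finite := by
  have h := FinitePlace.hasFiniteMulSupport hx
  have h2 : (Function.mulSupport fun w : FinitePlace K => w x).Finite := h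
  have h3 := h2.preimage (f := FinitePlace.mk (K := K))
    (fun a _ b _ hab => FinitePlace.mk_eq_iff.mp hab)
  refine h3.subset ?_
  intro p hp
  have hp' : av p x ≠ 1 := hp
  show FinitePlace.mk p x ≠ 1
  rw [lg_mk]
  exact hp'

omit [DecidableEq K] in
private theorem lg_finsupp2 {q : K × K} (hq : q ≠ 0) :
    {p : HeightOneSpectrum (𝓞 K) | N2 (av p) 1 q ≠ 1}.Finite := by
  obtain ⟨a, b⟩ := q
  by_cases ha : a = 0
  · have hb : b ≠ 0 := by
      rintro rfl
      exact hq (by rw [ha]; rfl)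
    refine (lg_finsupp hb).subset ?_
    intro p hp hb1
    apply hp
    simp only [N2, one_mul, ha, map_zero]
    rw [max_eq_right ((av p).nonneg b)]
    exact hb1
  · by_cases hb : b = 0
    · refine (lg_finsupp ha).subset ?_
      intro p hp ha1
      apply hp
      simp only [N2, one_mul, hb, map_zero]
      rw [max_eq_left ((av p).nonneg a)]
      exact ha1
    · refine ((lg_finsupp ha).union (lg_finsupp hb)).subset ?_
      intro p hp
      by_contra hcon
      have h1 : ¬ (av p a ≠ 1) := fun h => hcon (Or.inl h)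
      have h2 : ¬ (av p b ≠ 1) := fun h => hcon (Or.inr h)
      push Not at h1 h2
      apply hp
      simp only [N2, one_mul, h1, h2, max_self]

omit [DecidableEq K] in
/-- The logarithmic height as a sum over the places. -/
private theorem lg_height {q : K × K} (hq : q ≠ 0) :
    logHeight ![q.1, q.2] = ∑ w : InfinitePlace K, (w.mult : ℝ) * Real.log (N2 w.val 1 q) +
      ∑ᶠ p : HeightOneSpectrum (𝓞 K), Real.log (N2 (av p) 1 q) := by
  have hx : ![q.1, q.2] ≠ 0 := by
    intro h
    apply hq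
    have h0 := congrFun h 0
    have h1 := congrFun h 1
    exact Prod.ext h0 h1
  have e1 : ∀ w : InfinitePlace K, (⨆ i, w (![q.1, q.2] i)) = N2 w.val 1 q := fun w =>
    lg_sup2 w.val q.1 q.2
  have e2 : ∀ w : FinitePlace K, (⨆ i, w (![q.1, q.2] i)) = N2 w.val 1 q := fun w =>
    lg_sup2 w.val q.1 q.2
  rw [logHeight_eq_log_mulHeight, NumberField.mulHeight_eq hx]
  have hpos : ∀ v : AbsoluteValue K ℝ, 0 < N2 v 1 q := fun v => N2_pos v one_pos hq
  have e3 : ∏ᶠ w : FinitePlace K, (⨆ i, w (![q.1, q.2] i)) =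
      ∏ᶠ p : HeightOneSpectrum (𝓞 K), N2 (av p) 1 q := by
    rw [← finprod_comp_equiv FinitePlace.equivHeightOneSpectrum.symm]
    refine finprod_congr fun p => ?_
    have e4 : (FinitePlace.equivHeightOneSpectrum.symm p : FinitePlace K) = FinitePlace.mk p := rfl
    rw [e4, e2 (FinitePlace.mk p)]
    have e5 : (FinitePlace.mk p : FinitePlace K).val = av p := by
      ext x
      exact lg_mk p x
    rw [e5]
  have hfp : 0 < ∏ᶠ p : HeightOneSpectrum (𝓞 K), N2 (av p) 1 q := finprod_induction (fun x : ℝ => 0 < x)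
    one_pos (fun _ _ => mul_pos) fun p => hpos _
  have hprod : 0 < ∏ w : InfinitePlace K, (⨆ i, w (![q.1, q.2] i)) ^ w.mult :=
    Finset.prod_pos fun w _ => by rw [e1]; exact pow_pos (hpos _) _
  rw [e3, Real.log_mul hprod.ne' hfp.ne', Real.log_prod (fun w _ => by
    rw [e1]; exact (pow_pos (hpos _) _).ne'), Real.log_finprod fun p => hpos _]
  refine congrArg₂ (· + ·) ?_ rfl
  refine Finset.sum_congr rfl fun w _ => ?_
  rw [e1, Real.log_pow]

omit [DecidableEq K] in
/-- The logarithmic product formula with a finite set of primes. -/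
private theorem lg_product {x : K} (hx : x ≠ 0) (S : Finset (HeightOneSpectrum (𝓞 K)))
    (hS : ∀ p ∉ S, av p x = 1) :
    ∑ w : InfinitePlace K, (w.mult : ℝ) * Real.log (w.val x) + ∑ p ∈ S, Real.log (av p x) = 0 := by
  have h := NumberField.prod_abs_eq_one hx
  have e3 : ∏ᶠ w : FinitePlace K, w x = ∏ p ∈ S, av p x := by
    rw [← finprod_comp_equiv FinitePlace.equivHeightOneSpectrum.symm]
    have e : ∀ p, (FinitePlace.equivHeightOneSpectrum.symm p : FinitePlace K) x = av p x :=
      fun p => lg_mk p x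
    rw [finprod_congr e]
    refine finprod_eq_prod_of_mulSupport_subset _ ?_
    intro p hp
    by_contra hcon
    exact hp (hS p hcon)
  have h1 : 0 < ∏ w : InfinitePlace K, w x ^ w.mult := Finset.prod_pos fun w _ =>
    pow_pos (w.val.pos hx) _
  have h2 : 0 < ∏ p ∈ S, av p x := Finset.prod_pos fun p _ => (av p).pos hx
  rw [e3] at h
  have h3 := congrArg Real.log h
  rw [Real.log_one, Real.log_mul h1.ne' h2.ne', Real.log_prod (fun p _ => ((av p).pos hx).ne'),
    Real.log_prod (fun w _ => (pow_pos (w.val.pos hx) _).ne')] at h3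
  rw [← h3]
  refine congrArg₂ (· + ·) ?_ rfl
  refine Finset.sum_congr rfl fun w _ => ?_
  exact (Real.log_pow _ _).symm

omit [DecidableEq K] in
/-- Iterates of the duplication at a prime of good reduction. -/
private theorem lg_iter {p : HeightOneSpectrum (𝓞 K)} {W : WeierstrassCurve K}
    (h : IntegralAt (av p) W ∧ av p W.Δ = 1) (q : K × K) (n : ℕ) :
    N2 (av p) 1 ((dup W)^[n] q) = N2 (av p) 1 q ^ (4 ^ n) := by
  have hna : IsNonarchimedean (av p) :=
    NumberField.HeightOneSpectrum.isNonarchimedean_adicAbv K p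
  induction n with
  | zero => simp
  | succ n ih =>
    rw [Function.iterate_succ_apply', good_dup hna h.1 h.2, ih, ← pow_mul, pow_succ]

/-- The main estimate for one `n`. -/
private theorem lg_main {W : WeierstrassCurve K} [W.IsElliptic] {P : W.toAffine.Point} (hP : P ≠ 0)
    (S : Finset (HeightOneSpectrum (𝓞 K)))
    (hS : ∀ p ∉ S, IntegralAt (av p) W ∧ av p W.Δ = 1) (n : ℕ) :
    ∑ w : InfinitePlace K, (w.mult : ℝ) * Real.log (N2 w.val 1 ((dup W)^[n] (xr P))) +
      ∑ p ∈ S, Real.log (N2 (av p) 1 ((dup W)^[n] (xr P))) ≤ xh ((2 ^ n : ℕ) • P) := by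
  have hW : W.Δ ≠ 0 := W.isUnit_Δ.ne_zero
  obtain ⟨l, hl, hxr⟩ := iter_xr hW P n
  set q := (dup W)^[n] (xr P) with hq
  have hq0 : q ≠ 0 := by
    intro h
    apply xr_ne_zero ((2 ^ n : ℕ) • P)
    rw [hxr, h, smul_zero]
  have e1 : xh ((2 ^ n : ℕ) • P) = logHeight ![q.1, q.2] := by
    rw [xh, hxr]
    have : ![(l • q).1, (l • q).2] = l • ![q.1, q.2] := by
      ext i
      fin_cases i <;> rfl
    rw [this, logHeight_smul_eq_logHeight _ hl]
  rw [e1, lg_height hq0]
  refine add_le_add_right ?_ _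
  have hfin := lg_finsupp2 hq0
  obtain ⟨T, hT⟩ : ∃ T : Finset (HeightOneSpectrum (𝓞 K)), S ⊆ T ∧
      ∀ p ∉ T, N2 (av p) 1 q = 1 := by
    classical
    refine ⟨S ∪ hfin.toFinset, Finset.subset_union_left, fun p hp => ?_⟩
    by_contra hcon
    apply hp
    rw [Finset.mem_union]
    right
    rw [Set.Finite.mem_toFinset]
    exact hcon
  rw [finsum_eq_sum_of_support_subset (s := T) _ (by
    intro p hp
    by_contra hcon
    apply hp
    show Real.log (N2 (av p) 1 q) = 0
    rw [hT.2 p hcon, Real.log_one])]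
  refine Finset.sum_le_sum_of_subset_of_nonneg hT.1 fun p _ hp => ?_
  rw [hq, lg_iter (hS p hp)]
  refine Real.log_nonneg (one_le_pow₀ ?_)
  rw [(xr_affine hP).1]
  simp [N2]

theorem hhat_lower {W : WeierstrassCurve K} [W.IsElliptic] {P : W.toAffine.Point} (hP : P ≠ 0)
    (S : Finset (HeightOneSpectrum (𝓞 K)))
    (hS : ∀ p ∉ S, IntegralAt (av p) W ∧ av p W.Δ = 1)
    (l : HeightOneSpectrum (𝓞 K) → ℝ) (hl : ∀ p ∈ S, LocLB (av p) W (xr P) (l p))
    (m : InfinitePlace K → ℝ) (hm : ∀ w : InfinitePlace K, LocLB w.val W (xr P) (m w)) :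
    ∑ w : InfinitePlace K, (w.mult : ℝ) * m w + ∑ p ∈ S, l p ≤ hhat P := by
  have hW : W.Δ ≠ 0 := W.isUnit_Δ.ne_zero
  have hl' : ∀ p ∈ S, ∃ C : ℝ, ∀ n : ℕ, 4 ^ n * (2 * l p + Real.log (av p W.Δ) / 6) - C ≤
    Real.log (N2 (av p) 1 ((dup W)^[n] (xr P))) := hl
  have hm' : ∀ w : InfinitePlace K, ∃ C : ℝ, ∀ n : ℕ,
    4 ^ n * (2 * m w + Real.log (w.val W.Δ) / 6) - C ≤
    Real.log (N2 w.val 1 ((dup W)^[n] (xr P))) := hm
  choose! C hC using hl'
  choose D hD using hm'
  set T : ℝ := ∑ w : InfinitePlace K, (w.mult : ℝ) * m w + ∑ p ∈ S, l p with hT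
  set E : ℝ := ∑ w : InfinitePlace K, (w.mult : ℝ) * D w + ∑ p ∈ S, C p with hE
  have hprod := lg_product hW S fun p hp => (hS p hp).2
  have key : ∀ n : ℕ, T - E / (2 * 4 ^ n) ≤ xh ((2 ^ n : ℕ) • P) / (2 * 4 ^ n) := by
    intro n
    have h4 : (0 : ℝ) < 4 ^ n := by positivity
    have h1 := lg_main hP S hS n
    have h2 : ∑ w : InfinitePlace K, (w.mult : ℝ) *
        (4 ^ n * (2 * m w + Real.log (w.val W.Δ) / 6) - D w) ≤
        ∑ w : InfinitePlace K, (w.mult : ℝ) * Real.log (N2 w.val 1 ((dup W)^[n] (xr P))) :=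
      Finset.sum_le_sum fun w _ => mul_le_mul_of_nonneg_left (hD w n) (Nat.cast_nonneg _)
    have h3 : ∑ p ∈ S, (4 ^ n * (2 * l p + Real.log (av p W.Δ) / 6) - C p) ≤
        ∑ p ∈ S, Real.log (N2 (av p) 1 ((dup W)^[n] (xr P))) :=
      Finset.sum_le_sum fun p hp => hC p hp n
    have e2 : ∑ w : InfinitePlace K, (w.mult : ℝ) *
        (4 ^ n * (2 * m w + Real.log (w.val W.Δ) / 6) - D w) =
        2 * 4 ^ n * ∑ w : InfinitePlace K, (w.mult : ℝ) * m w +
        4 ^ n / 6 * ∑ w : InfinitePlace K, (w.mult : ℝ) * Real.log (w.val W.Δ) -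
        ∑ w : InfinitePlace K, (w.mult : ℝ) * D w := by
      rw [Finset.mul_sum, Finset.mul_sum, ← Finset.sum_add_distrib, ← Finset.sum_sub_distrib]
      exact Finset.sum_congr rfl fun w _ => by ring
    have e3 : ∑ p ∈ S, (4 ^ n * (2 * l p + Real.log (av p W.Δ) / 6) - C p) =
        2 * 4 ^ n * ∑ p ∈ S, l p + 4 ^ n / 6 * ∑ p ∈ S, Real.log (av p W.Δ) - ∑ p ∈ S, C p := by
      rw [Finset.mul_sum, Finset.mul_sum, ← Finset.sum_add_distrib, ← Finset.sum_sub_distrib]
      exact Finset.sum_congr rfl fun p _ => by ring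
    have h5 : 2 * 4 ^ n * T - E ≤ xh ((2 ^ n : ℕ) • P) := by
      have h6 : 2 * 4 ^ n * T - E + 4 ^ n / 6 *
          (∑ w : InfinitePlace K, (w.mult : ℝ) * Real.log (w.val W.Δ) +
            ∑ p ∈ S, Real.log (av p W.Δ)) ≤ xh ((2 ^ n : ℕ) • P) := by
        rw [hT, hE]
        linarith
      rw [hprod, mul_zero, add_zero] at h6
      exact h6
    rw [le_div_iff₀ (by positivity)]
    have e4 : (T - E / (2 * 4 ^ n)) * (2 * 4 ^ n) = 2 * 4 ^ n * T - E := by
      field_simp
    rw [e4]
    exact h5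
  have hlim : Tendsto (fun n : ℕ => T - E / (2 * 4 ^ n)) atTop (𝓝 T) := by
    have h1 : Tendsto (fun n : ℕ => (2 : ℝ) * 4 ^ n) atTop atTop :=
      Tendsto.const_mul_atTop two_pos (tendsto_pow_atTop_atTop_of_one_lt (by norm_num))
    have h2 : Tendsto (fun n : ℕ => E / (2 * 4 ^ n)) atTop (𝓝 0) := h1.const_div_atTop E
    simpa using (tendsto_const_nhds (x := T)).sub h2
  exact le_of_tendsto_of_tendsto' hlim (hhat_tendsto W P) key

end Pool.Agent.H38LS
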