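import Pool.Agent.Lib.H38LS.Defs

/-!
# Interface of the local part (targets; every theorem is proved in its own file)

`v` is a real absolute value on a field `K`, `Et t` the curve with invariant
`t = 1/(j - 1728)`, `L = - log |t|`.
-/

set_option autoImplicit false

namespace Pool.Agent.H38LS.Spec

open Pool.Agent.H38LS

universe u

/-- (A0) `al` lies in `[0, L/2]`. -/
def A0 : Prop := ∀ (K : Type u) [Field K] (v : AbsoluteValue K ℝ) (L : ℝ) (p : K × K),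
  0 ≤ L → p ≠ 0 → 0 ≤ al v L p ∧ al v L p ≤ L / 2

/-- (A1) nonarchimedean, `|j| > 1`: the exact lower bound of the local height. -/
def A1 : Prop := ∀ (K : Type u) [Field K] (v : AbsoluteValue K ℝ), IsNonarchimedean v →
  ∀ t : K, 0 < v t → v t < 1 → ∀ x : K,
    LocLB v (Et t) (x, 1)
      (-Real.log (v t) / 12 - hh (-Real.log (v t)) (al v (-Real.log (v t)) (x, 1)) / 2)

/-- (A2) nonarchimedean, `|j| > 1`: the multiset lemma. -/
def A2 : Prop := ∀ (K : Type u) [Field K] (v : AbsoluteValue K ℝ), IsNonarchimedean v →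
  ∀ t : K, 0 < v t → v t < 1 → ∀ (L : ℝ), L = -Real.log (v t) →
    ∀ p q r₁ r₂ : K × K, AddSub (Et t) p q r₁ r₂ →
      (al v L r₁ = |al v L p - al v L q| ∧ al v L r₂ = fold L (al v L p + al v L q)) ∨
      (al v L r₂ = |al v L p - al v L q| ∧ al v L r₁ = fold L (al v L p + al v L q))

/-- (A5) nonarchimedean, `|j| > 1`: strictly between the two ends the value of `dupZ` is
`|x|²`. -/
def A5 : Prop := ∀ (K : Type u) [Field K] (v : AbsoluteValue K ℝ), IsNonarchimedean v →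
  ∀ t : K, 0 < v t → v t < 1 → ∀ (L : ℝ), L = -Real.log (v t) → ∀ x : K,
    0 < al v L (x, 1) → al v L (x, 1) < L / 2 →
      al v L (x, 1) = -Real.log (v x) ∧ v (dupZ (Et t) x 1) = v x ^ 2

/-- (B1) nonarchimedean, `|6| = 1`, `|j| ≤ 1`: lower bound of the local height. -/
def B1 : Prop := ∀ (K : Type u) [Field K] (v : AbsoluteValue K ℝ), IsNonarchimedean v →
  v 2 = 1 → v 3 = 1 → ∀ W : WeierstrassCurve K, W.Δ ≠ 0 → v (W.c₄) ^ 3 ≤ v W.Δ →
    ∀ (d : ℝ), 0 < d → d ^ 6 = v W.Δ → ∀ x : K,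
      LocLB v W (x, 1) (Real.log (max (v (x + W.b₂ / 12)) d / d) / 2)

/-- Kernel of reduction (`|j| ≤ 1`), `d = |Δ|^(1/6)`. -/
def Ker {K : Type u} [Field K] (v : AbsoluteValue K ℝ) (W : WeierstrassCurve K) (d : ℝ)
    (p : K × K) : Prop := d * v p.2 < v (p.1 + W.b₂ / 12 * p.2)

/-- (B2) the kernel of reduction is closed under sums and differences. -/
def B2 : Prop := ∀ (K : Type u) [Field K] (v : AbsoluteValue K ℝ), IsNonarchimedean v →
  v 2 = 1 → v 3 = 1 → ∀ W : WeierstrassCurve K, W.Δ ≠ 0 → v (W.c₄) ^ 3 ≤ v W.Δ →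
    ∀ (d : ℝ), 0 < d → d ^ 6 = v W.Δ → ∀ p q r₁ r₂ : K × K, AddSub W p q r₁ r₂ →
      Ker v W d p → Ker v W d q → Ker v W d r₁ ∧ Ker v W d r₂

/-- (B3) additive reduction, potentially good: one of `Q, 2Q, 3Q` is in the kernel of reduction.
`rho` generates the value group, `|Δ|` is not a twelfth power in it, `e` is the square root
`2 y + a₁ x + a₃` of `dupZ`. -/
def B3 : Prop := ∀ (K : Type u) [Field K] (v : AbsoluteValue K ℝ), IsNonarchimedean v →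
  v 2 = 1 → v 3 = 1 → ∀ (rho : ℝ), 1 < rho → (∀ a : K, a ≠ 0 → ∃ k : ℤ, v a = rho ^ k) →
    ∀ W : WeierstrassCurve K, W.Δ ≠ 0 → v (W.c₄) ^ 3 ≤ v W.Δ →
    (∀ k : ℤ, v W.Δ ≠ rho ^ (12 * k)) →
    ∀ (d : ℝ), 0 < d → d ^ 6 = v W.Δ → ∀ (x e : K), dupZ W x 1 = e ^ 2 →
      ∀ r₂ r₃ : K × K, AddSub W (x, 1) (x, 1) r₂ (1, 0) → AddSub W r₂ (x, 1) r₃ (x, 1) →
        Ker v W d (x, 1) ∨ Ker v W d r₂ ∨ Ker v W d r₃

/-- (D1) any absolute value with `|6| ≠ 0`, `|j|` large: lower bound of the local height. -/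
def D1 : Prop := ∀ (K : Type u) [Field K] (v : AbsoluteValue K ℝ), (2 : K) ≠ 0 → (3 : K) ≠ 0 →
  ∃ C t₀ : ℝ, 0 < t₀ ∧ t₀ < 1 ∧ ∀ t : K, 0 < v t → v t ≤ t₀ → ∀ x : K,
    LocLB v (Et t) (x, 1)
      (-Real.log (v t) / 12 - hh (-Real.log (v t)) (al v (-Real.log (v t)) (x, 1)) / 2 - C)

/-- (D2) any absolute value with `|6| ≠ 0`, `|j|` large: the multiset lemma up to `O(1)`. -/
def D2 : Prop := ∀ (K : Type u) [Field K] (v : AbsoluteValue K ℝ), (2 : K) ≠ 0 → (3 : K) ≠ 0 →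
  ∃ C t₀ : ℝ, 0 < t₀ ∧ t₀ < 1 ∧ ∀ t : K, 0 < v t → v t ≤ t₀ → ∀ L : ℝ, L = -Real.log (v t) →
    ∀ p q r₁ r₂ : K × K, AddSub (Et t) p q r₁ r₂ → ∀ o : ℝ, 0 ≤ o → o ≤ L / 2 →
      min (al v L r₁) o + min (al v L r₂) o ≤
        min |al v L p - al v L q| o + min (fold L (al v L p + al v L q)) o + C

/-- (E1) any absolute value with `|6| ≠ 0`, `|j|` bounded: the local height is bounded below. -/
def E1 : Prop := ∀ (K : Type u) [Field K] (v : AbsoluteValue K ℝ), (2 : K) ≠ 0 → (3 : K) ≠ 0 →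
  ∀ J : ℝ, ∃ C : ℝ, ∀ W : WeierstrassCurve K, W.Δ ≠ 0 → v (W.c₄) ^ 3 ≤ J * v W.Δ →
    ∀ x : K, LocLB v W (x, 1) (-C)

end Pool.Agent.H38LS.Spec
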