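import Pool.Agent.Lib.H38LS.S2

set_option autoImplicit false

namespace Pool.Agent.H38LS

open NumberField IsDedekindDomain

universe u

variable {K : Type u} [Field K] [NumberField K] [DecidableEq K] {W : WeierstrassCurve K}
  [W.IsElliptic]

/-! Chunk S6 (S/M). Multiples of `12 q P` lie in the identity component if the exponent divides `q`.

Proof. `v = av p`, `L = log |j|_p = m log (Nm p)`, `t = tt W`, `|t| = 1/|j|`. For an affine point
`nrm W (x, 1) = (X, 1)`, and by `Spec.A5` either `aP ∈ {0, L/2}` or `aP = - log |X|`, a multiple of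
`log (Nm p)` (`av_value`). So `2 aP = k log (Nm p)` with an integer `k` in all cases (for `L/2`:
`k = m`). Then `12 q * aP = 6 (q/m) k L` is a multiple of `L`, so `aP (12 q P) = 0` by
`aP_nsmul`. -/

private theorem S6_nsmul (hA2 : Spec.A2.{u}) {v : AbsoluteValue K ℝ} (hv : IsNonarchimedean v)
    (h : 1 < v W.j) {L : ℝ} (hL : L = Real.log (v W.j)) (P : W.toAffine.Point) (n : ℕ) (z : ℤ)
    (hz : (n : ℝ) * aP v L P = z * L) : aP v L (n • P) = 0 := by
  have hL0 : 0 < L := by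
    rw [hL]
    exact Real.log_pos h
  rw [aP_nsmul hA2 hv h hL P n, hz, mul_div_assoc, div_self hL0.ne', mul_one, round_intCast,
    mul_comm, sub_self, abs_zero]

private theorem S6_mid (hA5 : Spec.A5.{u}) {v : AbsoluteValue K ℝ} (hv : IsNonarchimedean v)
    (h : 1 < v W.j) {L : ℝ} (hL : L = Real.log (v W.j)) (P : W.toAffine.Point)
    (h0 : 0 < aP v L P) (h1 : aP v L P < L / 2) :
    ∃ X e : K, X ≠ 0 ∧ aP v L P = - Real.log (v X) ∧ v e ^ 2 = v (cc W) ^ 3 * v X ^ 2 := by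
  obtain ⟨h4, h6, ht, hc⟩ := tt_value hv h
  have hP : P ≠ 0 := by
    intro hP0
    rw [hP0, aP_zero v L h4 h6] at h0
    exact lt_irrefl _ h0
  obtain ⟨hx, e, he⟩ := xr_affine hP
  have hn : nrm W (xr P) = (((xr P).1 - rr W) / cc W, 1) := by
    rw [hx]
    unfold nrm
    simp
  have haP : aP v L P = al v L (((xr P).1 - rr W) / cc W, 1) := by
    unfold aP
    rw [hn]
  have hj0 : 0 < v W.j := lt_trans one_pos h
  have ht0 : 0 < v (tt W) := by
    rw [ht]
    exact inv_pos.2 hj0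
  have ht1 : v (tt W) < 1 := by
    rw [ht]
    exact inv_lt_one_of_one_lt₀ h
  have hLt : L = -Real.log (v (tt W)) := by
    rw [ht, Real.log_inv, neg_neg, hL]
  have h0' : 0 < al v L (((xr P).1 - rr W) / cc W, 1) := by
    rw [← haP]
    exact h0
  have h1' : al v L (((xr P).1 - rr W) / cc W, 1) < L / 2 := by
    rw [← haP]
    exact h1
  obtain ⟨h5, h5'⟩ := hA5 K v hv (tt W) ht0 ht1 L hLt _ h0' h1'
  have hX : ((xr P).1 - rr W) / cc W ≠ 0 := by
    intro hX0
    rw [h5, hX0, map_zero, Real.log_zero, neg_zero] at h0'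
    exact lt_irrefl _ h0'
  refine ⟨((xr P).1 - rr W) / cc W, e, hX, haP.trans h5, ?_⟩
  rw [← map_pow, ← he, dupZ_nrm h4 h6 (xr P).1, map_mul, map_pow, h5']

theorem aP_gain (hA2 : Spec.A2.{u}) (hA5 : Spec.A5.{u}) (p : HeightOneSpectrum (𝓞 K))
    (h : 1 < av p W.j) {L : ℝ} (hL : L = Real.log (av p W.j)) {m q : ℕ}
    (hm : L = m * Real.log (Nm p)) (hq : m ∣ q) (P : W.toAffine.Point) :
    aP (av p) L ((12 * q : ℕ) • P) = 0 := by
  have hv := av_nonarch p
  obtain ⟨h4, h6, -, -⟩ := tt_value hv h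
  have hL0 : 0 < L := by
    rw [hL]
    exact Real.log_pos h
  obtain ⟨g0, g1⟩ := aP_mem (av p) hL0.le h4 h6 P
  obtain ⟨k, hk⟩ : ∃ k : ℤ, 2 * aP (av p) L P = k * Real.log (Nm p) := by
    rcases g0.eq_or_lt with g | g
    · exact ⟨0, by rw [← g]; simp⟩
    rcases g1.eq_or_lt with g' | g'
    · refine ⟨m, ?_⟩
      rw [g']
      push_cast
      linarith
    · obtain ⟨X, e, hX, hX1, -⟩ := S6_mid hA5 hv h hL P g g'
      obtain ⟨k, hk⟩ := av_value p hX
      refine ⟨-2 * k, ?_⟩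
      rw [hX1, hk, Real.log_zpow]
      push_cast
      ring
  obtain ⟨q', rfl⟩ := hq
  refine S6_nsmul hA2 hv h hL P _ (6 * q' * k) ?_
  push_cast
  calc (12 : ℝ) * (m * q') * aP (av p) L P = 6 * (m * q') * (2 * aP (av p) L P) := by ring
    _ = 6 * q' * k * (m * Real.log (Nm p)) := by rw [hk]; ring
    _ = 6 * q' * k * L := by rw [← hm]

/-! Potentially multiplicative additive reduction (`|cc W|_p` an odd power of `Nm p`): then
`aP Q ∈ {0, L/2}` for every point. Proof. If `0 < aP Q < L/2` then by `Spec.A5`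
`|dupZ (Et t) (X, 1)| = |X|²`, so by `dupZ_nrm` `|dupZ W x| = |c|³ |X|²`, an odd power of `Nm p`;
but `dupZ W x = e²` (`xr_affine`) is an even power. Contradiction. Hence `aP (2 Q) = 0`
(`aP_nsmul` for `n = 2`, or `aP_multiset`), and so `aP (12 q P) = 0`. -/

theorem aP_odd (hA2 : Spec.A2.{u}) (hA5 : Spec.A5.{u}) (p : HeightOneSpectrum (𝓞 K))
    (h : 1 < av p W.j) {L : ℝ} (hL : L = Real.log (av p W.j)) (k : ℤ)
    (hk : av p (cc W) = Nm p ^ (2 * k + 1)) (q : ℕ) (P : W.toAffine.Point) :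
    aP (av p) L ((12 * q : ℕ) • P) = 0 := by
  have hv := av_nonarch p
  obtain ⟨h4, h6, -, -⟩ := tt_value hv h
  have hL0 : 0 < L := by
    rw [hL]
    exact Real.log_pos h
  obtain ⟨g0, g1⟩ := aP_mem (av p) hL0.le h4 h6 P
  rcases g0.eq_or_lt with g | g
  · refine S6_nsmul hA2 hv h hL P _ 0 ?_
    rw [← g]
    simp
  rcases g1.eq_or_lt with g' | g'
  · refine S6_nsmul hA2 hv h hL P _ (6 * q) ?_
    rw [g']
    push_cast
    ring
  · exfalso
    obtain ⟨X, e, hX, -, he⟩ := S6_mid hA5 hv h hL P g g'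
    have hN1 := one_lt_Nm p
    have hN0 : (0 : ℝ) < Nm p := lt_trans one_pos hN1
    obtain ⟨k1, hk1⟩ := av_value p hX
    have he0 : e ≠ 0 := by
      intro he0
      rw [he0, map_zero, hk, hk1] at he
      have h7 : (0 : ℝ) < (Nm p ^ (2 * k + 1)) ^ 3 * (Nm p ^ k1) ^ 2 := by positivity
      rw [← he] at h7
      simp at h7
    obtain ⟨k2, hk2⟩ := av_value p he0
    rw [hk, hk1, hk2] at he
    have h8 : Nm p ^ (2 * k2) = Nm p ^ (3 * (2 * k + 1) + 2 * k1) := by
      calc Nm p ^ (2 * k2) = (Nm p ^ k2) ^ 2 := by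
            rw [mul_comm, zpow_mul, zpow_ofNat]
        _ = (Nm p ^ (2 * k + 1)) ^ 3 * (Nm p ^ k1) ^ 2 := he
        _ = Nm p ^ (3 * (2 * k + 1) + 2 * k1) := by
            have e1 : (Nm p ^ (2 * k + 1)) ^ 3 = Nm p ^ (3 * (2 * k + 1)) := by
              rw [mul_comm 3 (2 * k + 1), zpow_mul (Nm p) (2 * k + 1) 3]
              rfl
            have e2 : (Nm p ^ k1) ^ 2 = Nm p ^ (2 * k1) := by
              rw [mul_comm 2 k1, zpow_mul (Nm p) k1 2]
              rfl
            rw [e1, e2, ← zpow_add₀ hN0.ne']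
    have h9 := zpow_right_injective₀ hN0 hN1.ne' h8
    omega

end Pool.Agent.H38LS
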