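import Pool.Agent.Lib.H38LS.P1

set_option autoImplicit false

namespace Pool.Agent.H38LS

variable {K : Type*} [Field K] [DecidableEq K] {W : WeierstrassCurve K}

/-! Chunk P2 (S/M). Consequences of P1 (`asm_sym_self`, `sym_inf`; `xr 0 = (1, 0)`,
`xr (-P) = xr P`), iteration by induction with `dup_smul`. `dupZ_sq`: the curve equation, `ring`. -/

theorem xr_zero : xr (0 : W.toAffine.Point) = (1, 0) := rfl

theorem xr_neg (P : W.toAffine.Point) : xr (-P) = xr P := by
  cases P with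
  | zero => rfl
  | some x y h => rfl

theorem xr_ne_zero (P : W.toAffine.Point) : xr P ≠ 0 := by
  cases P with
  | zero => intro h; simp [xr] at h
  | some x y h => intro h; simp [xr] at h

theorem dup_xr (hW : W.Δ ≠ 0) (P : W.toAffine.Point) :
    ∃ l : K, l ≠ 0 ∧ xr (P + P) = l • dup W (xr P) := by
  obtain ⟨-, -, -, -, l, hl, h⟩ := addSub_xr hW P P
  rw [sub_self, xr_zero, sym_inf, asm_sym_self] at h
  refine ⟨l, hl, ?_⟩
  have h1 := congrArg Prod.fst h
  have h2 := congrArg (fun z => z.2.1) h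
  exact Prod.ext h1 h2

theorem iter_xr (hW : W.Δ ≠ 0) (P : W.toAffine.Point) (n : ℕ) :
    ∃ l : K, l ≠ 0 ∧ xr ((2 ^ n : ℕ) • P) = l • (dup W)^[n] (xr P) := by
  induction n with
  | zero => exact ⟨1, one_ne_zero, by simp⟩
  | succ n ih =>
    obtain ⟨l, hl, h⟩ := ih
    obtain ⟨m, hm, h'⟩ := dup_xr hW ((2 ^ n : ℕ) • P)
    refine ⟨m * l ^ 4, mul_ne_zero hm (pow_ne_zero 4 hl), ?_⟩
    have h1 : (2 ^ (n + 1) : ℕ) • P = (2 ^ n : ℕ) • P + (2 ^ n : ℕ) • P := by
      rw [pow_succ, mul_nsmul, two_nsmul]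
    rw [h1, h', h, dup_smul, smul_smul, Function.iterate_succ_apply']

/-- For an affine point the second coordinate is `1`, and `dupZ` is a square. -/
theorem xr_affine {P : W.toAffine.Point} (hP : P ≠ 0) :
    xr P = ((xr P).1, 1) ∧ ∃ e : K, dupZ W (xr P).1 1 = e ^ 2 := by
  cases P with
  | zero => exact absurd rfl hP
  | some x y h =>
    refine ⟨rfl, 2 * y + W.a₁ * x + W.a₃, ?_⟩
    have h1 := (WeierstrassCurve.Affine.equation_iff x y).1 h.1
    simp only [xr, dupZ, WeierstrassCurve.b₂, WeierstrassCurve.b₄, WeierstrassCurve.b₆]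
    linear_combination (-4) * h1

end Pool.Agent.H38LS
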