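import Pool.Agent.Lib.H38LS.LocalSpec
import Pool.Agent.Lib.H38LS.P2
import Pool.Agent.Lib.H38LS.DD3

set_option autoImplicit false

namespace Pool.Agent.H38LS

open NumberField IsDedekindDomain

universe u

variable {K : Type u} [Field K] [NumberField K] [DecidableEq K] {W : WeierstrassCurve K}
  [W.IsElliptic]

/-! Chunk S8 (M). Additive, potentially good reduction at `p ∤ 6`: `12 q P` and all its multiples
lie in the kernel of reduction.

Proof. `c4_le` gives `|c₄|³ ≤ |Δ|`, `disc_not_twelfth` the hypothesis of `Spec.B3` with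
`rho = Nm p`; for an affine point `Q` (chunk P2: `xr Q = (x, 1)`, `dupZ W x 1 = e²`)
`addSub_xr` for `(Q, Q)` and `(2Q, Q)` gives the two `AddSub` hypotheses (`xr (Q - Q) = (1, 0)`,
`2Q - Q = Q`); so one of `Q, 2Q, 3Q` satisfies `Ker` (`Spec.Ker` and `Ker` are the same, `Iff.rfl`).
`Ker` is stable under multiples by `Spec.B2` (induction: `n Q, Q` give `(n+1) Q` and `(n-1) Q`;
`Ker (xr 0)` is true), so `6 Q`, and then `12 q P` (take `Q = P`) and all multiples are in `Ker`.
For `P = 0` all is trivial. -/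

/-- The points in the kernel of reduction. -/
private def S8_sub (hB2 : Spec.B2.{u}) (p : HeightOneSpectrum (𝓞 K))
    (h2 : av p 2 = 1) (h3 : av p 3 = 1) (h : av p W.j ≤ 1)
    {d : ℝ} (hd0 : 0 < d) (hd6 : d ^ 6 = av p W.Δ) : AddSubgroup W.toAffine.Point where
  carrier := {P | Ker (av p) W d (xr P)}
  zero_mem' := by
    show Ker (av p) W d (xr (0 : W.toAffine.Point))
    rw [xr_zero]
    unfold Ker
    simp
  add_mem' := by
    intro P Q hP hQ
    have hW : W.Δ ≠ 0 := W.isUnit_Δ.ne_zero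
    have hc : av p W.c₄ ^ 3 ≤ av p W.Δ := by
      have h1 := c4_le (v := av p) h
      linarith
    exact (hB2 K (av p) (av_nonarch p) h2 h3 W hW hc d hd0 hd6 _ _ _ _
      (addSub_xr hW P Q) hP hQ).1
  neg_mem' := by
    intro P hP
    show Ker (av p) W d (xr (-P))
    rw [xr_neg]
    exact hP

theorem ker_gain (hB2 : Spec.B2.{u}) (hB3 : Spec.B3.{u}) (p : HeightOneSpectrum (𝓞 K))
    (h2 : av p 2 = 1) (h3 : av p 3 = 1) (h : av p W.j ≤ 1) (hd : dmin W p ≠ 0)
    {d : ℝ} (hd0 : 0 < d) (hd6 : d ^ 6 = av p W.Δ) (q : ℕ) (P : W.toAffine.Point) (n : ℤ) :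
    Ker (av p) W d (xr (n • ((12 * q : ℕ) • P))) := by
  have hW : W.Δ ≠ 0 := W.isUnit_Δ.ne_zero
  have hc : av p W.c₄ ^ 3 ≤ av p W.Δ := by
    have h1 := c4_le (v := av p) h
    linarith
  let S := S8_sub hB2 p h2 h3 h hd0 hd6
  have hS : ∀ Q : W.toAffine.Point, Ker (av p) W d (xr Q) ↔ Q ∈ S := fun Q => Iff.rfl
  have h6 : (6 : ℕ) • P ∈ S := by
    by_cases hP : P = 0
    · rw [hP, smul_zero]
      exact S.zero_mem
    · obtain ⟨hx, e, he⟩ := xr_affine hP
      have a1 : AddSub W ((xr P).1, 1) ((xr P).1, 1) (xr (P + P)) (1, 0) := by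
        have h1 := addSub_xr hW P P
        rw [sub_self, xr_zero, hx] at h1
        exact h1
      have a2 : AddSub W (xr (P + P)) ((xr P).1, 1) (xr (P + P + P)) ((xr P).1, 1) := by
        have h1 := addSub_xr hW (P + P) P
        rw [add_sub_cancel_right] at h1
        generalize xr (P + P) = r2 at h1 ⊢
        generalize xr (P + P + P) = r3 at h1 ⊢
        rw [hx] at h1
        exact h1
      rcases hB3 K (av p) (av_nonarch p) h2 h3 (Nm p) (one_lt_Nm p)
        (fun a ha => av_value p ha) W hW hc (fun k => disc_not_twelfth p h2 h3 h hd k)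
        d hd0 hd6 (xr P).1 e he (xr (P + P)) (xr (P + P + P)) a1 a2 with h1 | h1 | h1
      · have h1' : P ∈ S := by
          rw [← hS, hx]
          exact h1
        exact S.nsmul_mem h1' 6
      · have h1' : P + P ∈ S := h1
        have h4 : (6 : ℕ) • P = (3 : ℕ) • (P + P) := by
          rw [← two_nsmul, smul_smul]
          norm_num
        rw [h4]
        exact S.nsmul_mem h1' 3
      · have h1' : P + P + P ∈ S := h1
        have h4 : (6 : ℕ) • P = (2 : ℕ) • (P + P + P) := by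
          rw [← two_nsmul, ← succ_nsmul, smul_smul]
          norm_num
        rw [h4]
        exact S.nsmul_mem h1' 2
  rw [hS]
  apply S.zsmul_mem
  have h5 : (12 * q : ℕ) • P = (2 * q : ℕ) • ((6 : ℕ) • P) := by
    rw [smul_smul]
    congr 1
    ring
  rw [h5]
  exact S.nsmul_mem h6 _

/-- The value of the local bound in the kernel of reduction: `|x'|/d > 1` is a power of
`(Nm p)^(1/6)`, so `log (|x'|/d)/2 ≥ log (Nm p)/12`. -/
theorem ker_value (p : HeightOneSpectrum (𝓞 K)) {d : ℝ} (hd0 : 0 < d)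
    (hd6 : d ^ 6 = av p W.Δ) {x : K} (hx : Ker (av p) W d (x, 1)) :
    Real.log (Nm p) / 12 ≤ Real.log (max (av p (x + W.b₂ / 12)) d / d) / 2 := by
  have hX : d < av p (x + W.b₂ / 12) := by
    have h1 : d * av p 1 < av p (x + W.b₂ / 12 * 1) := hx
    rw [map_one, mul_one, mul_one] at h1
    exact h1
  rw [max_eq_left hX.le]
  set X : ℝ := av p (x + W.b₂ / 12) with hXdef
  have hX0 : 0 < X := hd0.trans hX
  have hxne : x + W.b₂ / 12 ≠ 0 := by
    intro h0
    rw [hXdef, h0, map_zero] at hX0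
    exact lt_irrefl _ hX0
  have hΔ : W.Δ ≠ 0 := by
    intro h0
    rw [h0, map_zero] at hd6
    exact (pow_pos hd0 6).ne' hd6
  obtain ⟨k, hk⟩ := av_value p hxne
  obtain ⟨m, hm⟩ := av_value p hΔ
  have hN := one_lt_Nm p
  have hN0 : 0 < Nm p := by linarith
  have hq : 1 < X / d := (one_lt_div hd0).2 hX
  have hpow : (X / d) ^ 6 = Nm p ^ (6 * k - m) := by
    rw [div_pow, hd6, hm, hXdef, hk, zpow_sub₀ hN0.ne', mul_comm (6 : ℤ) k, zpow_mul]
    norm_cast
  have h1 : 1 < Nm p ^ (6 * k - m) := by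
    rw [← hpow]
    exact one_lt_pow₀ hq (by norm_num)
  have h2 : 1 ≤ 6 * k - m := by
    by_contra hc
    have h3 : 6 * k - m ≤ 0 := by omega
    have h4 : Nm p ^ (6 * k - m) ≤ 1 := zpow_le_one_of_nonpos₀ hN.le h3
    linarith
  have h3 : Nm p ≤ (X / d) ^ 6 := by
    rw [hpow]
    calc Nm p = Nm p ^ (1 : ℤ) := (zpow_one _).symm
      _ ≤ Nm p ^ (6 * k - m) := zpow_le_zpow_right₀ hN.le h2
  have h4 := Real.log_le_log hN0 h3
  rw [Real.log_pow] at h4
  push_cast at h4
  linarith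

end Pool.Agent.H38LS
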