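import Pool.Agent.Lib.H38LS.X1

set_option autoImplicit false

namespace Pool.Agent.H38LS

variable {K : Type*} [Field K]

/-! Chunk X2 (S/M). Nonvanishing. Use `WeierstrassCurve.addSubMap_ne_zero` of
`Mathlib.AlgebraicGeometry.EllipticCurve.Affine.AddSubMap` (`addSubMap W` evaluated at
`![s.1, s.2.1, s.2.2]` is `![(asm W s).1, (asm W s).2.1, (asm W s).2.2]`), the instance
`W.IsElliptic` comes from `Δ ≠ 0`. `dup_ne_zero` follows with `asm_sym_self`. -/

theorem asm_ne_zero {W : WeierstrassCurve K} (hW : W.Δ ≠ 0) {s : K × K × K} (hs : s ≠ 0) :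
    asm W s ≠ 0 := by
  have : W.IsElliptic := ⟨isUnit_iff_ne_zero.mpr hW⟩
  have hx : (![s.1, s.2.1, s.2.2] : Fin 3 → K) ≠ 0 := by
    intro h
    apply hs
    have h0 := congrFun h 0
    have h1 := congrFun h 1
    have h2 := congrFun h 2
    simp at h0 h1 h2
    exact Prod.ext h0 (Prod.ext h1 h2)
  intro h
  apply WeierstrassCurve.addSubMap_ne_zero W hx
  have e0 : (asm W s).1 = 0 := by rw [h]; rfl
  have e1 : (asm W s).2.1 = 0 := by rw [h]; rfl
  have e2 : (asm W s).2.2 = 0 := by rw [h]; rfl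
  simp only [asm] at e0 e1 e2
  funext i
  fin_cases i
  · simpa [WeierstrassCurve.addSubMap] using e0
  · simpa [WeierstrassCurve.addSubMap] using e1
  · simpa [WeierstrassCurve.addSubMap] using e2

theorem dup_ne_zero {W : WeierstrassCurve K} (hW : W.Δ ≠ 0) {p : K × K} (hp : p ≠ 0) :
    dup W p ≠ 0 := by
  intro h
  apply asm_ne_zero hW (sym_ne_zero hp hp)
  rw [asm_sym_self, h]
  rfl

theorem dup_iter_ne_zero {W : WeierstrassCurve K} (hW : W.Δ ≠ 0) {p : K × K} (hp : p ≠ 0)
    (n : ℕ) : (dup W)^[n] p ≠ 0 := by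
  induction n with
  | zero => exact hp
  | succ n ih =>
    rw [Function.iterate_succ_apply']
    exact dup_ne_zero hW ih

end Pool.Agent.H38LS
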