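import Pool.Agent.Lib.H38LS.X1
import Pool.Agent.Lib.H38LS.X2
import Pool.Agent.Lib.H38LS.X4

set_option autoImplicit false

namespace Pool.Agent.H38LS

variable {K : Type*} [Field K] [CharZero K]

/-! Chunk T1 (M). The affine change `x = c X + r` of the x-line, `c = -c₆/c₄`,
`r = (18 b₆ - b₂ b₄)/c₄`, `t = Δ/c₆²`.

Put `M (X, Z) = (c X + r Z, Z)`; `M (nrm W p) = p`. Then
`dup W (M q) = c ^ 3 • M (dup (Et t) q)`.
Proof: with `x = c X + r Z` the invariants change to `b₂' = b₂ + 12 r = c`,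
`b₄' = b₄ + r b₂ + 6 r² = -72 Δ/c₄² = -72 t c²`, `b₆' = b₆ + 2 r b₄ + r² b₂ + 4 r³ = 4 c₆ Δ/c₄³ =
-4 t c³`, `b₈' = b₈ + 3 r b₆ + 3 r² b₄ + r³ b₂ + 3 r⁴ = -(c₄³ - 432 Δ) Δ/c₄⁴ = -(t + 1296 t²) c⁴`
(these are identities in `a₁, …, a₆`: clear the denominator `c₄`, use `c_relation :
1728 Δ = c₄³ - c₆²`; for `b₈'` use `4 b₈' = b₂' b₆' - b₄'²`). The formulas for `dup` are
homogeneous of weight 4 if `X` has weight 1 and `b_{2k}` weight `k`.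
LocLB: `(dup W)^[n] p = c ^ (4 ^ n - 1) • M ((dup (Et t))^[n] (nrm W p))` by induction
(`3 + 4 (4 ^ n - 1) = 4 ^ (n + 1) - 1`), `|M q| ≥ m |q|` for a constant `m > 0` (invertible linear
map), and `Δ = c ^ 6 * t (1 + 1728 t)²`, i.e. `W.Δ = c ^ 6 * (Et t).Δ`, so
`4^n (2 l + log |Δ|/6) = 4^n (2 l + log |Δ_t|/6) + 4^n log |c|`. -/

private theorem T1_rel {W : WeierstrassCurve K} (h4 : W.c₄ ≠ 0) (h6 : W.c₆ ≠ 0) :
    (W.b₂ + 12 * rr W = cc W) ∧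
    (W.b₄ + rr W * W.b₂ + 6 * rr W ^ 2 = -72 * tt W * cc W ^ 2) ∧
    (W.b₆ + 2 * rr W * W.b₄ + rr W ^ 2 * W.b₂ + 4 * rr W ^ 3 = -4 * tt W * cc W ^ 3) ∧
    (W.b₈ + 3 * rr W * W.b₆ + 3 * rr W ^ 2 * W.b₄ + rr W ^ 3 * W.b₂ + 3 * rr W ^ 4 =
      -(tt W + 1296 * tt W ^ 2) * cc W ^ 4) := by
  have hb8 := W.b_relation
  have hc4 : W.c₄ = W.b₂ ^ 2 - 24 * W.b₄ := rfl
  have hc6 : W.c₆ = -W.b₂ ^ 3 + 36 * W.b₂ * W.b₄ - 216 * W.b₆ := rfl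
  have hD : W.Δ = -W.b₂ ^ 2 * W.b₈ - 8 * W.b₄ ^ 3 - 27 * W.b₆ ^ 2 + 9 * W.b₂ * W.b₄ * W.b₆ := rfl
  have hr : rr W * W.c₄ = 18 * W.b₆ - W.b₂ * W.b₄ := by
    unfold rr
    exact div_mul_cancel₀ _ h4
  have hc : cc W * W.c₄ = -W.c₆ := by
    unfold cc
    exact div_mul_cancel₀ _ h4
  have ht : tt W * W.c₆ ^ 2 = W.Δ := by
    unfold tt
    exact div_mul_cancel₀ _ (pow_ne_zero 2 h6)
  have e1 : W.b₂ + 12 * rr W = cc W := by
    apply mul_right_cancel₀ h4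
    have : (W.b₂ + 12 * rr W) * W.c₄ = W.b₂ * W.c₄ + 12 * (rr W * W.c₄) := by ring
    rw [this, hr, hc, hc4, hc6]
    ring
  have e2 : W.b₄ + rr W * W.b₂ + 6 * rr W ^ 2 = -72 * tt W * cc W ^ 2 := by
    apply mul_right_cancel₀ (pow_ne_zero 2 h4)
    have h1 : (W.b₄ + rr W * W.b₂ + 6 * rr W ^ 2) * W.c₄ ^ 2 =
        W.b₄ * W.c₄ ^ 2 + (rr W * W.c₄) * W.b₂ * W.c₄ + 6 * (rr W * W.c₄) ^ 2 := by ring
    have h2 : (-72 * tt W * cc W ^ 2) * W.c₄ ^ 2 = -72 * tt W * (cc W * W.c₄) ^ 2 := by ring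
    have h3 : -72 * tt W * (-W.c₆) ^ 2 = -72 * (tt W * W.c₆ ^ 2) := by ring
    rw [h1, h2, hr, hc, h3, ht, hD, hc4]
    linear_combination (-18 * W.b₂ ^ 2) * hb8
  have e3 : W.b₆ + 2 * rr W * W.b₄ + rr W ^ 2 * W.b₂ + 4 * rr W ^ 3 =
      -4 * tt W * cc W ^ 3 := by
    apply mul_right_cancel₀ (pow_ne_zero 3 h4)
    have h1 : (W.b₆ + 2 * rr W * W.b₄ + rr W ^ 2 * W.b₂ + 4 * rr W ^ 3) * W.c₄ ^ 3 =
        W.b₆ * W.c₄ ^ 3 + 2 * (rr W * W.c₄) * W.b₄ * W.c₄ ^ 2 +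
          (rr W * W.c₄) ^ 2 * W.b₂ * W.c₄ + 4 * (rr W * W.c₄) ^ 3 := by ring
    have h2 : (-4 * tt W * cc W ^ 3) * W.c₄ ^ 3 = -4 * tt W * (cc W * W.c₄) ^ 3 := by ring
    have h3 : -4 * tt W * (-W.c₆) ^ 3 = 4 * (tt W * W.c₆ ^ 2) * W.c₆ := by ring
    rw [h1, h2, hr, hc, h3, ht, hD, hc6, hc4]
    linear_combination ((-W.b₂ ^ 3 + 36 * W.b₂ * W.b₄ - 216 * W.b₆) * W.b₂ ^ 2) * hb8
  refine ⟨e1, e2, e3, ?_⟩
  have h44 : (4 : K) ≠ 0 := by norm_num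
  apply mul_left_cancel₀ h44
  have h5 : 4 * (W.b₈ + 3 * rr W * W.b₆ + 3 * rr W ^ 2 * W.b₄ + rr W ^ 3 * W.b₂ + 3 * rr W ^ 4) =
      (W.b₂ + 12 * rr W) * (W.b₆ + 2 * rr W * W.b₄ + rr W ^ 2 * W.b₂ + 4 * rr W ^ 3) -
        (W.b₄ + rr W * W.b₂ + 6 * rr W ^ 2) ^ 2 := by
    linear_combination hb8
  rw [h5, e1, e2, e3]
  ring

private theorem T1_Et (t : K) : (Et t).b₂ = 1 ∧ (Et t).b₄ = -72 * t ∧ (Et t).b₆ = -4 * t ∧
    (Et t).b₈ = -(t + 1296 * t ^ 2) := by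
  refine ⟨?_, ?_, ?_, ?_⟩
  · simp only [Et, WeierstrassCurve.b₂]; ring
  · simp only [Et, WeierstrassCurve.b₄]; ring
  · simp only [Et, WeierstrassCurve.b₆]; ring
  · simp only [Et, WeierstrassCurve.b₈]; ring

theorem dup_M {W : WeierstrassCurve K} (h4 : W.c₄ ≠ 0) (h6 : W.c₆ ≠ 0) (q : K × K) :
    dup W (cc W * q.1 + rr W * q.2, q.2) =
      (cc W ^ 3 * (cc W * (dup (Et (tt W)) q).1 + rr W * (dup (Et (tt W)) q).2),
        cc W ^ 3 * (dup (Et (tt W)) q).2) := by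
  obtain ⟨e1, e2, e3, e4⟩ := T1_rel h4 h6
  obtain ⟨f1, f2, f3, f4⟩ := T1_Et (tt W)
  obtain ⟨X, Z⟩ := q
  obtain ⟨c, hc⟩ : ∃ c, c = cc W := ⟨_, rfl⟩
  obtain ⟨r, hr⟩ : ∃ r, r = rr W := ⟨_, rfl⟩
  obtain ⟨t, ht⟩ : ∃ t, t = tt W := ⟨_, rfl⟩
  rw [← hc, ← hr] at e1
  rw [← hc, ← hr, ← ht] at e2 e3 e4
  rw [← ht] at f1 f2 f3 f4
  rw [← hc, ← hr, ← ht]
  refine Prod.ext ?_ ?_
  · simp only [dup, dupX, dupZ, f1, f2, f3, f4]
    linear_combination (X ^ 2 * Z ^ 2 * c ^ 2 * r) * e1 +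
      (-(X ^ 2 * Z ^ 2 * c ^ 2) + 2 * r * c * X * Z ^ 3) * e2 +
      (-(2 * c * X * Z ^ 3) + r * Z ^ 4) * e3 - Z ^ 4 * e4
  · simp only [dup, dupX, dupZ, f1, f2, f3, f4]
    linear_combination (X ^ 2 * Z ^ 2 * c ^ 2) * e1 + (2 * c * X * Z ^ 3) * e2 + Z ^ 4 * e3

theorem disc_Et {W : WeierstrassCurve K} (h4 : W.c₄ ≠ 0) (h6 : W.c₆ ≠ 0) :
    W.Δ = cc W ^ 6 * (Et (tt W)).Δ := by
  have hE : (Et (tt W)).Δ = tt W * (1 + 1728 * tt W) ^ 2 := by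
    simp only [Et, WeierstrassCurve.Δ, WeierstrassCurve.b₂, WeierstrassCurve.b₄,
      WeierstrassCurve.b₆, WeierstrassCurve.b₈]
    ring
  rw [hE]
  have hrel := W.c_relation
  have hc : cc W * W.c₄ = -W.c₆ := by
    unfold cc
    exact div_mul_cancel₀ _ h4
  have ht : tt W * W.c₆ ^ 2 = W.Δ := by
    unfold tt
    exact div_mul_cancel₀ _ (pow_ne_zero 2 h6)
  apply mul_right_cancel₀ (pow_ne_zero 6 h4)
  have h1 : cc W ^ 6 * (tt W * (1 + 1728 * tt W) ^ 2) * W.c₄ ^ 6 =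
      (cc W * W.c₄) ^ 6 * (tt W * (1 + 1728 * tt W) ^ 2) := by ring
  have h2 : (-W.c₆) ^ 6 * (tt W * (1 + 1728 * tt W) ^ 2) =
      (tt W * W.c₆ ^ 2) * (W.c₆ ^ 2 + 1728 * (tt W * W.c₆ ^ 2)) ^ 2 := by ring
  rw [h1, hc, h2, ht, hrel]
  ring

private def T1M (c r : K) (q : K × K) : K × K := (c * q.1 + r * q.2, q.2)

private theorem T1_iter {W : WeierstrassCurve K} (h4 : W.c₄ ≠ 0) (h6 : W.c₆ ≠ 0) (q : K × K)
    (n : ℕ) : (dup W)^[n] (T1M (cc W) (rr W) q) =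
      cc W ^ (4 ^ n - 1) • T1M (cc W) (rr W) ((dup (Et (tt W)))^[n] q) := by
  induction n with
  | zero => simp
  | succ n ih =>
    rw [Function.iterate_succ_apply', ih, dup_smul, Function.iterate_succ_apply']
    have h := dup_M h4 h6 ((dup (Et (tt W)))^[n] q)
    have h' : dup W (T1M (cc W) (rr W) ((dup (Et (tt W)))^[n] q)) =
        cc W ^ 3 • T1M (cc W) (rr W) (dup (Et (tt W)) ((dup (Et (tt W)))^[n] q)) := by
      rw [T1M, h]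
      rfl
    rw [h', smul_smul, ← pow_mul, ← pow_add]
    congr 2
    have h5 : 1 ≤ 4 ^ n := Nat.one_le_pow _ _ (by norm_num)
    rw [pow_succ]
    omega

private theorem T1_inv {W : WeierstrassCurve K} (hc : cc W ≠ 0) (p : K × K) :
    T1M (cc W) (rr W) (nrm W p) = p := by
  obtain ⟨x, z⟩ := p
  simp only [T1M, nrm]
  refine Prod.ext ?_ rfl
  change cc W * ((x - rr W * z) / cc W) + rr W * z = x
  rw [mul_div_cancel₀ _ hc]
  ring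

private theorem T1_N2 (v : AbsoluteValue K ℝ) {c : K} (hc : c ≠ 0) (r : K) (q : K × K) :
    N2 v 1 q ≤ max 1 ((1 + v r) / v c) * N2 v 1 (T1M c r q) := by
  have hvc : 0 < v c := v.pos hc
  obtain ⟨x, z⟩ := q
  have h1 : v (c * x + r * z) ≤ N2 v 1 (T1M c r (x, z)) := le_max_left _ _
  have h2 : v z ≤ N2 v 1 (T1M c r (x, z)) := by
    refine le_trans ?_ (le_max_right _ _)
    simp [T1M]
  have h0 : 0 ≤ N2 v 1 (T1M c r (x, z)) := le_trans (v.nonneg _) h2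
  have h3 : c * x = (c * x + r * z) + -(r * z) := by ring
  have h4 : v (c * x) ≤ v (c * x + r * z) + v (-(r * z)) := by
    conv_lhs => rw [h3]
    exact v.add_le _ _
  rw [map_mul, AbsoluteValue.map_neg, map_mul] at h4
  have h5 : v r * v z ≤ v r * N2 v 1 (T1M c r (x, z)) :=
    mul_le_mul_of_nonneg_left h2 (v.nonneg _)
  have h6 : v x ≤ (1 + v r) / v c * N2 v 1 (T1M c r (x, z)) := by
    rw [div_mul_eq_mul_div, le_div_iff₀ hvc]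
    nlinarith
  unfold N2
  apply max_le
  · exact h6.trans (mul_le_mul_of_nonneg_right (le_max_right _ _) h0)
  · have h7 : (1 : ℝ) * v z ≤ 1 * N2 v 1 (T1M c r (x, z)) := by
      rw [one_mul, one_mul]
      exact h2
    exact h7.trans (mul_le_mul_of_nonneg_right (le_max_left _ _) h0)

theorem locLB_nrm (v : AbsoluteValue K ℝ) {W : WeierstrassCurve K} (h4 : W.c₄ ≠ 0)
    (h6 : W.c₆ ≠ 0) (hD : W.Δ ≠ 0) {p : K × K} (hp : p ≠ 0) {l : ℝ}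
    (h : LocLB v (Et (tt W)) (nrm W p) l) : LocLB v W p l := by
  have hc : cc W ≠ 0 := by
    unfold cc
    exact div_ne_zero (neg_ne_zero.2 h6) h4
  have hvc : 0 < v (cc W) := v.pos hc
  have hdisc := disc_Et h4 h6
  have hDt : (Et (tt W)).Δ ≠ 0 := by
    intro h0
    rw [h0, mul_zero] at hdisc
    exact hD hdisc
  have hq : nrm W p ≠ 0 := by
    intro h0
    apply hp
    rw [← T1_inv hc p, h0]
    simp [T1M]
  obtain ⟨C, hC⟩ := h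
  obtain ⟨K0, hK0⟩ : ∃ K0 : ℝ, K0 = max 1 ((1 + v (rr W)) / v (cc W)) := ⟨_, rfl⟩
  have hK1 : 1 ≤ K0 := by
    rw [hK0]
    exact le_max_left _ _
  have hK : 0 < K0 := by linarith
  refine ⟨C + Real.log K0 + Real.log (v (cc W)), ?_⟩
  intro n
  have hiter := T1_iter h4 h6 (nrm W p) n
  rw [T1_inv hc p] at hiter
  rw [hiter, N2_smul v 1 zero_le_one]
  have hqn := dup_iter_ne_zero hDt hq n
  have hNq : 0 < N2 v 1 ((dup (Et (tt W)))^[n] (nrm W p)) := N2_pos v one_pos hqn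
  have hNle := T1_N2 v hc (rr W) ((dup (Et (tt W)))^[n] (nrm W p))
  rw [← hK0] at hNle
  have hNM : 0 < N2 v 1 (T1M (cc W) (rr W) ((dup (Et (tt W)))^[n] (nrm W p))) := by
    by_contra hcon
    push Not at hcon
    have := mul_nonpos_of_nonneg_of_nonpos hK.le hcon
    linarith
  have hlog : Real.log (N2 v 1 ((dup (Et (tt W)))^[n] (nrm W p))) ≤
      Real.log K0 + Real.log (N2 v 1 (T1M (cc W) (rr W) ((dup (Et (tt W)))^[n] (nrm W p)))) := by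
    rw [← Real.log_mul hK.ne' hNM.ne']
    exact Real.log_le_log hNq hNle
  rw [Real.log_mul (by rw [map_pow]; positivity) hNM.ne', map_pow, Real.log_pow, hdisc, map_mul,
    map_pow, Real.log_mul (by positivity) (v.pos hDt).ne', Real.log_pow]
  have h5 : 1 ≤ 4 ^ n := Nat.one_le_pow _ _ (by norm_num)
  rw [Nat.cast_sub h5]
  push_cast
  have hCn := hC n
  linarith

end Pool.Agent.H38LS
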