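import Pool.Agent.Lib.H38LS.S4
import Pool.Agent.Lib.H38LS.S6
import Pool.Agent.Lib.H38LS.S8
import Pool.Agent.Lib.H38LS.T1

set_option autoImplicit false

namespace Pool.Agent.H38LS

open NumberField IsDedekindDomain

universe u

/-- All targets of the local part. -/
structure Specs : Prop where
  A1 : Spec.A1.{u}
  A2 : Spec.A2.{u}
  A5 : Spec.A5.{u}
  B1 : Spec.B1.{u}
  B2 : Spec.B2.{u}
  B3 : Spec.B3.{u}
  D1 : Spec.D1.{u}
  D2 : Spec.D2.{u}
  E1 : Spec.E1.{u}

variable {K : Type u} [Field K] [NumberField K] [DecidableEq K]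

/-- `p` does not divide `6`. -/
def G6 (p : HeightOneSpectrum (𝓞 K)) : Prop := av p 2 = 1 ∧ av p 3 = 1

/-- `Cf` bounds the local heights from below at the primes over 6 with `|j| ≤ 1`. -/
def CfOK (Cf : HeightOneSpectrum (𝓞 K) → ℝ) : Prop :=
  (∀ p, 0 ≤ Cf p) ∧ (∀ p, G6 p → Cf p = 0) ∧
    ∀ p, ¬ G6 p → ∀ W : WeierstrassCurve K, W.Δ ≠ 0 →
      av p W.c₄ ^ 3 ≤ 1 * av p W.Δ → ∀ x : K, LocLB (av p) W (x, 1) (-(Cf p))

open Classical in
/-- Lower bound for the sum of the local heights of the differences of `{i R : |i| ≤ N}`. -/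
noncomputable def Bp (Cf : HeightOneSpectrum (𝓞 K) → ℝ) (W : WeierstrassCurve K) [W.IsElliptic]
    (p : HeightOneSpectrum (𝓞 K)) (R : W.toAffine.Point) (N : ℕ) : ℝ :=
  if 1 < av p W.j then
    (if aP (av p) (Real.log (av p W.j)) R = 0
      then ((2 * N + 1) ^ 2 - (2 * N + 1)) * (Real.log (av p W.j) / 12)
      else -(2 * N + 1) * (Real.log (av p W.j) / 12))
  else if G6 p then
    (if dmin W p ≠ 0 then ((2 * N + 1) ^ 2 - (2 * N + 1)) * (Real.log (Nm p) / 12) else 0)
  else -(Cf p) * (2 * N + 1) ^ 2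

/-! Chunk PP0 (S/M). Existence of the constants: `Cf p` from `Spec.E1` with `v = av p`, `J = 1`
(take the maximum with `0`; `LocLB` with a smaller number follows), `Cf p = 0` if `p ∤ 6`. -/

private theorem PP0_mono {F : Type*} [Field F] {v : AbsoluteValue F ℝ} {W : WeierstrassCurve F} {p : F × F}
    {l l' : ℝ} (h : LocLB v W p l) (hl : l' ≤ l) : LocLB v W p l' := by
  obtain ⟨C, hC⟩ := h
  refine ⟨C, fun n => le_trans ?_ (hC n)⟩
  have h1 : (0 : ℝ) < 4 ^ n := by positivity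
  have h2 : (4 : ℝ) ^ n * (2 * l' + Real.log (v W.Δ) / 6) ≤ 4 ^ n * (2 * l + Real.log (v W.Δ) / 6) :=
    mul_le_mul_of_nonneg_left (by linarith) h1.le
  linarith

theorem exists_Cf (hs : Specs.{u}) : ∃ Cf : HeightOneSpectrum (𝓞 K) → ℝ, CfOK Cf := by
  classical
  have h1 : ∀ p : HeightOneSpectrum (𝓞 K), ∃ C : ℝ, ∀ W : WeierstrassCurve K, W.Δ ≠ 0 →
      av p W.c₄ ^ 3 ≤ 1 * av p W.Δ → ∀ x : K, LocLB (av p) W (x, 1) (-C) := fun p =>
    hs.E1 K (av p) (by norm_num) (by norm_num) 1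
  choose C hC using h1
  refine ⟨fun p => if G6 p then 0 else max (C p) 0, fun p => ?_, fun p hp => ?_, fun p hp W hW hc x => ?_⟩
  · change 0 ≤ (if G6 p then (0 : ℝ) else max (C p) 0)
    split_ifs
    · exact le_rfl
    · exact le_max_right _ _
  · exact if_pos hp
  · refine PP0_mono (hC p W hW hc x) ?_
    simp only [if_neg hp]
    have := le_max_left (C p) 0
    linarith

theorem LocLB.mono {v : AbsoluteValue K ℝ} {W : WeierstrassCurve K} {p : K × K} {l l' : ℝ}
    (h : LocLB v W p l) (hl : l' ≤ l) : LocLB v W p l' := by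
  exact PP0_mono h hl

/-- (A1) for the points of `W`. -/
theorem locLB_point (hs : Specs.{u}) {v : AbsoluteValue K ℝ} (hv : IsNonarchimedean v)
    {W : WeierstrassCurve K} [W.IsElliptic] (h : 1 < v W.j) {L : ℝ} (hL : L = Real.log (v W.j))
    {Q : W.toAffine.Point} (hQ : Q ≠ 0) : LocLB v W (xr Q) (Gf v L (nrm W (xr Q))) := by
  obtain ⟨h4, h6, ht, -⟩ := tt_value hv h
  have hD : W.Δ ≠ 0 := WeierstrassCurve.IsElliptic.isUnit.ne_zero
  have hj : 0 < v W.j := by linarith
  have hlog : -Real.log (v (tt W)) = L := by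
    rw [ht, Real.log_inv, neg_neg, hL]
  have ht0 : 0 < v (tt W) := by
    rw [ht]
    positivity
  have ht1 : v (tt W) < 1 := by
    rw [ht]
    exact inv_lt_one_of_one_lt₀ h
  cases Q with
  | zero => exact absurd rfl hQ
  | some x y hxy =>
    have hp : ((x, 1) : K × K) ≠ 0 := by
      intro h0
      have := congrArg Prod.snd h0
      exact one_ne_zero this
    refine locLB_nrm v h4 h6 hD hp ?_
    have h1 := hs.A1 K v hv (tt W) ht0 ht1 ((x - rr W * 1) / cc W)
    rw [hlog] at h1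
    exact h1

end Pool.Agent.H38LS
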