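import Pool.Agent.Lib.H38LS.S9
import Pool.Agent.Lib.H38LS.PP0

set_option autoImplicit false

namespace Pool.Agent.H38LS

open NumberField IsDedekindDomain

universe u

variable {K : Type u} [Field K] [NumberField K] [DecidableEq K]

/-! Chunk PP2 (M). The infinite places.

Proof. For each `w` take `C, t₀` from `Spec.D1` and from `sum_arch` (the smaller `t₀`). If
`c₄, c₆ ≠ 0` and `|t|_w ≤ t₀`: `L = - log |t| = log |j - 1728| ≤ log (max 1 |j|) + log 1729`
(`j - 1728 = c₆²/Δ`), `L ≥ 0`, `l n = Gf w L (nrm W (xr (n R))) - C` (`Spec.D1`, `locLB_nrm`).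
Otherwise `c₄ = 0` (`j = 0`), or `c₆ = 0` (`j = 1728`), or `|t| > t₀`; in all cases
`|j|_w ≤ J = 1728 + 1/t₀` (`|1728|_w = 1728`), and `Spec.E1` (with `c4_le`) gives `l n = - C'`.
Only finitely many `w`: take the maximum of the constants. `|1|_w = 1`, `|1728|_w ≤ 1728` (any
absolute value with `|n| ≤ n`). -/

omit [NumberField K] [DecidableEq K] in
private theorem PP2_c4 (W : WeierstrassCurve K) [W.IsElliptic] : W.c₄ ^ 3 = W.Δ * W.j := by
  rw [WeierstrassCurve.j, ← mul_assoc, ← W.coe_Δ', Units.mul_inv, one_mul]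

omit [NumberField K] [DecidableEq K] in
private theorem PP2_j (W : WeierstrassCurve K) [W.IsElliptic] :
    W.j = (tt W)⁻¹ + 1728 := by
  have hD : W.Δ ≠ 0 := W.isUnit_Δ.ne_zero
  have h := PP2_c4 W
  have hc := W.c_relation
  have e : W.Δ * W.j = W.Δ * ((tt W)⁻¹ + 1728) := by
    unfold tt
    rw [mul_add, inv_div, mul_div_cancel₀ _ hD]
    linear_combination -hc - h
  exact mul_left_cancel₀ hD e

omit [NumberField K] [DecidableEq K] in
private theorem PP2_1728 (v : AbsoluteValue K ℝ) : v 1728 ≤ 1728 := by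
  have h := v.apply_nat_le_self 1728
  simpa using h

private theorem PP2_place (hs : Specs.{u}) (v : AbsoluteValue K ℝ) : ∃ C : ℝ, 0 ≤ C ∧
    ∀ (W : WeierstrassCurve K) [W.IsElliptic] (R : W.toAffine.Point),
    (∀ n : ℤ, n ≠ 0 → n • R ≠ 0) → ∀ N : ℕ,
    ∃ l : ℤ → ℝ, (∀ n : ℤ, n ≠ 0 → LocLB v W (xr (n • R)) (l n)) ∧
      -(2 * N + 1) * (Real.log (max 1 (v W.j)) / 12) - C * (2 * N + 1) ^ 2 ≤
        ∑ x ∈ OD N, l (x.1 - x.2) := by
  obtain ⟨C1, t1, ht1, ht1', hD1⟩ := hs.D1 K v (by norm_num) (by norm_num)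
  obtain ⟨C2, t2, hC2, ht2, ht2', hS⟩ := sum_arch hs.D2 v
  have ht0 : 0 < min t1 t2 := lt_min ht1 ht2
  obtain ⟨C3, hE⟩ := hs.E1 K v (by norm_num) (by norm_num) (1728 + 1 / min t1 t2)
  have hlog : 0 ≤ Real.log 1729 := Real.log_nonneg (by norm_num)
  refine ⟨|C1| + C2 + Real.log 1729 + |C3|, by positivity, ?_⟩
  intro W _ R hR N
  have hN : (0 : ℝ) ≤ N := Nat.cast_nonneg N
  have hΔ : W.Δ ≠ 0 := W.isUnit_Δ.ne_zero
  have hcard := OD_card N
  have hM : (1 : ℝ) ≤ 2 * N + 1 := by linarith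
  have hM2 : (2 * (N : ℝ) + 1) ≤ (2 * N + 1) ^ 2 := by nlinarith
  have hmax : 0 ≤ Real.log (max 1 (v W.j)) := Real.log_nonneg (le_max_left _ _)
  by_cases hA : W.c₄ ≠ 0 ∧ W.c₆ ≠ 0 ∧ v (tt W) ≤ min t1 t2
  · obtain ⟨h4, h6, ht⟩ := hA
    have htt : 0 < v (tt W) := v.pos (div_ne_zero hΔ (pow_ne_zero 2 h6))
    refine ⟨fun n => Gf v (-Real.log (v (tt W))) (nrm W (xr (n • R))) - C1, ?_, ?_⟩
    · intro n hn
      have hQ := hR n hn
      refine locLB_nrm v h4 h6 hΔ (xr_ne_zero _) ?_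
      have h := hD1 (tt W) htt (ht.trans (min_le_left _ _)) ((xr (n • R)).1 / cc W - rr W / cc W)
      have e : nrm W (xr (n • R)) = ((xr (n • R)).1 / cc W - rr W / cc W, 1) := by
        have h2 : (xr (n • R)).2 = 1 := by
          rw [(xr_affine hQ).1]
        unfold nrm
        rw [h2, mul_one, sub_div]
      have h' : LocLB v (Et (tt W)) (nrm W (xr (n • R)))
          (Gf v (-Real.log (v (tt W))) (nrm W (xr (n • R))) - C1) := by
        rw [e]
        exact h
      exact h'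
    · have h := hS W h4 h6 (ht.trans (min_le_right _ _)) _ rfl R N
      have hL : -Real.log (v (tt W)) ≤ Real.log (max 1 (v W.j)) + Real.log 1729 := by
        rw [← Real.log_inv, ← Real.log_mul (by positivity) (by norm_num)]
        apply Real.log_le_log (inv_pos.2 htt)
        have e : (tt W)⁻¹ = W.j - 1728 := by rw [PP2_j W]; ring
        rw [← map_inv₀, e]
        have h1 : v (W.j - 1728) ≤ v W.j + v 1728 := by
          rw [sub_eq_add_neg]
          exact (v.add_le _ _).trans (by rw [v.map_neg])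
        have h2 := PP2_1728 v
        have h3 : v W.j ≤ max 1 (v W.j) := le_max_right _ _
        have h4 : (1 : ℝ) ≤ max 1 (v W.j) := le_max_left _ _
        linarith
      rw [Finset.sum_sub_distrib, Finset.sum_const, nsmul_eq_mul, hcard]
      have h5 : (2 * (N : ℝ) + 1) * (-Real.log (v (tt W)) / 12) ≤
          (2 * N + 1) * ((Real.log (max 1 (v W.j)) + Real.log 1729) / 12) :=
        mul_le_mul_of_nonneg_left (by linarith) (by linarith)
      have h6' : ((2 * (N : ℝ) + 1) ^ 2 - (2 * N + 1)) * C1 ≤ (2 * N + 1) ^ 2 * |C1| := by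
        have h7 : ((2 * (N : ℝ) + 1) ^ 2 - (2 * N + 1)) * C1 ≤
            ((2 * (N : ℝ) + 1) ^ 2 - (2 * N + 1)) * |C1| :=
          mul_le_mul_of_nonneg_left (le_abs_self _) (by linarith)
        have h8 := mul_nonneg (show (0 : ℝ) ≤ 2 * N + 1 by linarith) (abs_nonneg C1)
        nlinarith
      have h9 : (2 * (N : ℝ) + 1) * (Real.log 1729) ≤ (2 * N + 1) ^ 2 * Real.log 1729 :=
        mul_le_mul_of_nonneg_right hM2 hlog
      have h10 : 0 ≤ (2 * (N : ℝ) + 1) ^ 2 * Real.log 1729 := by positivity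
      have h11 : 0 ≤ (2 * (N : ℝ) + 1) ^ 2 * |C3| := by positivity
      nlinarith
  · have hj : v W.j ≤ 1728 + 1 / min t1 t2 := by
      have hpos : 0 < 1 / min t1 t2 := by positivity
      by_cases h4 : W.c₄ = 0
      · have : W.j = 0 := by
          have h := PP2_c4 W
          rw [h4] at h
          have h' : W.Δ * W.j = 0 := by rw [← h]; ring
          exact (mul_eq_zero.1 h').resolve_left hΔ
        rw [this, map_zero]
        positivity
      · by_cases h6 : W.c₆ = 0
        · have : W.j = 1728 := by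
            rw [PP2_j W]
            unfold tt
            rw [h6]
            simp
          rw [this]
          have := PP2_1728 v
          linarith
        · have ht : min t1 t2 < v (tt W) := by
            by_contra hcon
            exact hA ⟨h4, h6, not_lt.1 hcon⟩
          rw [PP2_j W]
          have h1 : v ((tt W)⁻¹ + 1728) ≤ v (tt W)⁻¹ + v 1728 := v.add_le _ _
          have h2 := PP2_1728 v
          have h3 : v (tt W)⁻¹ ≤ 1 / min t1 t2 := by
            rw [map_inv₀, ← one_div]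
            exact one_div_le_one_div_of_le ht0 ht.le
          linarith
    refine ⟨fun _ => -C3, ?_, ?_⟩
    · intro n hn
      have h := hE W hΔ (c4_le hj) (xr (n • R)).1
      rw [← (xr_affine (hR n hn)).1] at h
      exact h
    · rw [Finset.sum_const, nsmul_eq_mul, hcard]
      have h1 : ((2 * (N : ℝ) + 1) ^ 2 - (2 * N + 1)) * C3 ≤ (2 * N + 1) ^ 2 * |C3| := by
        have h7 : ((2 * (N : ℝ) + 1) ^ 2 - (2 * N + 1)) * C3 ≤
            ((2 * (N : ℝ) + 1) ^ 2 - (2 * N + 1)) * |C3| :=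
          mul_le_mul_of_nonneg_left (le_abs_self _) (by linarith)
        have h8 := mul_nonneg (show (0 : ℝ) ≤ 2 * N + 1 by linarith) (abs_nonneg C3)
        nlinarith
      have h2 : 0 ≤ (2 * (N : ℝ) + 1) * (Real.log (max 1 (v W.j)) / 12) := by positivity
      have h3 : 0 ≤ (2 * (N : ℝ) + 1) ^ 2 * (|C1| + C2 + Real.log 1729) := by positivity
      nlinarith

theorem inf_bound (hs : Specs.{u}) : ∃ C : ℝ, 0 ≤ C ∧ ∀ (w : InfinitePlace K)
    (W : WeierstrassCurve K) [W.IsElliptic] (R : W.toAffine.Point),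
    (∀ n : ℤ, n ≠ 0 → n • R ≠ 0) → ∀ N : ℕ,
    ∃ l : ℤ → ℝ, (∀ n : ℤ, n ≠ 0 → LocLB w.val W (xr (n • R)) (l n)) ∧
      -(2 * N + 1) * (Real.log (max 1 (w W.j)) / 12) - C * (2 * N + 1) ^ 2 ≤
        ∑ x ∈ OD N, l (x.1 - x.2) := by
  choose C hC h using fun w : InfinitePlace K => PP2_place (K := K) hs w.val
  refine ⟨∑ w, C w, Finset.sum_nonneg fun w _ => hC w, ?_⟩
  intro w W _ R hR N
  obtain ⟨l, hl, hl2⟩ := h w W R hR N
  refine ⟨l, hl, le_trans ?_ hl2⟩
  have h1 : C w ≤ ∑ w, C w := Finset.single_le_sum (fun w _ => hC w) (Finset.mem_univ w)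
  have h2 := mul_le_mul_of_nonneg_right h1 (show (0 : ℝ) ≤ (2 * (N : ℝ) + 1) ^ 2 by positivity)
  have e : w W.j = w.val W.j := rfl
  rw [e]
  linarith

end Pool.Agent.H38LS
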