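import Pool.Agent.Lib.H38LS.PP0
import Pool.Agent.Lib.H38LS.DD2

set_option autoImplicit false

namespace Pool.Agent.H38LS

open NumberField IsDedekindDomain

universe u

variable {K : Type u} [Field K] [NumberField K] [DecidableEq K]

/-- Multiples of `m` in `(s, 2 s]`. -/
theorem card_multiples {m s : ℕ} (hm : 1 ≤ m) (hms : m ≤ s) :
    (s : ℝ) / (2 * m) ≤ (((Finset.Ioc s (2 * s)).filter (fun q => m ∣ q)).card : ℝ) := by
  have hsplit : ((Finset.Ioc 0 (2 * s)).filter (fun q => m ∣ q)).card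
      = ((Finset.Ioc 0 s).filter (fun q => m ∣ q)).card
        + ((Finset.Ioc s (2 * s)).filter (fun q => m ∣ q)).card := by
    rw [← Finset.card_union_of_disjoint, ← Finset.filter_union,
      Finset.Ioc_union_Ioc_eq_Ioc (Nat.zero_le s) (by omega)]
    rw [Finset.disjoint_left]
    intro x hx hx'
    simp only [Finset.mem_filter, Finset.mem_Ioc] at hx hx'
    omega
  rw [Nat.Ioc_filter_dvd_card_eq_div, Nat.Ioc_filter_dvd_card_eq_div] at hsplit
  have h1 : 2 * (s / m) ≤ 2 * s / m := by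
    rw [Nat.le_div_iff_mul_le (by omega)]
    have := Nat.div_mul_le_self s m
    calc 2 * (s / m) * m = 2 * (s / m * m) := by ring
      _ ≤ 2 * s := by omega
  have h2 : s / m ≤ ((Finset.Ioc s (2 * s)).filter (fun q => m ∣ q)).card := by omega
  have h3 : 1 ≤ s / m := (Nat.one_le_div_iff (by omega)).mpr hms
  have h4 : s < m * (s / m + 1) := by
    have := Nat.lt_mul_div_succ s (show 0 < m by omega)
    simpa using this
  have hm0 : (0 : ℝ) < m := by exact_mod_cast hm
  have h5 : (s : ℝ) ≤ m * (2 * ((s / m : ℕ) : ℝ)) := by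
    have h6 : s ≤ m * (2 * (s / m)) := by
      refine h4.le.trans (Nat.mul_le_mul_left m (by omega))
    exact_mod_cast h6
  have h7 : ((s / m : ℕ) : ℝ) ≤ (((Finset.Ioc s (2 * s)).filter (fun q => m ∣ q)).card : ℝ) := by
    exact_mod_cast h2
  rw [div_le_iff₀ (by positivity)]
  nlinarith

/-- Every term is at least `- M dmin log (Nm p)/12 - Cf M²`. -/
theorem SQ_term {Cf : HeightOneSpectrum (𝓞 K) → ℝ} (hCf : CfOK Cf)
    (W : WeierstrassCurve K) [W.IsElliptic] (p : HeightOneSpectrum (𝓞 K)) (R : W.toAffine.Point)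
    (N : ℕ) :
    -((2 * N + 1) * (dmin W p * Real.log (Nm p)) / 12) - Cf p * (2 * N + 1) ^ 2 ≤ Bp Cf W p R N := by
  have hln : 0 < Real.log (Nm p) := Real.log_pos (one_lt_Nm p)
  have hN0 : (0 : ℝ) ≤ N := Nat.cast_nonneg N
  have hD : 0 ≤ (dmin W p : ℝ) * Real.log (Nm p) := by positivity
  have hC : 0 ≤ Cf p := hCf.1 p
  have hMD : 0 ≤ (2 * (N : ℝ) + 1) * (dmin W p * Real.log (Nm p)) := by positivity
  have hCM : 0 ≤ Cf p * (2 * (N : ℝ) + 1) ^ 2 := by positivity
  have hMM : 0 ≤ (2 * (N : ℝ) + 1) ^ 2 - (2 * N + 1) := by nlinarith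
  unfold Bp
  by_cases hj : 1 < av p W.j
  · rw [if_pos hj]
    have hL0 : 0 < Real.log (av p W.j) := Real.log_pos hj
    have hL : Real.log (av p W.j) ≤ (dmin W p : ℝ) * Real.log (Nm p) := log_j_le p hj
    by_cases ha : aP (av p) (Real.log (av p W.j)) R = 0
    · rw [if_pos ha]
      have : 0 ≤ ((2 * (N : ℝ) + 1) ^ 2 - (2 * N + 1)) * (Real.log (av p W.j) / 12) := by positivity
      linarith
    · rw [if_neg ha]
      have : (2 * (N : ℝ) + 1) * Real.log (av p W.j)
          ≤ (2 * (N : ℝ) + 1) * (dmin W p * Real.log (Nm p)) :=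
        mul_le_mul_of_nonneg_left hL (by positivity)
      linarith
  · rw [if_neg hj]
    by_cases hG : G6 p
    · rw [if_pos hG]
      by_cases hd : dmin W p ≠ 0
      · rw [if_pos hd]
        have : 0 ≤ ((2 * (N : ℝ) + 1) ^ 2 - (2 * N + 1)) * (Real.log (Nm p) / 12) := by positivity
        linarith
      · rw [if_neg hd]
        linarith
    · rw [if_neg hG]
      linarith

/-- The gain. -/
theorem SQ_gain (hs : Specs.{u}) (Cf : HeightOneSpectrum (𝓞 K) → ℝ)
    (hterm : ∀ (W : WeierstrassCurve K) [W.IsElliptic] (p : HeightOneSpectrum (𝓞 K))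
      (R : W.toAffine.Point) (N : ℕ),
      -((2 * N + 1) * (dmin W p * Real.log (Nm p)) / 12) - Cf p * (2 * N + 1) ^ 2 ≤ Bp Cf W p R N)
    (W : WeierstrassCurve K) [W.IsElliptic] (p : HeightOneSpectrum (𝓞 K)) (P : W.toAffine.Point)
    {s N : ℕ} (hG : G6 p) (hC0 : Cf p = 0) (hd : dmin W p ≠ 0) (hds : dmin W p ≤ s) :
    (s : ℝ) * (2 * N + 1) ^ 2 * Real.log (Nm p) / 24
      - s * (2 * N + 1) * (dmin W p * Real.log (Nm p)) / 12 ≤
    ∑ q ∈ Finset.Ioc s (2 * s), Bp Cf W p ((12 * q : ℕ) • P) N := by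
  have hln : 0 < Real.log (Nm p) := Real.log_pos (one_lt_Nm p)
  have hN0 : (0 : ℝ) ≤ N := Nat.cast_nonneg N
  have hs0 : (0 : ℝ) ≤ s := Nat.cast_nonneg s
  have hd1 : (1 : ℝ) ≤ dmin W p := by exact_mod_cast Nat.one_le_iff_ne_zero.mpr hd
  have hM1 : (1 : ℝ) ≤ 2 * N + 1 := by linarith
  have hMM : 0 ≤ (2 * (N : ℝ) + 1) ^ 2 - (2 * N + 1) := by nlinarith
  have hcard : (Finset.Ioc s (2 * s)).card = s := by rw [Nat.card_Ioc]; omega
  have hconst : ∀ c : ℝ, (∀ q ∈ Finset.Ioc s (2 * s), c ≤ Bp Cf W p ((12 * q : ℕ) • P) N) →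
      s * c ≤ ∑ q ∈ Finset.Ioc s (2 * s), Bp Cf W p ((12 * q : ℕ) • P) N := by
    intro c hc
    have := Finset.card_nsmul_le_sum (Finset.Ioc s (2 * s)) _ c hc
    rwa [hcard, nsmul_eq_mul] at this
  by_cases hj : 1 < av p W.j
  · obtain ⟨h4, h6, htt, hcc⟩ := tt_value (av_nonarch p) hj
    have hcc0 : cc W ≠ 0 := by
      intro h0
      rw [h0, map_zero] at hcc
      have : av p W.c₄ = 0 := by rw [← hcc]; norm_num
      exact h4 ((av p).eq_zero.mp this)
    have hLD : Real.log (av p W.j) ≤ (dmin W p : ℝ) * Real.log (Nm p) := log_j_le p hj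
    obtain ⟨k, hk⟩ := av_value p hcc0
    rcases Int.even_or_odd' k with ⟨k', hk' | hk'⟩
    · have hLe : Real.log (av p W.j) = (dmin W p : ℝ) * Real.log (Nm p) :=
        dmin_of_even p hG.1 hG.2 hj k' (by rw [hk, hk'])
      have hle : ∀ q ∈ Finset.Ioc s (2 * s),
          (if dmin W p ∣ q then (2 * (N : ℝ) + 1) ^ 2 * (dmin W p * Real.log (Nm p)) / 12 else 0)
            - (2 * N + 1) * (dmin W p * Real.log (Nm p)) / 12 ≤ Bp Cf W p ((12 * q : ℕ) • P) N := by
        intro q hq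
        by_cases hdq : dmin W p ∣ q
        · rw [if_pos hdq]
          have ha := aP_gain hs.A2 hs.A5 p hj rfl hLe hdq P
          unfold Bp
          rw [if_pos hj, if_pos ha, hLe]
          apply le_of_eq; ring
        · rw [if_neg hdq]
          have := hterm W p ((12 * q : ℕ) • P) N
          rw [hC0] at this
          linarith
      refine le_trans ?_ (Finset.sum_le_sum hle)
      rw [Finset.sum_sub_distrib, ← Finset.sum_filter, Finset.sum_const, Finset.sum_const, hcard,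
        nsmul_eq_mul, nsmul_eq_mul]
      have hcm := card_multiples (Nat.one_le_iff_ne_zero.mpr hd) hds
      have hpos : 0 ≤ (2 * (N : ℝ) + 1) ^ 2 * (dmin W p * Real.log (Nm p)) / 12 := by positivity
      have h1 := mul_le_mul_of_nonneg_right hcm hpos
      have h2 : (s : ℝ) / (2 * dmin W p) * ((2 * (N : ℝ) + 1) ^ 2 * (dmin W p * Real.log (Nm p)) / 12)
          = (s : ℝ) * (2 * N + 1) ^ 2 * Real.log (Nm p) / 24 := by
        field_simp
        ring
      rw [h2] at h1
      have h3 : (s : ℝ) * (2 * N + 1) * (dmin W p * Real.log (Nm p)) / 12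
          = s * ((2 * N + 1) * (dmin W p * Real.log (Nm p)) / 12) := by ring
      rw [h3]
      linarith
    · have hLn : Real.log (Nm p) ≤ Real.log (av p W.j) := by
        have hj0 : W.j ≠ 0 := by
          intro h0
          rw [h0, map_zero] at hj
          norm_num at hj
        obtain ⟨a, ha⟩ := av_value p hj0
        have ha1 : 1 ≤ a := by
          by_contra hcon
          have : a ≤ 0 := by omega
          have h1 : Nm p ^ a ≤ 1 := zpow_le_one_of_nonpos₀ (one_lt_Nm p).le this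
          rw [← ha] at h1
          linarith
        rw [ha, Real.log_zpow]
        have : (1 : ℝ) ≤ (a : ℝ) := by exact_mod_cast ha1
        nlinarith
      have hc := hconst ((2 * (N : ℝ) + 1) ^ 2 * Real.log (Nm p) / 12
          - (2 * N + 1) * (dmin W p * Real.log (Nm p)) / 12) (by
        intro q hq
        have ha := aP_odd hs.A2 hs.A5 p hj rfl k' (by rw [hk, hk']) q P
        unfold Bp
        rw [if_pos hj, if_pos ha]
        have h1 : (2 * (N : ℝ) + 1) ^ 2 * Real.log (Nm p)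
            ≤ (2 * (N : ℝ) + 1) ^ 2 * Real.log (av p W.j) :=
          mul_le_mul_of_nonneg_left hLn (by positivity)
        have h2 : (2 * (N : ℝ) + 1) * Real.log (av p W.j)
            ≤ (2 * (N : ℝ) + 1) * (dmin W p * Real.log (Nm p)) :=
          mul_le_mul_of_nonneg_left hLD (by positivity)
        nlinarith)
      refine le_trans ?_ hc
      have : 0 ≤ (s : ℝ) * (2 * N + 1) ^ 2 * Real.log (Nm p) := by positivity
      nlinarith
  · have hc := hconst (((2 * (N : ℝ) + 1) ^ 2 - (2 * N + 1)) * (Real.log (Nm p) / 12)) (by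
      intro q hq
      unfold Bp
      rw [if_neg hj, if_pos hG, if_pos hd])
    refine le_trans ?_ hc
    have h1 : (s : ℝ) * (((2 * (N : ℝ) + 1) ^ 2 - (2 * N + 1)) * (Real.log (Nm p) / 12))
        - ((s : ℝ) * (2 * N + 1) ^ 2 * Real.log (Nm p) / 24
          - s * (2 * N + 1) * (dmin W p * Real.log (Nm p)) / 12)
        = s * Real.log (Nm p) * ((2 * N + 1) ^ 2 / 24 + (2 * N + 1) * ((dmin W p : ℝ) - 1) / 12) := by
      ring
    have h2 : 0 ≤ s * Real.log (Nm p) *
        ((2 * (N : ℝ) + 1) ^ 2 / 24 + (2 * N + 1) * ((dmin W p : ℝ) - 1) / 12) := by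
      have : 0 ≤ (dmin W p : ℝ) - 1 := by linarith
      positivity
    linarith

/-! Chunk SQ (M). Sum over `q ∈ (s, 2 s]` of the bounds at a prime, `M = 2 N + 1 ≥ 3`.

Proof. `1 < |j|_p`: every term is `≥ - M log |j|/12 ≥ - M dmin log (Nm p)/12` (`log_j_le`). Gain
for `p ∤ 6`, `1 ≤ dmin ≤ s`: `|cc W|_p = Nm p ^ k` (`av_value`, `cc W ≠ 0` by `tt_value`). `k` odd:
`aP_odd`, so every term is `M² log |j|/12 - M log |j|/12` and `log |j| ≥ log (Nm p)` (`av_value`).
`k` even: `dmin_of_even`, `aP_gain` for `dmin ∣ q`: for these `q` the term is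
`M² dmin log (Nm p)/12 - M …`, and there are at least `s/(2 dmin)` of them (`card_multiples`).
`|j| ≤ 1`, `p ∤ 6`: if `dmin ≠ 0` the term is `(M² - M) log (Nm p)/12 ≥ M² log (Nm p)/24`, else it
is `0`. `|j| ≤ 1`, `p ∣ 6`: `- Cf p M²`. -/

open Classical in
theorem sum_q (hs : Specs.{u}) {Cf : HeightOneSpectrum (𝓞 K) → ℝ} (hCf : CfOK Cf)
    (W : WeierstrassCurve K) [W.IsElliptic] (p : HeightOneSpectrum (𝓞 K)) (P : W.toAffine.Point)
    {s N : ℕ} (hs1 : 1 ≤ s) (hN : 1 ≤ N) :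
    (if G6 p ∧ dmin W p ≠ 0 ∧ dmin W p ≤ s
      then (s : ℝ) * (2 * N + 1) ^ 2 * Real.log (Nm p) / 24 else 0)
      - s * (2 * N + 1) * (dmin W p * Real.log (Nm p)) / 12 - s * Cf p * (2 * N + 1) ^ 2 ≤
    ∑ q ∈ Finset.Ioc s (2 * s), Bp Cf W p ((12 * q : ℕ) • P) N := by
  have hln : 0 < Real.log (Nm p) := Real.log_pos (one_lt_Nm p)
  have hs0 : (0 : ℝ) ≤ s := Nat.cast_nonneg s
  by_cases hcase : G6 p ∧ dmin W p ≠ 0 ∧ dmin W p ≤ s
  · rw [if_pos hcase, hCf.2.1 p hcase.1]
    have := SQ_gain hs Cf (fun W _ p R N => SQ_term hCf W p R N) W p P (N := N) hcase.1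
      (hCf.2.1 p hcase.1) hcase.2.1 hcase.2.2
    linarith
  · rw [if_neg hcase]
    have hcard : (Finset.Ioc s (2 * s)).card = s := by rw [Nat.card_Ioc]; omega
    have := Finset.card_nsmul_le_sum (Finset.Ioc s (2 * s))
      (fun q => Bp Cf W p ((12 * q : ℕ) • P) N)
      (-((2 * N + 1) * (dmin W p * Real.log (Nm p)) / 12) - Cf p * (2 * N + 1) ^ 2)
      (fun q _ => SQ_term hCf W p ((12 * q : ℕ) • P) N)
    rw [hcard, nsmul_eq_mul] at this
    refine le_trans (le_of_eq ?_) this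
    ring

end Pool.Agent.H38LS
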