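import Pool.Agent.Lib.H38LS.LG
import Pool.Agent.Lib.H38LS.PP1
import Pool.Agent.Lib.H38LS.PP2
import Pool.Agent.Lib.H38LS.SQ
import Pool.Agent.Lib.H38LS.HJ

set_option autoImplicit false

namespace Pool.Agent.H38LS

open NumberField Height IsDedekindDomain

universe u

variable {K : Type u} [Field K] [NumberField K] [DecidableEq K]

/-! Chunk MI1 (M). The inequality for one `q`.

Proof. `R = 12 q P`; `n R ≠ 0` for `n ≠ 0`. For every pair `x ∈ OD N`, `n = x.1 - x.2 ≠ 0`, chunk LG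
(`hhat_lower`) with the finite set `S` and the bounds of `prime_bound` (at `p ∈ S`), `inf_bound`
gives `∑_w mult l_w n + ∑_{p ∈ S} l_p n ≤ hhat (n R) = n² (12 q)² hhat P` (`hhat_zsmul`). Sum over
`OD N`, `OD_sq`. (`S` must contain all primes where `W` is not integral or has `|Δ| ≠ 1`.) -/

theorem one_q (hs : Specs.{u}) {Cf : HeightOneSpectrum (𝓞 K) → ℝ} (hCf : CfOK Cf) :
    ∃ C : ℝ, 0 ≤ C ∧ ∀ (W : WeierstrassCurve K) [W.IsElliptic] (P : W.toAffine.Point),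
      (∀ n : ℤ, n ≠ 0 → n • P ≠ 0) → ∀ (S : Finset (HeightOneSpectrum (𝓞 K))),
      (∀ p ∉ S, IntegralAt (av p) W ∧ av p W.Δ = 1) → ∀ q N : ℕ, 1 ≤ q →
        ∑ p ∈ S, Bp Cf W p ((12 * q : ℕ) • P) N - (2 * N + 1) * (hinf W / 12) -
          C * (2 * N + 1) ^ 2 ≤ (2 * N + 1) ^ 4 * (144 * (q : ℝ) ^ 2 * hhat P) := by
  obtain ⟨C, hC, hinfb⟩ := inf_bound (K := K) hs
  refine ⟨C * ∑ w : InfinitePlace K, (w.mult : ℝ), by positivity, ?_⟩
  intro W _ P hP S hS q N hq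
  have hR0 : ∀ n : ℤ, n ≠ 0 → n • ((12 * q : ℕ) • P) ≠ 0 := by
    intro n hn
    rw [← natCast_zsmul, smul_smul]
    refine hP _ (mul_ne_zero hn ?_)
    have h1 : (12 * q : ℕ) ≠ 0 := by omega
    exact_mod_cast h1
  choose m hm hmB using fun w : InfinitePlace K => hinfb w W ((12 * q : ℕ) • P) hR0 N
  choose l hl hlB using fun p : HeightOneSpectrum (𝓞 K) => prime_bound hs hCf W p P q N hR0
  have key : ∀ n : ℤ, n ≠ 0 → ∑ w : InfinitePlace K, (w.mult : ℝ) * m w n + ∑ p ∈ S, l p n ≤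
      (n : ℝ) ^ 2 * (144 * (q : ℝ) ^ 2 * hhat P) := by
    intro n hn
    have h1 := hhat_lower (hR0 n hn) S hS (fun p => l p n) (fun p _ => hl p n hn)
      (fun w => m w n) (fun w => hm w n hn)
    have h2 : hhat (n • ((12 * q : ℕ) • P)) = (n : ℝ) ^ 2 * (144 * (q : ℝ) ^ 2 * hhat P) := by
      rw [hhat_zsmul, ← natCast_zsmul, hhat_zsmul]
      push_cast
      ring
    rw [h2] at h1
    exact h1
  have hsum : ∑ x ∈ OD N, (∑ w : InfinitePlace K, (w.mult : ℝ) * m w (x.1 - x.2) +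
      ∑ p ∈ S, l p (x.1 - x.2)) ≤
      ∑ x ∈ OD N, ((x.1 - x.2 : ℤ) : ℝ) ^ 2 * (144 * (q : ℝ) ^ 2 * hhat P) :=
    Finset.sum_le_sum fun x hx => key _ (sub_ne_zero.2 (Finset.mem_offDiag.1 hx).2.2)
  rw [Finset.sum_add_distrib, Finset.sum_comm, Finset.sum_comm (t := S), ← Finset.sum_mul] at hsum
  have hH : 0 ≤ 144 * (q : ℝ) ^ 2 * hhat P := by
    have := hhat_nonneg W P
    positivity
  have hr : (∑ x ∈ OD N, ((x.1 - x.2 : ℤ) : ℝ) ^ 2) * (144 * (q : ℝ) ^ 2 * hhat P) ≤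
      (2 * N + 1) ^ 4 * (144 * (q : ℝ) ^ 2 * hhat P) := mul_le_mul_of_nonneg_right (OD_sq N) hH
  have hl2 : ∑ p ∈ S, Bp Cf W p ((12 * q : ℕ) • P) N ≤ ∑ p ∈ S, ∑ x ∈ OD N, l p (x.1 - x.2) :=
    Finset.sum_le_sum fun p _ => hlB p
  have hm2 : ∑ w : InfinitePlace K, (w.mult : ℝ) * (-(2 * N + 1) *
      (Real.log (max 1 (w W.j)) / 12) - C * (2 * N + 1) ^ 2) ≤
      ∑ w : InfinitePlace K, ∑ x ∈ OD N, (w.mult : ℝ) * m w (x.1 - x.2) := by
    refine Finset.sum_le_sum fun w _ => ?_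
    rw [← Finset.mul_sum]
    exact mul_le_mul_of_nonneg_left (hmB w) (Nat.cast_nonneg _)
  have hm3 : ∑ w : InfinitePlace K, (w.mult : ℝ) * (-(2 * N + 1) *
      (Real.log (max 1 (w W.j)) / 12) - C * (2 * N + 1) ^ 2) =
      -(2 * N + 1) * (hinf W / 12) - C * (∑ w : InfinitePlace K, (w.mult : ℝ)) * (2 * N + 1) ^ 2 := by
    unfold hinf
    rw [Finset.sum_div, Finset.mul_sum, Finset.mul_sum, Finset.sum_mul, ← Finset.sum_sub_distrib]
    refine Finset.sum_congr rfl fun w _ => ?_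
    ring
  rw [hm3] at hm2
  linarith

end Pool.Agent.H38LS
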