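import Pool.Agent.Lib.H38LS.MI

set_option autoImplicit false

namespace Pool.Agent.H38LS

open NumberField Height IsDedekindDomain

universe u

variable {K : Type u} [Field K] [NumberField K] [DecidableEq K]

/-! Chunk MI2 (M). The main inequality.

Proof. Let `S` be a finite set of primes such that off `S`: `W` integral, `|Δ| = 1` (then
`dmin = 0`, `dmin_eq_zero`), and `p ∤ 6` (`good_finite`, `av_six_finite`). Sum `one_q` over
`q ∈ (s, 2 s]` (`s` numbers, `q² ≤ 4 s²`) and use `sum_q`, `M = 2 N + 1`: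
`576 s³ M⁴ hhat P ≥ (s M²/24) ∑_{p ∈ S, p ∤ 6, 1 ≤ dmin ≤ s} log (Nm p) - (s M/12) logDisc
 - s M² ∑_{p ∈ S} Cf p - (s M/12) hinf - C s M²`.
The sum over `p ∤ 6` is at least `Ts W s - ∑_{p ∣ 6} log (Nm p)` (finite sum, depends only on `K`),
`∑_{p ∈ S} Cf p ≤ ∑_{p ∣ 6} Cf p` too. Divide by `s M²`. -/

open Classical in
private theorem MI2_sum (hs : Specs.{u}) {Cf : HeightOneSpectrum (𝓞 K) → ℝ} (hCf : CfOK Cf)
    (W : WeierstrassCurve K) [W.IsElliptic] (P : W.toAffine.Point)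
    (S : Finset (HeightOneSpectrum (𝓞 K))) {s N : ℕ} (hs1 : 1 ≤ s) (hN : 1 ≤ N) :
    s * (2 * N + 1) ^ 2 / 24 * (∑ p ∈ S, (if G6 p ∧ dmin W p ≠ 0 ∧ dmin W p ≤ s
      then Real.log (Nm p) else 0)) -
      s * (2 * N + 1) / 12 * (∑ p ∈ S, (dmin W p : ℝ) * Real.log (Nm p)) -
      s * (2 * N + 1) ^ 2 * ∑ p ∈ S, Cf p ≤
    ∑ p ∈ S, ∑ q ∈ Finset.Ioc s (2 * s), Bp Cf W p ((12 * q : ℕ) • P) N := by
  have h := Finset.sum_le_sum fun p (_ : p ∈ S) => sum_q hs hCf W p P hs1 hN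
  refine le_trans (le_of_eq ?_) h
  rw [Finset.mul_sum, Finset.mul_sum, Finset.mul_sum, ← Finset.sum_sub_distrib,
    ← Finset.sum_sub_distrib]
  refine Finset.sum_congr rfl fun p _ => ?_
  split_ifs <;> ring

open Classical in
private theorem MI2_Ts {W : WeierstrassCurve K} {S B6 : Finset (HeightOneSpectrum (𝓞 K))}
    (hB6 : ∀ p, p ∈ B6 ↔ ¬ G6 p) (hsub : B6 ⊆ S) (hSd : ∀ p ∉ S, dmin W p = 0) (s : ℕ) :
    Ts W s - ∑ p ∈ B6, Real.log (Nm p) ≤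
      ∑ p ∈ S, (if G6 p ∧ dmin W p ≠ 0 ∧ dmin W p ≤ s then Real.log (Nm p) else 0) := by
  have hlog : ∀ p : HeightOneSpectrum (𝓞 K), 0 ≤ Real.log (Nm p) := fun p =>
    Real.log_nonneg (one_lt_Nm p).le
  have e : ∑ p ∈ B6, Real.log (Nm p) = ∑ p ∈ S, (if p ∈ B6 then Real.log (Nm p) else 0) := by
    rw [Finset.sum_ite_mem, Finset.inter_eq_right.2 hsub]
  rw [Ts_eq_sum hSd, e, ← Finset.sum_sub_distrib]
  refine Finset.sum_le_sum fun p _ => ?_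
  have h0 := hlog p
  by_cases h1 : G6 p
  · have h2 : p ∉ B6 := fun h => (hB6 p).1 h h1
    rw [if_neg h2, sub_zero]
    by_cases h3 : dmin W p ≠ 0 ∧ dmin W p ≤ s
    · rw [if_pos h3, if_pos ⟨h1, h3⟩]
    · rw [if_neg h3, if_neg fun h => h3 h.2]
  · have h2 : p ∈ B6 := (hB6 p).2 h1
    rw [if_pos h2, if_neg fun h : G6 p ∧ dmin W p ≠ 0 ∧ dmin W p ≤ s => h1 h.1]
    split_ifs <;> linarith

private theorem MI2_arith {s M T l6 D c6 hi C0 H : ℝ} (hs : 0 < s) (hM : 0 < M)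
    (h : s * M ^ 2 / 24 * (T - l6) - s * M / 12 * D - s * M ^ 2 * c6 - s * (M * (hi / 12)) -
      s * (C0 * M ^ 2) ≤ s * (M ^ 4 * (576 * s ^ 2 * H))) :
    T / 24 - (D + hi) / (12 * M) - (C0 + c6 + l6 / 24) ≤ 576 * s ^ 2 * M ^ 2 * H := by
  have h1 : 0 < s * M ^ 2 := by positivity
  refine le_of_mul_le_mul_left ?_ h1
  have e1 : s * M ^ 2 * (T / 24 - (D + hi) / (12 * M) - (C0 + c6 + l6 / 24)) =
      s * M ^ 2 / 24 * (T - l6) - s * M / 12 * D - s * M ^ 2 * c6 - s * (M * (hi / 12)) -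
      s * (C0 * M ^ 2) := by
    field_simp
    ring
  have e2 : s * M ^ 2 * (576 * s ^ 2 * M ^ 2 * H) = s * (M ^ 4 * (576 * s ^ 2 * H)) := by ring
  rw [e1, e2]
  exact h

theorem main_ineq (hs : Specs.{u}) :
    ∃ C : ℝ, 0 ≤ C ∧ ∀ (W : WeierstrassCurve K) [W.IsElliptic] (P : W.toAffine.Point),
      (∀ n : ℤ, n ≠ 0 → n • P ≠ 0) → ∀ s N : ℕ, 1 ≤ s → 1 ≤ N →
        Ts W s / 24 - (logDisc W + hinf W) / (12 * (2 * N + 1)) - C ≤
          576 * (s : ℝ) ^ 2 * (2 * N + 1) ^ 2 * hhat P := by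
  classical
  obtain ⟨Cf, hCf⟩ := exists_Cf (K := K) hs
  obtain ⟨C0, hC0, one⟩ := one_q hs hCf
  have hfin := av_six_finite (K := K)
  obtain ⟨B6, hB6⟩ : ∃ B6 : Finset (HeightOneSpectrum (𝓞 K)), ∀ p, p ∈ B6 ↔ ¬ G6 p :=
    ⟨hfin.toFinset, fun p => by rw [Set.Finite.mem_toFinset]; exact Iff.rfl⟩
  have hl6 : 0 ≤ ∑ p ∈ B6, Real.log (Nm p) := Finset.sum_nonneg fun p _ =>
    Real.log_nonneg (one_lt_Nm p).le
  have hc6 : 0 ≤ ∑ p ∈ B6, Cf p := Finset.sum_nonneg fun p _ => hCf.1 p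
  refine ⟨C0 + ∑ p ∈ B6, Cf p + (∑ p ∈ B6, Real.log (Nm p)) / 24, by positivity, ?_⟩
  intro W _ P hP s N hs1 hN
  have hΔ : W.Δ ≠ 0 := W.isUnit_Δ.ne_zero
  obtain ⟨S, hS⟩ : ∃ S : Finset (HeightOneSpectrum (𝓞 K)), ∀ p,
      p ∈ S ↔ (¬ (IntegralAt (av p) W ∧ av p W.Δ = 1)) ∨ p ∈ B6 :=
    ⟨(good_finite hΔ).toFinset ∪ B6, fun p => by
      rw [Finset.mem_union, Set.Finite.mem_toFinset]; exact Iff.rfl⟩
  have hSg : ∀ p ∉ S, IntegralAt (av p) W ∧ av p W.Δ = 1 := by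
    intro p hp
    by_contra h
    exact hp ((hS p).2 (Or.inl h))
  have hSd : ∀ p ∉ S, dmin W p = 0 := fun p hp => dmin_eq_zero (hSg p hp).1 (hSg p hp).2
  have hB6S : B6 ⊆ S := fun p hp => (hS p).2 (Or.inr hp)
  have hH := hhat_nonneg W P
  have hspos : (0 : ℝ) < s := by exact_mod_cast hs1
  have h1 : ∀ q ∈ Finset.Ioc s (2 * s), ∑ p ∈ S, Bp Cf W p ((12 * q : ℕ) • P) N -
      (2 * N + 1) * (hinf W / 12) - C0 * (2 * N + 1) ^ 2 ≤
      (2 * N + 1) ^ 4 * (576 * (s : ℝ) ^ 2 * hhat P) := by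
    intro q hq
    rw [Finset.mem_Ioc] at hq
    refine (one W P hP S hSg q N (by omega)).trans ?_
    refine mul_le_mul_of_nonneg_left ?_ (by positivity)
    refine mul_le_mul_of_nonneg_right ?_ hH
    have h2 : (q : ℝ) ≤ 2 * s := by exact_mod_cast hq.2
    have h3 : (q : ℝ) ^ 2 ≤ (2 * s) ^ 2 := pow_le_pow_left₀ (Nat.cast_nonneg _) h2 2
    nlinarith
  have hcard : ((Finset.Ioc s (2 * s)).card : ℝ) = s := by
    rw [Nat.card_Ioc, show 2 * s - s = s by omega]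
  have h2 := Finset.sum_le_sum h1
  rw [Finset.sum_sub_distrib, Finset.sum_sub_distrib, Finset.sum_const, Finset.sum_const,
    Finset.sum_const, nsmul_eq_mul, nsmul_eq_mul, nsmul_eq_mul, hcard, Finset.sum_comm] at h2
  have h3 := MI2_sum hs hCf W P S hs1 hN
  have h4 := MI2_Ts hB6 hB6S hSd s
  rw [← logDisc_eq_sum hSd] at h3
  have h5 : ∑ p ∈ S, Cf p = ∑ p ∈ B6, Cf p := by
    refine (Finset.sum_subset hB6S fun p _ hp => ?_).symm
    refine hCf.2.1 p ?_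
    by_contra h
    exact hp ((hB6 p).2 h)
  rw [h5] at h3
  have h6 : (s : ℝ) * (2 * N + 1) ^ 2 / 24 * (Ts W s - ∑ p ∈ B6, Real.log (Nm p)) ≤
      (s : ℝ) * (2 * N + 1) ^ 2 / 24 * (∑ p ∈ S, (if G6 p ∧ dmin W p ≠ 0 ∧ dmin W p ≤ s
      then Real.log (Nm p) else 0)) := mul_le_mul_of_nonneg_left h4 (by positivity)
  refine MI2_arith hspos (by positivity) ?_
  linarith

end Pool.Agent.H38LS
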