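import Pool.Agent.Lib.H38LS.X2

set_option autoImplicit false

namespace Pool.Agent.H38LS

variable {K : Type*} [Field K] [DecidableEq K] {W : WeierstrassCurve K}

/-! Chunk P1 (M/L). The add-and-subtract map on actual points.

Proof. Cases. `P = 0`: `xr (0 + Q) = xr Q`, `xr (0 - Q) = xr (-Q) = xr Q`, and
`asm W (sym (1,0) (x,1)) = asm W (x, 1, 0) = (x², 2 x, 1) = sym (x,1) (x,1)` (`l = 1`); for `Q = 0`
too: `asm W (1,0,0) = (1,0,0)`. `Q = 0`: similar.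
Affine points `(x₁, y₁)`, `(x₂, y₂)`, `x₁ ≠ x₂`: with `n = (x₁ - x₂)²`,
`x(P ± Q) = l² + a₁ l - a₂ - x₁ - x₂`, slopes `(y₁ - y₂)/(x₁ - x₂)` and
`(y₁ + y₂ + a₁ x₂ + a₃)/(x₁ - x₂)` (`Q ↦ -Q`, `negY`): sum and product are the two quotients
`(asm …).2.1/n`, `(asm …).1/n` (`field_simp` and `linear_combination` of the two curve equations),
so `l = 1/n`.
`x₁ = x₂`: then `Q = P` or `Q = -P` (`WeierstrassCurve.Affine.Point.X_eq_iff`); by
`AddSub.symm_right`, `xr (-P) = xr P`, it is enough to treat `Q = P`, where `P - Q = 0`: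
`sym (xr (P+P)) (1,0) = xr (P+P)` and `asm W (sym p p) = (dup W p).1, (dup W p).2, 0`. If
`2 y + a₁ x + a₃ ≠ 0`: `dupZ = (2 y + a₁ x + a₃)²`, and `x(2P) = dupX/dupZ` with the tangent slope
(`add_self_of_Y_ne`, `slope_of_Y_ne`), `l = 1/dupZ`. If `2 y + a₁ x + a₃ = 0`: `P + P = 0`
(`add_self_of_Y_eq`), `dupZ = 0` and `dupX ≠ 0` by `asm_ne_zero`, `l = 1/dupX`. -/

omit [DecidableEq K] in
private lemma p1_xr_ne_zero (P : W.toAffine.Point) : xr P ≠ 0 := by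
  rcases P with _ | ⟨x, y, h⟩
  · intro h0
    exact one_ne_zero (congrArg Prod.fst h0)
  · intro h0
    exact one_ne_zero (congrArg Prod.snd h0)

omit [DecidableEq K] in
private lemma p1_xr_neg (P : W.toAffine.Point) : xr (-P) = xr P := by
  rcases P with _ | ⟨x, y, h⟩ <;> rfl

omit [DecidableEq K] in
private lemma p1_xr_zero : xr (0 : W.toAffine.Point) = (1, 0) := rfl

omit [DecidableEq K] in
private lemma p1_xr_some {x y : K} (h : W.toAffine.Nonsingular x y) :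
    xr (WeierstrassCurve.Affine.Point.some x y h) = (x, 1) := rfl

omit [DecidableEq K] in
private lemma p1_div {a1 a2 x x' N D : K} (hD : D ≠ 0) :
    (N / D) ^ 2 + a1 * (N / D) - a2 - x - x' =
      (D ^ 2)⁻¹ * (N ^ 2 + a1 * N * D - (a2 + x + x') * D ^ 2) := by
  field_simp
  ring

omit [DecidableEq K] in
private lemma p1_sum {a1 a2 a3 a4 a6 x1 x2 y1 y2 : K}
    (e1 : y1 ^ 2 + a1 * x1 * y1 + a3 * y1 = x1 ^ 3 + a2 * x1 ^ 2 + a4 * x1 + a6)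
    (e2 : y2 ^ 2 + a1 * x2 * y2 + a3 * y2 = x2 ^ 3 + a2 * x2 ^ 2 + a4 * x2 + a6) :
    ((y1 - y2) ^ 2 + a1 * (y1 - y2) * (x1 - x2) - (a2 + x1 + x2) * (x1 - x2) ^ 2) +
      ((y1 - (-y2 - a1 * x2 - a3)) ^ 2 + a1 * (y1 - (-y2 - a1 * x2 - a3)) * (x1 - x2) -
        (a2 + x1 + x2) * (x1 - x2) ^ 2) =
      2 * (x1 + x2) * (x1 * x2) + (a1 ^ 2 + 4 * a2) * (x1 * x2) +
        (2 * a4 + a1 * a3) * (x1 + x2) + (a3 ^ 2 + 4 * a6) := by
  linear_combination 2 * e1 + 2 * e2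

omit [DecidableEq K] in
private lemma p1_prod {a1 a2 a3 a4 a6 x1 x2 y1 y2 : K}
    (e1 : y1 ^ 2 + a1 * x1 * y1 + a3 * y1 = x1 ^ 3 + a2 * x1 ^ 2 + a4 * x1 + a6)
    (e2 : y2 ^ 2 + a1 * x2 * y2 + a3 * y2 = x2 ^ 3 + a2 * x2 ^ 2 + a4 * x2 + a6) :
    ((y1 - y2) ^ 2 + a1 * (y1 - y2) * (x1 - x2) - (a2 + x1 + x2) * (x1 - x2) ^ 2) *
      ((y1 - (-y2 - a1 * x2 - a3)) ^ 2 + a1 * (y1 - (-y2 - a1 * x2 - a3)) * (x1 - x2) -
        (a2 + x1 + x2) * (x1 - x2) ^ 2) =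
      (x1 - x2) ^ 2 * ((x1 * x2) ^ 2 - (2 * a4 + a1 * a3) * (x1 * x2) -
        (a3 ^ 2 + 4 * a6) * (x1 + x2) -
        (a1 ^ 2 * a6 + 4 * a2 * a6 - a1 * a3 * a4 + a2 * a3 ^ 2 - a4 ^ 2)) := by
  have h : ((y1 - y2) ^ 2 + a1 * (y1 - y2) * (x1 - x2) - (a2 + x1 + x2) * (x1 - x2) ^ 2) *
      ((y1 - (-y2 - a1 * x2 - a3)) ^ 2 + a1 * (y1 - (-y2 - a1 * x2 - a3)) * (x1 - x2) -
        (a2 + x1 + x2) * (x1 - x2) ^ 2) =
      ((y1 ^ 2 + a1 * x1 * y1 + a3 * y1) + (y2 ^ 2 + a1 * x2 * y2 + a3 * y2) -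
          (a2 + x1 + x2) * (x1 - x2) ^ 2) ^ 2 +
        ((y1 ^ 2 + a1 * x1 * y1 + a3 * y1) + (y2 ^ 2 + a1 * x2 * y2 + a3 * y2) -
          (a2 + x1 + x2) * (x1 - x2) ^ 2) * ((a1 * x1 + a3) * (a1 * x2 + a3)) -
        4 * (y1 ^ 2 + a1 * x1 * y1 + a3 * y1) * (y2 ^ 2 + a1 * x2 * y2 + a3 * y2) -
        (y1 ^ 2 + a1 * x1 * y1 + a3 * y1) * (a1 * x2 + a3) ^ 2 -
        (y2 ^ 2 + a1 * x2 * y2 + a3 * y2) * (a1 * x1 + a3) ^ 2 := by
    ring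
  rw [h, e1, e2]
  ring

omit [DecidableEq K] in
private lemma p1_dupZ {a1 a2 a3 a4 a6 x y : K}
    (e : y ^ 2 + a1 * x * y + a3 * y = x ^ 3 + a2 * x ^ 2 + a4 * x + a6) :
    (y - (-y - a1 * x - a3)) ^ 2 =
      4 * x ^ 3 + (a1 ^ 2 + 4 * a2) * x ^ 2 + 2 * (2 * a4 + a1 * a3) * x +
        (a3 ^ 2 + 4 * a6) := by
  linear_combination 4 * e

omit [DecidableEq K] in
private lemma p1_dupX {a1 a2 a3 a4 a6 x y : K}
    (e : y ^ 2 + a1 * x * y + a3 * y = x ^ 3 + a2 * x ^ 2 + a4 * x + a6) :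
    (3 * x ^ 2 + 2 * a2 * x + a4 - a1 * y) ^ 2 +
      a1 * (3 * x ^ 2 + 2 * a2 * x + a4 - a1 * y) * (y - (-y - a1 * x - a3)) -
      (a2 + x + x) * (y - (-y - a1 * x - a3)) ^ 2 =
      x ^ 4 - (2 * a4 + a1 * a3) * x ^ 2 - 2 * (a3 ^ 2 + 4 * a6) * x -
        (a1 ^ 2 * a6 + 4 * a2 * a6 - a1 * a3 * a4 + a2 * a3 ^ 2 - a4 ^ 2) := by
  linear_combination (-a1 ^ 2 - 4 * (a2 + 2 * x)) * e

private lemma p1_self (hW : W.Δ ≠ 0) (P : W.toAffine.Point) :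
    AddSub W (xr P) (xr P) (xr (P + P)) (1, 0) := by
  have h10 : ((1 : K), (0 : K)) ≠ 0 := fun h0 => one_ne_zero (congrArg Prod.fst h0)
  refine ⟨p1_xr_ne_zero P, p1_xr_ne_zero P, p1_xr_ne_zero _, h10, ?_⟩
  rw [sym_inf, asm_sym_self]
  have hdup : dup W (xr P) ≠ 0 := dup_ne_zero hW (p1_xr_ne_zero P)
  suffices hs : ∃ l : K, l ≠ 0 ∧ xr (P + P) = l • dup W (xr P) by
    obtain ⟨l, hl, h⟩ := hs
    refine ⟨l, hl, ?_⟩
    rw [h]
    simp only [Prod.smul_mk, Prod.smul_fst, Prod.smul_snd, smul_zero]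
  rcases P with _ | ⟨x, y, h⟩
  · refine ⟨1, one_ne_zero, ?_⟩
    rw [← WeierstrassCurve.Affine.Point.zero_def, add_zero, one_smul, p1_xr_zero]
    simp [dup, dupX, dupZ]
  · have heq : y ^ 2 + W.a₁ * x * y + W.a₃ * y = x ^ 3 + W.a₂ * x ^ 2 + W.a₄ * x + W.a₆ :=
      (WeierstrassCurve.Affine.equation_iff _ _).mp h.1
    have hZ : dupZ W x 1 = (y - (-y - W.a₁ * x - W.a₃)) ^ 2 := by
      rw [p1_dupZ heq, dupZ, WeierstrassCurve.b₂, WeierstrassCurve.b₄, WeierstrassCurve.b₆]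
      ring
    have hX : dupX W x 1 = (3 * x ^ 2 + 2 * W.a₂ * x + W.a₄ - W.a₁ * y) ^ 2 +
        W.a₁ * (3 * x ^ 2 + 2 * W.a₂ * x + W.a₄ - W.a₁ * y) * (y - (-y - W.a₁ * x - W.a₃)) -
        (W.a₂ + x + x) * (y - (-y - W.a₁ * x - W.a₃)) ^ 2 := by
      rw [p1_dupX heq, dupX, WeierstrassCurve.b₄, WeierstrassCurve.b₆, WeierstrassCurve.b₈]
      ring
    by_cases hy : y = W.toAffine.negY x y
    · rw [WeierstrassCurve.Affine.Point.add_self_of_Y_eq hy, p1_xr_zero, p1_xr_some]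
      have hD : y - (-y - W.a₁ * x - W.a₃) = 0 := sub_eq_zero.mpr hy
      rw [hD] at hZ
      have hZ0 : dupZ W x 1 = 0 := by rw [hZ]; ring
      have hX0 : dupX W x 1 ≠ 0 := by
        intro h0
        apply hdup
        rw [p1_xr_some]
        exact Prod.ext h0 hZ0
      refine ⟨(dupX W x 1)⁻¹, inv_ne_zero hX0, ?_⟩
      refine Prod.ext ?_ ?_
      · show (1 : K) = (dupX W x 1)⁻¹ • dupX W x 1
        rw [smul_eq_mul, inv_mul_cancel₀ hX0]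
      · show (0 : K) = (dupX W x 1)⁻¹ • dupZ W x 1
        rw [hZ0, smul_zero]
    · rw [WeierstrassCurve.Affine.Point.add_self_of_Y_ne hy, p1_xr_some, p1_xr_some]
      have hD : y - (-y - W.a₁ * x - W.a₃) ≠ 0 := sub_ne_zero.mpr hy
      have hZ0 : dupZ W x 1 ≠ 0 := by rw [hZ]; exact pow_ne_zero 2 hD
      refine ⟨(dupZ W x 1)⁻¹, inv_ne_zero hZ0, ?_⟩
      refine Prod.ext ?_ ?_
      · show W.toAffine.addX x x (W.toAffine.slope x x y y) = (dupZ W x 1)⁻¹ • dupX W x 1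
        rw [WeierstrassCurve.Affine.slope_of_Y_ne rfl hy, WeierstrassCurve.Affine.addX,
          WeierstrassCurve.Affine.negY, smul_eq_mul, hX, hZ]
        exact p1_div hD
      · show (1 : K) = (dupZ W x 1)⁻¹ • dupZ W x 1
        rw [smul_eq_mul, inv_mul_cancel₀ hZ0]

omit [DecidableEq K] in
private lemma p1_inf (P : W.toAffine.Point) : AddSub W (1, 0) (xr P) (xr P) (xr P) := by
  have h10 : ((1 : K), (0 : K)) ≠ 0 := fun h0 => one_ne_zero (congrArg Prod.fst h0)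
  refine ⟨h10, p1_xr_ne_zero P, p1_xr_ne_zero P, p1_xr_ne_zero P, 1, one_ne_zero, ?_⟩
  rcases P with _ | ⟨x, y, h⟩
  · rw [← WeierstrassCurve.Affine.Point.zero_def, p1_xr_zero]
    simp [sym, asm]
  · rw [p1_xr_some, one_smul]
    refine Prod.ext ?_ (Prod.ext ?_ ?_) <;> simp only [sym, asm] <;> ring

theorem addSub_xr (hW : W.Δ ≠ 0) (P Q : W.toAffine.Point) :
    AddSub W (xr P) (xr Q) (xr (P + Q)) (xr (P - Q)) := by
  rcases P with _ | ⟨x₁, y₁, h₁⟩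
  · rw [← WeierstrassCurve.Affine.Point.zero_def, zero_add, zero_sub, p1_xr_neg, p1_xr_zero]
    exact p1_inf Q
  · rcases Q with _ | ⟨x₂, y₂, h₂⟩
    · rw [← WeierstrassCurve.Affine.Point.zero_def, add_zero, sub_zero, p1_xr_zero]
      exact (p1_inf _).symm_left
    · by_cases hx : x₁ = x₂
      · rcases WeierstrassCurve.Affine.Point.X_eq_iff.mp hx with h | h
        · rw [← h, sub_self, p1_xr_zero]
          exact p1_self hW _
        · have h' : WeierstrassCurve.Affine.Point.some x₂ y₂ h₂ =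
              -WeierstrassCurve.Affine.Point.some x₁ y₁ h₁ := by rw [h, neg_neg]
          rw [h', sub_neg_eq_add, add_neg_cancel, p1_xr_zero, p1_xr_neg]
          exact (p1_self hW _).symm_right
      · have e1 : y₁ ^ 2 + W.a₁ * x₁ * y₁ + W.a₃ * y₁ =
            x₁ ^ 3 + W.a₂ * x₁ ^ 2 + W.a₄ * x₁ + W.a₆ :=
          (WeierstrassCurve.Affine.equation_iff _ _).mp h₁.1
        have e2 : y₂ ^ 2 + W.a₁ * x₂ * y₂ + W.a₃ * y₂ =
            x₂ ^ 3 + W.a₂ * x₂ ^ 2 + W.a₄ * x₂ + W.a₆ :=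
          (WeierstrassCurve.Affine.equation_iff _ _).mp h₂.1
        refine ⟨p1_xr_ne_zero _, p1_xr_ne_zero _, p1_xr_ne_zero _, p1_xr_ne_zero _, ?_⟩
        rw [sub_eq_add_neg, WeierstrassCurve.Affine.Point.neg_some,
          WeierstrassCurve.Affine.Point.add_of_X_ne hx,
          WeierstrassCurve.Affine.Point.add_of_X_ne hx, p1_xr_some, p1_xr_some, p1_xr_some,
          p1_xr_some, WeierstrassCurve.Affine.slope_of_X_ne hx,
          WeierstrassCurve.Affine.slope_of_X_ne hx, WeierstrassCurve.Affine.addX,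
          WeierstrassCurve.Affine.addX, WeierstrassCurve.Affine.negY]
        have hd : x₁ - x₂ ≠ 0 := sub_ne_zero.mpr hx
        have hs := p1_sum e1 e2
        have hp := p1_prod e1 e2
        refine ⟨((x₁ - x₂) ^ 2)⁻¹, inv_ne_zero (pow_ne_zero 2 hd), ?_⟩
        have hA : ((y₁ - y₂) / (x₁ - x₂)) ^ 2 + W.a₁ * ((y₁ - y₂) / (x₁ - x₂)) - W.a₂ - x₁ - x₂ =
            ((y₁ - y₂) ^ 2 + W.a₁ * (y₁ - y₂) * (x₁ - x₂) -
              (W.a₂ + x₁ + x₂) * (x₁ - x₂) ^ 2) * ((x₁ - x₂) ^ 2)⁻¹ := by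
          rw [p1_div hd, mul_comm]
        have hB : ((y₁ - (-y₂ - W.a₁ * x₂ - W.a₃)) / (x₁ - x₂)) ^ 2 +
            W.a₁ * ((y₁ - (-y₂ - W.a₁ * x₂ - W.a₃)) / (x₁ - x₂)) - W.a₂ - x₁ - x₂ =
            ((y₁ - (-y₂ - W.a₁ * x₂ - W.a₃)) ^ 2 +
              W.a₁ * (y₁ - (-y₂ - W.a₁ * x₂ - W.a₃)) * (x₁ - x₂) -
              (W.a₂ + x₁ + x₂) * (x₁ - x₂) ^ 2) * ((x₁ - x₂) ^ 2)⁻¹ := by
          rw [p1_div hd, mul_comm]
        rw [hA, hB]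
        have hn : (x₁ - x₂) ^ 2 * ((x₁ - x₂) ^ 2)⁻¹ = 1 :=
          mul_inv_cancel₀ (pow_ne_zero 2 hd)
        generalize hF : ((y₁ - y₂) ^ 2 + W.a₁ * (y₁ - y₂) * (x₁ - x₂) -
              (W.a₂ + x₁ + x₂) * (x₁ - x₂) ^ 2) = F at hs hp ⊢
        generalize hG : ((y₁ - (-y₂ - W.a₁ * x₂ - W.a₃)) ^ 2 +
              W.a₁ * (y₁ - (-y₂ - W.a₁ * x₂ - W.a₃)) * (x₁ - x₂) -
              (W.a₂ + x₁ + x₂) * (x₁ - x₂) ^ 2) = G at hs hp ⊢
        generalize hN : ((x₁ - x₂) ^ 2)⁻¹ = N at hn ⊢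
        refine Prod.ext ?_ (Prod.ext ?_ ?_)
        · simp only [sym, asm, Prod.smul_mk, smul_eq_mul, WeierstrassCurve.b₄,
            WeierstrassCurve.b₆, WeierstrassCurve.b₈]
          linear_combination N ^ 2 * hp + N * ((x₁ * x₂) ^ 2 -
            (2 * W.a₄ + W.a₁ * W.a₃) * (x₁ * x₂) - (W.a₃ ^ 2 + 4 * W.a₆) * (x₁ + x₂) -
            (W.a₁ ^ 2 * W.a₆ + 4 * W.a₂ * W.a₆ - W.a₁ * W.a₃ * W.a₄ + W.a₂ * W.a₃ ^ 2 -
              W.a₄ ^ 2)) * hn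
        · simp only [sym, asm, Prod.smul_mk, smul_eq_mul, WeierstrassCurve.b₂,
            WeierstrassCurve.b₄, WeierstrassCurve.b₆]
          linear_combination N * hs
        · simp only [sym, asm, Prod.smul_mk, smul_eq_mul]
          linear_combination -hn

end Pool.Agent.H38LS
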