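import Pool.Agent.Lib.H38LS.X1

set_option autoImplicit false

namespace Pool.Agent.H38LS

variable {K : Type*} [Field K] [CharZero K]

/-! Chunk T2 (S/M). The same change of coordinates for `AddSub`: with `M (X, Z) = (c X + r Z, Z)`
one has `sym (M p) (M q) = M₂ (sym p q)`, `M₂ (s, t', u) = (c² s + c r t' + r² u, c t' + 2 r u, u)`,
and `asm W (M₂ s) = c ^ 2 • M₂ (asm (Et t) s)` (identities of chunk T1 for the `b`'s; clear the
denominators `c₄`, `c₆`, use `c_relation`; `field_simp` and `ring`/`linear_combination`). `M₂` is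
invertible and linear, `nrm W` is the inverse of `M`. -/

private theorem T2_b2 {W : WeierstrassCurve K} (h4 : W.c₄ ≠ 0) :
    W.b₂ = cc W - 12 * rr W := by
  have e2 : W.b₂ * W.c₄ = -W.c₆ - 12 * (18 * W.b₆ - W.b₂ * W.b₄) := by
    simp only [WeierstrassCurve.c₄, WeierstrassCurve.c₆]
    ring
  simp only [cc, rr]
  field_simp
  linear_combination e2

private theorem T2_b8 (W : WeierstrassCurve K) : W.b₈ = (W.b₂ * W.b₆ - W.b₄ ^ 2) / 4 := by
  have h := W.b_relation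
  have h4 : (4 : K) ≠ 0 := by norm_num
  field_simp
  linear_combination h

private theorem T2_b4 {W : WeierstrassCurve K} (h4 : W.c₄ ≠ 0) (h6 : W.c₆ ≠ 0) :
    W.b₄ = -72 * tt W * cc W ^ 2 - rr W * W.b₂ - 6 * rr W ^ 2 := by
  have h8 := T2_b8 W
  have e1 : tt W * cc W ^ 2 = W.Δ / W.c₄ ^ 2 := by
    simp only [tt, cc]
    field_simp
  have e2 : W.b₄ * W.c₄ ^ 2 + (18 * W.b₆ - W.b₂ * W.b₄) * W.b₂ * W.c₄ +
      6 * (18 * W.b₆ - W.b₂ * W.b₄) ^ 2 = -72 * W.Δ := by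
    simp only [WeierstrassCurve.Δ, WeierstrassCurve.c₄, h8]
    ring
  have e3 : W.b₄ = -72 * (W.Δ / W.c₄ ^ 2) - rr W * W.b₂ - 6 * rr W ^ 2 := by
    simp only [rr]
    field_simp
    linear_combination e2
  rw [← e1] at e3
  linear_combination e3

private theorem T2_b6 {W : WeierstrassCurve K} (h4 : W.c₄ ≠ 0) (h6 : W.c₆ ≠ 0) :
    W.b₆ = -4 * tt W * cc W ^ 3 - 2 * rr W * W.b₄ - rr W ^ 2 * W.b₂ - 4 * rr W ^ 3 := by
  have h8 := T2_b8 W
  have e1 : tt W * cc W ^ 3 = -(W.Δ * W.c₆) / W.c₄ ^ 3 := by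
    simp only [tt, cc]
    field_simp
  have e2 : W.b₆ * W.c₄ ^ 3 + 2 * (18 * W.b₆ - W.b₂ * W.b₄) * W.b₄ * W.c₄ ^ 2 +
      (18 * W.b₆ - W.b₂ * W.b₄) ^ 2 * W.b₂ * W.c₄ +
      4 * (18 * W.b₆ - W.b₂ * W.b₄) ^ 3 = 4 * (W.Δ * W.c₆) := by
    simp only [WeierstrassCurve.Δ, WeierstrassCurve.c₄, WeierstrassCurve.c₆, h8]
    ring
  have e3 : W.b₆ = -4 * (-(W.Δ * W.c₆) / W.c₄ ^ 3) - 2 * rr W * W.b₄ - rr W ^ 2 * W.b₂ -
      4 * rr W ^ 3 := by
    simp only [rr]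
    field_simp
    linear_combination e2
  rw [← e1] at e3
  linear_combination e3

private theorem T2_asm {W : WeierstrassCurve K} (h4 : W.c₄ ≠ 0) (h6 : W.c₆ ≠ 0)
    (s t' u : K) :
    asm W (cc W ^ 2 * s + cc W * rr W * t' + rr W ^ 2 * u, cc W * t' + 2 * rr W * u, u) =
      (cc W ^ 2 * (cc W ^ 2 * (asm (Et (tt W)) (s, t', u)).1 +
          cc W * rr W * (asm (Et (tt W)) (s, t', u)).2.1 +
          rr W ^ 2 * (asm (Et (tt W)) (s, t', u)).2.2),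
        cc W ^ 2 * (cc W * (asm (Et (tt W)) (s, t', u)).2.1 +
          2 * rr W * (asm (Et (tt W)) (s, t', u)).2.2),
        cc W ^ 2 * (asm (Et (tt W)) (s, t', u)).2.2) := by
  have h8 := T2_b8 W
  have h2 := T2_b2 h4
  have h4' := T2_b4 h4 h6
  have h6' := T2_b6 h4 h6
  have E2 : (Et (tt W)).b₂ = 1 := by simp [Et, WeierstrassCurve.b₂]
  have E4 : (Et (tt W)).b₄ = -72 * tt W := by
    simp only [Et, WeierstrassCurve.b₄]
    ring
  have E6 : (Et (tt W)).b₆ = -4 * tt W := by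
    simp only [Et, WeierstrassCurve.b₆]
    ring
  have E8 : (Et (tt W)).b₈ = -tt W - 1296 * tt W ^ 2 := by
    simp only [Et, WeierstrassCurve.b₈]
    ring
  simp only [asm, E2, E4, E6, E8]
  rw [h8, h6', h4', h2]
  refine Prod.ext ?_ (Prod.ext ?_ ?_)
  · ring
  · ring
  · ring

private theorem T2_cc {W : WeierstrassCurve K} (h4 : W.c₄ ≠ 0) (h6 : W.c₆ ≠ 0) : cc W ≠ 0 :=
  div_ne_zero (neg_ne_zero.mpr h6) h4

private theorem T2_nrm {W : WeierstrassCurve K} (h4 : W.c₄ ≠ 0) (h6 : W.c₆ ≠ 0) (p : K × K) :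
    p = (cc W * (nrm W p).1 + rr W * (nrm W p).2, (nrm W p).2) := by
  have hc := T2_cc h4 h6
  refine Prod.ext ?_ rfl
  simp only [nrm]
  field_simp
  ring

private theorem T2_sym {W : WeierstrassCurve K} (h4 : W.c₄ ≠ 0) (h6 : W.c₆ ≠ 0) (p q : K × K) :
    sym p q = (cc W ^ 2 * (sym (nrm W p) (nrm W q)).1 +
        cc W * rr W * (sym (nrm W p) (nrm W q)).2.1 +
        rr W ^ 2 * (sym (nrm W p) (nrm W q)).2.2,
      cc W * (sym (nrm W p) (nrm W q)).2.1 + 2 * rr W * (sym (nrm W p) (nrm W q)).2.2,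
      (sym (nrm W p) (nrm W q)).2.2) := by
  conv_lhs => rw [T2_nrm h4 h6 p, T2_nrm h4 h6 q]
  simp only [sym]
  refine Prod.ext ?_ (Prod.ext ?_ rfl)
  · ring
  · ring

theorem nrm_ne_zero {W : WeierstrassCurve K} (h4 : W.c₄ ≠ 0) (h6 : W.c₆ ≠ 0) {p : K × K}
    (hp : p ≠ 0) : nrm W p ≠ 0 := by
  intro h
  apply hp
  rw [T2_nrm h4 h6 p, h]
  simp

theorem addSub_nrm {W : WeierstrassCurve K} (h4 : W.c₄ ≠ 0) (h6 : W.c₆ ≠ 0)
    {p q r₁ r₂ : K × K} (h : AddSub W p q r₁ r₂) :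
    AddSub (Et (tt W)) (nrm W p) (nrm W q) (nrm W r₁) (nrm W r₂) := by
  obtain ⟨hp, hq, h1, h2, l, hl, e⟩ := h
  have hc := T2_cc h4 h6
  refine ⟨nrm_ne_zero h4 h6 hp, nrm_ne_zero h4 h6 hq, nrm_ne_zero h4 h6 h1,
    nrm_ne_zero h4 h6 h2, l * cc W ^ 2, mul_ne_zero hl (pow_ne_zero 2 hc), ?_⟩
  rw [T2_sym h4 h6 r₁ r₂, T2_sym h4 h6 p q, T2_asm h4 h6] at e
  have e1 := congrArg Prod.fst e
  have e2 := congrArg (fun z => z.2.1) e
  have e3 := congrArg (fun z => z.2.2) e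
  simp only [Prod.smul_mk, smul_eq_mul] at e1 e2 e3
  set S := sym (nrm W r₁) (nrm W r₂) with hS
  have hA : (asm (Et (tt W)) ((sym (nrm W p) (nrm W q)).1, (sym (nrm W p) (nrm W q)).2.1,
    (sym (nrm W p) (nrm W q)).2.2)) = asm (Et (tt W)) (sym (nrm W p) (nrm W q)) := rfl
  rw [hA] at e1 e2 e3
  set A := asm (Et (tt W)) (sym (nrm W p) (nrm W q)) with hAA
  have f3 : S.2.2 = l * cc W ^ 2 * A.2.2 := by linear_combination e3
  have f2 : S.2.1 = l * cc W ^ 2 * A.2.1 := by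
    have : cc W * S.2.1 = cc W * (l * cc W ^ 2 * A.2.1) := by
      linear_combination e2 - 2 * rr W * e3
    exact mul_left_cancel₀ hc this
  have f1 : S.1 = l * cc W ^ 2 * A.1 := by
    have : cc W ^ 2 * S.1 = cc W ^ 2 * (l * cc W ^ 2 * A.1) := by
      linear_combination e1 - cc W * rr W * f2 - rr W ^ 2 * f3
    exact mul_left_cancel₀ (pow_ne_zero 2 hc) this
  exact Prod.ext f1 (Prod.ext f2 f3)

/-- `dupZ` in the normalised coordinate. -/
theorem dupZ_nrm {W : WeierstrassCurve K} (h4 : W.c₄ ≠ 0) (h6 : W.c₆ ≠ 0) (x : K) :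
    dupZ W x 1 = cc W ^ 3 * dupZ (Et (tt W)) ((x - rr W) / cc W) 1 := by
  have hc := T2_cc h4 h6
  have h2 := T2_b2 h4
  have h4' := T2_b4 h4 h6
  have h6' := T2_b6 h4 h6
  have E2 : (Et (tt W)).b₂ = 1 := by simp [Et, WeierstrassCurve.b₂]
  have E4 : (Et (tt W)).b₄ = -72 * tt W := by
    simp only [Et, WeierstrassCurve.b₄]
    ring
  have E6 : (Et (tt W)).b₆ = -4 * tt W := by
    simp only [Et, WeierstrassCurve.b₆]
    ring
  simp only [dupZ, E2, E4, E6]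
  rw [h6', h4', h2]
  field_simp
  ring

end Pool.Agent.H38LS
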