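import Pool.Agent.Lib.H38LS.LocalSpec
import Pool.Agent.Lib.H38LS.P2
import Pool.Agent.Lib.H38LS.T2
import Pool.Agent.Lib.H38LS.X4
import Pool.Agent.Lib.H38LS.DD2

set_option autoImplicit false

namespace Pool.Agent.H38LS

universe u

variable {K : Type u} [Field K] [NumberField K] [DecidableEq K] {W : WeierstrassCurve K}
  [W.IsElliptic]

/-- The invariant `al` of a point. -/
noncomputable def aP (v : AbsoluteValue K ℝ) (L : ℝ) (P : W.toAffine.Point) : ℝ :=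
  al v L (nrm W (xr P))

/-! Chunk S1 (S/M). The multiset lemma for points: `addSub_xr`, `addSub_nrm`, `tt_value` and
`Spec.A2` (`- log |t| = log |j|`). -/

theorem aP_zero (v : AbsoluteValue K ℝ) (L : ℝ) (h4 : W.c₄ ≠ 0) (h6 : W.c₆ ≠ 0) :
    aP v L (0 : W.toAffine.Point) = 0 := by
  have hc : (cc W)⁻¹ ≠ 0 := inv_ne_zero (div_ne_zero (neg_ne_zero.mpr h6) h4)
  have e : nrm W (xr (0 : W.toAffine.Point)) = (cc W)⁻¹ • ((1, 0) : K × K) := by
    rw [xr_zero]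
    refine Prod.ext ?_ ?_
    · simp [nrm]
    · simp [nrm]
  unfold aP
  rw [e, al_smul v L hc, al_inf]

theorem aP_mem (v : AbsoluteValue K ℝ) {L : ℝ} (hL : 0 ≤ L) (h4 : W.c₄ ≠ 0) (h6 : W.c₆ ≠ 0)
    (P : W.toAffine.Point) : 0 ≤ aP v L P ∧ aP v L P ≤ L / 2 := by
  exact al_mem v hL (nrm_ne_zero h4 h6 (xr_ne_zero P))

theorem aP_neg (v : AbsoluteValue K ℝ) (L : ℝ) (P : W.toAffine.Point) :
    aP v L (-P) = aP v L P := by
  unfold aP
  rw [xr_neg]

theorem aP_multiset (hA2 : Spec.A2.{u}) {v : AbsoluteValue K ℝ} (hv : IsNonarchimedean v)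
    (h : 1 < v W.j) {L : ℝ} (hL : L = Real.log (v W.j)) (P Q : W.toAffine.Point) :
    (aP v L (P + Q) = |aP v L P - aP v L Q| ∧ aP v L (P - Q) = fold L (aP v L P + aP v L Q)) ∨
    (aP v L (P - Q) = |aP v L P - aP v L Q| ∧ aP v L (P + Q) = fold L (aP v L P + aP v L Q)) := by
  obtain ⟨h4, h6, ht, -⟩ := tt_value (W := W) hv h
  have hΔ : W.Δ ≠ 0 := W.isUnit_Δ.ne_zero
  have h0 : 0 < v W.j := lt_trans one_pos h
  have ht0 : 0 < v (tt W) := by
    rw [ht]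
    exact inv_pos.mpr h0
  have ht1 : v (tt W) < 1 := by
    rw [ht]
    exact inv_lt_one_of_one_lt₀ h
  have hL' : L = -Real.log (v (tt W)) := by
    rw [hL, ht, Real.log_inv, neg_neg]
  exact hA2 K v hv (tt W) ht0 ht1 L hL' _ _ _ _ (addSub_nrm h4 h6 (addSub_xr hΔ P Q))

end Pool.Agent.H38LS
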