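import Pool.Agent.Lib.H38LS.S1

set_option autoImplicit false

namespace Pool.Agent.H38LS

universe u

variable {K : Type u} [Field K] [NumberField K] [DecidableEq K] {W : WeierstrassCurve K}
  [W.IsElliptic]

/-- A number `L k + y` or `L k - y` with `0 ≤ y ≤ L / 2` has distance `y` to the multiples of `L`. -/
private theorem S2_dist {L x y : ℝ} (hL : 0 < L) (hy0 : 0 ≤ y) (hy : y ≤ L / 2) (k : ℤ)
    (h : x = L * k + y ∨ x = L * k - y) : |x - L * round (x / L)| = y := by
  have hxk : |x - L * k| = y := by
    rcases h with h | h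
    · rw [h, add_sub_cancel_left, abs_of_nonneg hy0]
    · rw [h, sub_sub_cancel_left, abs_neg, abs_of_nonneg hy0]
  apply le_antisymm
  · have h1 := round_le (x / L) k
    have e1 : x - L * round (x / L) = L * (x / L - round (x / L)) := by
      field_simp
    have e2 : x - L * k = L * (x / L - k) := by
      field_simp
    rw [← hxk, e1, e2, abs_mul, abs_mul]
    exact mul_le_mul_of_nonneg_left h1 (abs_nonneg _)
  · obtain ⟨m, hm⟩ : ∃ m : ℤ, m = round (x / L) := ⟨_, rfl⟩
    rw [← hm]
    rcases eq_or_ne k m with hkm | hkm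
    · rw [← hkm, hxk]
    · have h1 : (1 : ℝ) ≤ |((k : ℝ) - m)| := by
        have h2 : 1 ≤ |k - m| := Int.one_le_abs (sub_ne_zero.mpr hkm)
        have h3 : ((1 : ℤ) : ℝ) ≤ ((|k - m| : ℤ) : ℝ) := by exact_mod_cast h2
        simpa using h3
      have h2 : L ≤ |L * ((k : ℝ) - m)| := by
        rw [abs_mul, abs_of_pos hL]
        nlinarith
      have h3 : L * ((k : ℝ) - m) = (x - L * m) - (x - L * k) := by ring
      have h4 : |L * ((k : ℝ) - m)| ≤ |x - L * m| + |x - L * k| := by
        rw [h3]
        exact abs_sub _ _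
      rw [hxk] at h4
      linarith

private theorem S2_exists {L : ℝ} (hL : 0 < L) (x : ℝ) :
    ∃ k : ℤ, x = L * k + |x - L * round (x / L)| ∨ x = L * k - |x - L * round (x / L)| := by
  refine ⟨round (x / L), ?_⟩
  rcases abs_choice (x - L * round (x / L)) with h | h
  · left
    rw [h]
    ring
  · right
    rw [h]
    ring

private theorem S2_le {L : ℝ} (hL : 0 < L) (x : ℝ) : |x - L * round (x / L)| ≤ L / 2 := by
  have h1 := abs_sub_round (x / L)
  have e1 : x - L * round (x / L) = L * (x / L - round (x / L)) := by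
    field_simp
  rw [e1, abs_mul, abs_of_pos hL]
  nlinarith

private theorem S2_fold {L c : ℝ} (hL : 0 < L) (h0 : 0 ≤ c) (hc : c ≤ L) :
    0 ≤ fold L c ∧ fold L c ≤ L / 2 := by
  unfold fold
  constructor
  · exact le_min h0 (by linarith)
  · rcases le_total c (L / 2) with h | h
    · exact (min_le_left _ _).trans h
    · exact (min_le_right _ _).trans (by linarith)

private theorem S2_abs {L a b : ℝ} (ha0 : 0 ≤ a) (ha : a ≤ L / 2) (hb0 : 0 ≤ b) (hb : b ≤ L / 2) :
    |b - a| ≤ L / 2 := by
  rw [abs_le]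
  constructor <;> linarith

/-- the two neighbours of a number `x` at distance `b` from the multiples of `L` -/
private theorem S2_pair {L a b x : ℝ} (hL : 0 < L) (ha0 : 0 ≤ a) (ha : a ≤ L / 2)
    (hb : b = |x - L * round (x / L)|) :
    (|(x + a) - L * round ((x + a) / L)| = fold L (b + a) ∧
      |(x - a) - L * round ((x - a) / L)| = |b - a|) ∨
    (|(x + a) - L * round ((x + a) / L)| = |b - a| ∧
      |(x - a) - L * round ((x - a) / L)| = fold L (b + a)) := by
  have hb0 : 0 ≤ b := hb ▸ abs_nonneg _
  have hbL : b ≤ L / 2 := hb ▸ S2_le hL x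
  obtain ⟨f0, f1⟩ := S2_fold (c := b + a) hL (by linarith) (by linarith)
  have g1 := S2_abs ha0 ha hb0 hbL
  have hf : fold L (b + a) = b + a ∨ fold L (b + a) = L - (b + a) := by
    unfold fold
    exact min_choice _ _
  have hg : |b - a| = b - a ∨ |b - a| = -(b - a) := abs_choice _
  obtain ⟨k, hk⟩ := S2_exists hL x
  rw [← hb] at hk
  rcases hk with hk | hk
  · left
    constructor
    · rcases hf with hf | hf
      · exact S2_dist hL f0 f1 k (Or.inl (by rw [hf]; linarith))
      · refine S2_dist hL f0 f1 (k + 1) (Or.inr ?_)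
        rw [hf]
        push_cast
        linarith
    · rcases hg with hg | hg
      · exact S2_dist hL (abs_nonneg _) g1 k (Or.inl (by rw [hg]; linarith))
      · exact S2_dist hL (abs_nonneg _) g1 k (Or.inr (by rw [hg]; linarith))
  · right
    constructor
    · rcases hg with hg | hg
      · exact S2_dist hL (abs_nonneg _) g1 k (Or.inr (by rw [hg]; linarith))
      · exact S2_dist hL (abs_nonneg _) g1 k (Or.inl (by rw [hg]; linarith))
    · rcases hf with hf | hf
      · exact S2_dist hL f0 f1 k (Or.inr (by rw [hf]; linarith))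
      · refine S2_dist hL f0 f1 (k - 1) (Or.inl ?_)
        rw [hf]
        push_cast
        linarith

/-! Chunk S2 (M). `aP (n P)` is the distance of `n * aP P` to the multiples of `L`.

Proof. Induction on `n` with two steps: for `a = aP P ∈ [0, L/2]`, `D x = |x - L round(x/L)|`:
`D a = a`, and if `aP (n P) = D (n a)`, `aP ((n-1) P) = D ((n-1) a)` then by `aP_multiset` for
`n P, P` the pair `(aP ((n+1) P), aP ((n-1) P))` is one of the two orders of
`(|D (n a) - a|, fold L (D (n a) + a))`. Write `n a = L k ± D (n a)`; then these two numbers are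
`D ((n-1) a)` and `D ((n+1) a)` in some order (`D` is even, `L`-periodic, `D x = x` on `[0, L/2]`,
`D x = L - x` on `[L/2, L]`), and if the order is the other one then the two numbers are equal by the
induction hypothesis. (As a multiset `{x, y} = {x', y'}` and `y = y'` give `x = x'`.) -/

theorem aP_nsmul (hA2 : Spec.A2.{u}) {v : AbsoluteValue K ℝ} (hv : IsNonarchimedean v)
    (h : 1 < v W.j) {L : ℝ} (hL : L = Real.log (v W.j)) (P : W.toAffine.Point) (n : ℕ) :
    aP v L (n • P) = |n * aP v L P - L * round (n * aP v L P / L)| := by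
  obtain ⟨h4, h6, -, -⟩ := tt_value (W := W) hv h
  have hL0 : 0 < L := by
    rw [hL]
    exact Real.log_pos h
  obtain ⟨ha0, ha⟩ := aP_mem v hL0.le h4 h6 P
  have key : ∀ n : ℕ, aP v L (n • P) = |n * aP v L P - L * round (n * aP v L P / L)| ∧
      aP v L ((n + 1) • P) =
        |((n + 1 : ℕ) : ℝ) * aP v L P - L * round (((n + 1 : ℕ) : ℝ) * aP v L P / L)| := by
    intro n
    induction n with
    | zero =>
      constructor
      · rw [zero_smul, aP_zero v L h4 h6]
        simp
      · rw [zero_add, one_smul, Nat.cast_one, one_mul]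
        exact (S2_dist hL0 ha0 ha 0 (Or.inl (by simp))).symm
    | succ n ih =>
      obtain ⟨ih0, ih1⟩ := ih
      refine ⟨ih1, ?_⟩
      have e1 : (n + 1 + 1) • P = (n + 1) • P + P := succ_nsmul _ _
      have e2 : n • P = (n + 1) • P - P := by rw [succ_nsmul, add_sub_cancel_right]
      have c1 : ((n + 1 + 1 : ℕ) : ℝ) * aP v L P = ((n + 1 : ℕ) : ℝ) * aP v L P + aP v L P := by
        push_cast
        ring
      have c0 : (n : ℝ) * aP v L P = ((n + 1 : ℕ) : ℝ) * aP v L P - aP v L P := by
        push_cast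
        ring
      have hp := S2_pair (x := ((n + 1 : ℕ) : ℝ) * aP v L P) hL0 ha0 ha ih1
      rw [← c1, ← c0, ← ih0] at hp
      have hm := aP_multiset hA2 hv h hL ((n + 1) • P) P
      rw [← e1, ← e2] at hm
      rcases hm with ⟨m1, m2⟩ | ⟨m1, m2⟩
      · rcases hp with ⟨p1, p2⟩ | ⟨p1, p2⟩
        · rw [p1, m1, ← m2, p2]
        · rw [p1, m1]
      · rcases hp with ⟨p1, p2⟩ | ⟨p1, p2⟩
        · rw [p1, m2]
        · rw [p1, m2, ← p2, m1]
  exact (key n).1

/-- Everything in the identity component stays there. -/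
theorem aP_zsmul_zero (hA2 : Spec.A2.{u}) {v : AbsoluteValue K ℝ} (hv : IsNonarchimedean v)
    (h : 1 < v W.j) {L : ℝ} (hL : L = Real.log (v W.j)) {P : W.toAffine.Point}
    (hP : aP v L P = 0) (n : ℤ) : aP v L (n • P) = 0 := by
  have key : ∀ m : ℕ, aP v L (m • P) = 0 := by
    intro m
    rw [aP_nsmul hA2 hv h hL P m, hP]
    simp
  rcases Int.eq_nat_or_neg n with ⟨m, rfl | rfl⟩
  · rw [natCast_zsmul]
    exact key m
  · rw [neg_smul, natCast_zsmul, aP_neg]
    exact key m

end Pool.Agent.H38LS
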