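import Pool.Agent.Lib.H38LS.S2
import Pool.Agent.Lib.H38LS.K1

set_option autoImplicit false

namespace Pool.Agent.H38LS

universe u

/-- The pairs `(i, j)`, `i ≠ j`, `-N ≤ i, j ≤ N`. -/
noncomputable def OD (N : ℕ) : Finset (ℤ × ℤ) := (Finset.Icc (-(N : ℤ)) N).offDiag

/-! Chunk S4 (M). Sums over differences.

`OD_card`, `OD_sq`: `(i - j)² ≤ (2 N)² ≤ (2 N + 1)²` and there are at most `(2 N + 1)²` pairs.
`sum_sym` (abstract symmetrisation): let `G : A → ℝ` be a function on an additive commutative group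
with `G (-x) = G x` and `κ i j - c ≤ G (iR + jR) + G (iR - jR)` for all `i, j ∈ [-N, N]`, where the
double sum of `κ` is `≥ 0`. Then `∑_{i ≠ j} G (iR - jR) ≥ - (2 N + 1) G 0 - c (2 N + 1)² / 2`.
Proof: `∑_{i,j} G (iR - jR) = ∑_{i,j} G (iR + jR)` by `j ↦ -j`, so twice the full double sum is
`∑ (G (iR + jR) + G (iR - jR)) ≥ - c (2 N + 1)²`; the diagonal terms are `G 0`. -/

private theorem S4_card (N : ℕ) : (Finset.Icc (-(N : ℤ)) N).card = 2 * N + 1 := by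
  rw [Int.card_Icc]
  omega

private theorem S4_flip {A : Type*} [AddCommGroup A] (R : A) (G : A → ℝ) (N : ℕ) (i : ℤ) :
    ∑ j ∈ Finset.Icc (-(N : ℤ)) N, G (i • R + j • R) =
      ∑ j ∈ Finset.Icc (-(N : ℤ)) N, G (i • R - j • R) := by
  refine Finset.sum_nbij' (fun j => -j) (fun j => -j) ?_ ?_ ?_ ?_ ?_
  · intro j hj
    rw [Finset.mem_Icc] at hj ⊢
    constructor <;> linarith [hj.1, hj.2]
  · intro j hj
    rw [Finset.mem_Icc] at hj ⊢
    constructor <;> linarith [hj.1, hj.2]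
  · intro j _
    exact neg_neg j
  · intro j _
    exact neg_neg j
  · intro j _
    rw [neg_smul, sub_neg_eq_add]

private theorem S4_full {A : Type*} [AddCommGroup A] (R : A) (G : A → ℝ) (N : ℕ) :
    ∑ i ∈ Finset.Icc (-(N : ℤ)) N, ∑ j ∈ Finset.Icc (-(N : ℤ)) N, G (i • R - j • R) =
      (2 * N + 1) * G 0 + ∑ x ∈ OD N, G ((x.1 - x.2) • R) := by
  have h1 : ∑ i ∈ Finset.Icc (-(N : ℤ)) N, ∑ j ∈ Finset.Icc (-(N : ℤ)) N, G (i • R - j • R) =
      ∑ x ∈ Finset.Icc (-(N : ℤ)) N ×ˢ Finset.Icc (-(N : ℤ)) N, G ((x.1 - x.2) • R) := by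
    rw [Finset.sum_product]
    refine Finset.sum_congr rfl fun i _ => Finset.sum_congr rfl fun j _ => ?_
    rw [sub_smul]
  have h2 : ∑ x ∈ (Finset.Icc (-(N : ℤ)) N).diag, G ((x.1 - x.2) • R) = (2 * N + 1) * G 0 := by
    rw [Finset.sum_diag]
    simp only [sub_self, zero_smul, Finset.sum_const, S4_card, nsmul_eq_mul]
    push_cast
    ring
  rw [h1, ← Finset.diag_union_offDiag, Finset.sum_union (Finset.disjoint_diag_offDiag _), h2]
  rfl

theorem OD_card (N : ℕ) : ((OD N).card : ℝ) = (2 * N + 1) ^ 2 - (2 * N + 1) := by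
  unfold OD
  rw [Finset.offDiag_card, S4_card, Nat.cast_sub (by nlinarith)]
  push_cast
  ring

theorem OD_sq (N : ℕ) : ∑ x ∈ OD N, ((x.1 - x.2 : ℤ) : ℝ) ^ 2 ≤ (2 * N + 1) ^ 4 := by
  have h1 : ∀ x ∈ OD N, ((x.1 - x.2 : ℤ) : ℝ) ^ 2 ≤ (2 * (N : ℝ) + 1) ^ 2 := by
    intro x hx
    unfold OD at hx
    rw [Finset.mem_offDiag, Finset.mem_Icc, Finset.mem_Icc] at hx
    obtain ⟨⟨a1, a2⟩, ⟨b1, b2⟩, _⟩ := hx
    have h2 : |x.1 - x.2| ≤ 2 * (N : ℤ) + 1 := by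
      rw [abs_le]
      constructor <;> linarith
    have h3 : |((x.1 - x.2 : ℤ) : ℝ)| ≤ 2 * (N : ℝ) + 1 := by exact_mod_cast h2
    have h4 := abs_le.mp h3
    exact sq_le_sq' h4.1 h4.2
  have h2 := Finset.sum_le_card_nsmul (OD N) _ _ h1
  rw [nsmul_eq_mul, OD_card] at h2
  refine h2.trans ?_
  have hN : (0 : ℝ) ≤ N := Nat.cast_nonneg N
  have h5 : (2 * (N : ℝ) + 1) ^ 2 - (2 * N + 1) ≤ (2 * (N : ℝ) + 1) ^ 2 := by linarith
  calc ((2 * (N : ℝ) + 1) ^ 2 - (2 * N + 1)) * (2 * (N : ℝ) + 1) ^ 2 ≤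
        (2 * (N : ℝ) + 1) ^ 2 * (2 * (N : ℝ) + 1) ^ 2 :=
        mul_le_mul_of_nonneg_right h5 (by positivity)
    _ = (2 * (N : ℝ) + 1) ^ 4 := by ring

theorem sum_sym {A : Type*} [AddCommGroup A] (R : A) (G : A → ℝ) (N : ℕ) (κ : ℤ → ℤ → ℝ)
    (c : ℝ) (hκ : 0 ≤ ∑ i ∈ Finset.Icc (-(N : ℤ)) N, ∑ j ∈ Finset.Icc (-(N : ℤ)) N, κ i j)
    (hG : ∀ i ∈ Finset.Icc (-(N : ℤ)) N, ∀ j ∈ Finset.Icc (-(N : ℤ)) N,
      κ i j - c ≤ G (i • R + j • R) + G (i • R - j • R)) :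
    -(2 * N + 1) * G 0 - c * (2 * N + 1) ^ 2 / 2 ≤ ∑ x ∈ OD N, G ((x.1 - x.2) • R) := by
  have h1 : ∑ i ∈ Finset.Icc (-(N : ℤ)) N, ∑ j ∈ Finset.Icc (-(N : ℤ)) N, (κ i j - c) ≤
      ∑ i ∈ Finset.Icc (-(N : ℤ)) N, ∑ j ∈ Finset.Icc (-(N : ℤ)) N,
        (G (i • R + j • R) + G (i • R - j • R)) :=
    Finset.sum_le_sum fun i hi => Finset.sum_le_sum fun j hj => hG i hi j hj
  have h2 : ∑ i ∈ Finset.Icc (-(N : ℤ)) N, ∑ j ∈ Finset.Icc (-(N : ℤ)) N,
        (G (i • R + j • R) + G (i • R - j • R)) =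
      2 * ∑ i ∈ Finset.Icc (-(N : ℤ)) N, ∑ j ∈ Finset.Icc (-(N : ℤ)) N, G (i • R - j • R) := by
    rw [two_mul, ← Finset.sum_add_distrib]
    refine Finset.sum_congr rfl fun i _ => ?_
    rw [Finset.sum_add_distrib, S4_flip]
  have h3 : ∑ i ∈ Finset.Icc (-(N : ℤ)) N, ∑ j ∈ Finset.Icc (-(N : ℤ)) N, (κ i j - c) =
      (∑ i ∈ Finset.Icc (-(N : ℤ)) N, ∑ j ∈ Finset.Icc (-(N : ℤ)) N, κ i j) -
        c * (2 * N + 1) ^ 2 := by
    simp only [Finset.sum_sub_distrib, Finset.sum_const, S4_card, nsmul_eq_mul]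
    push_cast
    ring
  rw [h2, h3, S4_full] at h1
  linarith

variable {K : Type u} [Field K] [NumberField K] [DecidableEq K] {W : WeierstrassCurve K}
  [W.IsElliptic]

/-- Nonarchimedean place with `|j| > 1`: the sum of the `Gf` over the differences
(`sum_sym` with `c = 0`, `κ i j` the kernel of K1 for `a i = aP (i R)`, `aP_multiset`,
`Gf v L (nrm W (xr 0)) = L/12`). -/
theorem sum_nonarch (hA2 : Spec.A2.{u}) {v : AbsoluteValue K ℝ} (hv : IsNonarchimedean v)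
    (h : 1 < v W.j) {L : ℝ} (hL : L = Real.log (v W.j)) (R : W.toAffine.Point) (N : ℕ) :
    -(2 * N + 1) * (L / 12) ≤ ∑ x ∈ OD N, Gf v L (nrm W (xr ((x.1 - x.2) • R))) := by
  obtain ⟨h4, h6, _, _⟩ := tt_value (W := W) hv h
  have hL0 : 0 < L := by
    rw [hL]
    exact Real.log_pos h
  have h0 : Gf v L (nrm W (xr (0 : W.toAffine.Point))) = L / 12 := by
    have e := aP_zero (W := W) v L h4 h6
    unfold aP at e
    unfold Gf
    rw [e]
    unfold hh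
    ring
  have key := sum_sym R (fun P => Gf v L (nrm W (xr P))) N
    (fun i j => L / 6 - hh L |aP v L (i • R) - aP v L (j • R)| / 2 -
      hh L (fold L (aP v L (i • R) + aP v L (j • R))) / 2) 0
    (kernel_pos (Finset.Icc (-(N : ℤ)) N) hL0 (fun i => aP v L (i • R))
      (fun i _ => aP_mem v hL0.le h4 h6 (i • R))) (by
      intro i _ j _
      have e1 : ∀ P : W.toAffine.Point, Gf v L (nrm W (xr P)) = L / 12 - hh L (aP v L P) / 2 :=
        fun P => rfl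
      show L / 6 - hh L |aP v L (i • R) - aP v L (j • R)| / 2 -
        hh L (fold L (aP v L (i • R) + aP v L (j • R))) / 2 - 0 ≤
        Gf v L (nrm W (xr (i • R + j • R))) + Gf v L (nrm W (xr (i • R - j • R)))
      rw [e1, e1]
      rcases aP_multiset hA2 hv h hL (i • R) (j • R) with ⟨a1, a2⟩ | ⟨a1, a2⟩
      · rw [a1, a2]
        linarith
      · rw [a1, a2]
        linarith)
  simp only [h0] at key
  linarith

/-- The same if `R` lies in the identity component. -/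
theorem sum_nonarch_zero (hA2 : Spec.A2.{u}) {v : AbsoluteValue K ℝ} (hv : IsNonarchimedean v)
    (h : 1 < v W.j) {L : ℝ} (hL : L = Real.log (v W.j)) {R : W.toAffine.Point}
    (hR : aP v L R = 0) (N : ℕ) :
    ∑ x ∈ OD N, Gf v L (nrm W (xr ((x.1 - x.2) • R))) =
      ((2 * N + 1) ^ 2 - (2 * N + 1)) * (L / 12) := by
  obtain ⟨h4, h6, _, _⟩ := tt_value (W := W) hv h
  have h1 : ∀ x ∈ OD N, Gf v L (nrm W (xr ((x.1 - x.2) • R))) = L / 12 := by
    intro x _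
    have e := aP_zsmul_zero hA2 hv h hL hR (x.1 - x.2)
    unfold aP at e
    unfold Gf
    rw [e]
    unfold hh
    ring
  rw [Finset.sum_congr rfl h1, Finset.sum_const, nsmul_eq_mul, OD_card]

end Pool.Agent.H38LS
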