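import Pool.Agent.Lib.H38LS.Defs2

set_option autoImplicit false

namespace Pool.Agent.H38LS

variable {K : Type*} [Field K]

/-! Chunk X1 (S). Homogeneity of `dup`, `asm`, `sym`; elementary identities (unfold, `ext`/
`Prod.ext`, `ring`). -/

theorem dup_smul (W : WeierstrassCurve K) (l : K) (p : K × K) :
    dup W (l • p) = l ^ 4 • dup W p := by
  refine Prod.ext ?_ ?_
  · simp only [dup, dupX, Prod.smul_fst, Prod.smul_snd, smul_eq_mul]
    ring
  · simp only [dup, dupZ, Prod.smul_fst, Prod.smul_snd, smul_eq_mul]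
    ring

theorem asm_smul (W : WeierstrassCurve K) (l : K) (s : K × K × K) :
    asm W (l • s) = l ^ 2 • asm W s := by
  refine Prod.ext ?_ (Prod.ext ?_ ?_)
  · simp only [asm, Prod.smul_fst, Prod.smul_snd, smul_eq_mul]
    ring
  · simp only [asm, Prod.smul_fst, Prod.smul_snd, smul_eq_mul]
    ring
  · simp only [asm, Prod.smul_fst, Prod.smul_snd, smul_eq_mul]
    ring

theorem sym_smul (l m : K) (p q : K × K) : sym (l • p) (m • q) = (l * m) • sym p q := by
  refine Prod.ext ?_ (Prod.ext ?_ ?_)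
  · simp only [sym, Prod.smul_fst, Prod.smul_snd, smul_eq_mul]
    ring
  · simp only [sym, Prod.smul_fst, Prod.smul_snd, smul_eq_mul]
    ring
  · simp only [sym, Prod.smul_fst, Prod.smul_snd, smul_eq_mul]
    ring

theorem sym_comm (p q : K × K) : sym p q = sym q p := by
  refine Prod.ext ?_ (Prod.ext ?_ ?_)
  · simp only [sym]
    ring
  · simp only [sym]
    ring
  · simp only [sym]
    ring

theorem sym_ne_zero {p q : K × K} (hp : p ≠ 0) (hq : q ≠ 0) : sym p q ≠ 0 := by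
  obtain ⟨a, b⟩ := p
  obtain ⟨c, d⟩ := q
  intro h
  simp only [sym, Prod.mk_eq_zero] at h
  obtain ⟨h1, h2, h3⟩ := h
  have hp' : ¬ (a = 0 ∧ b = 0) := fun h => hp (Prod.mk_eq_zero.mpr h)
  have hq' : ¬ (c = 0 ∧ d = 0) := fun h => hq (Prod.mk_eq_zero.mpr h)
  rcases mul_eq_zero.mp h1 with ha | hc
  · have hb : b ≠ 0 := fun hb => hp' ⟨ha, hb⟩
    have hd : d = 0 := (mul_eq_zero.mp h3).resolve_left hb
    rw [ha, zero_mul, zero_add] at h2
    have hc : c = 0 := (mul_eq_zero.mp h2).resolve_right hb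
    exact hq' ⟨hc, hd⟩
  · have hd : d ≠ 0 := fun hd => hq' ⟨hc, hd⟩
    have hb : b = 0 := (mul_eq_zero.mp h3).resolve_right hd
    rw [hc, zero_mul, add_zero] at h2
    have ha : a = 0 := (mul_eq_zero.mp h2).resolve_right hd
    exact hp' ⟨ha, hb⟩

theorem asm_sym_self (W : WeierstrassCurve K) (p : K × K) :
    asm W (sym p p) = ((dup W p).1, (dup W p).2, 0) := by
  refine Prod.ext ?_ (Prod.ext ?_ ?_)
  · simp only [asm, sym, dup, dupX]
    ring
  · simp only [asm, sym, dup, dupZ]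
    ring
  · simp only [asm, sym]
    ring

theorem sym_inf (p : K × K) : sym p (1, 0) = (p.1, p.2, 0) := by
  refine Prod.ext ?_ (Prod.ext ?_ ?_)
  · simp only [sym]
    ring
  · simp only [sym]
    ring
  · simp only [sym]
    ring

/-- Scaling the four points does not change `AddSub`. -/
theorem AddSub.smul {W : WeierstrassCurve K} {p q r₁ r₂ : K × K} (h : AddSub W p q r₁ r₂)
    {a b c d : K} (ha : a ≠ 0) (hb : b ≠ 0) (hc : c ≠ 0) (hd : d ≠ 0) :
    AddSub W (a • p) (b • q) (c • r₁) (d • r₂) := by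
  obtain ⟨hp, hq, h1, h2, l, hl, h⟩ := h
  refine ⟨smul_ne_zero ha hp, smul_ne_zero hb hq, smul_ne_zero hc h1, smul_ne_zero hd h2,
    c * d * l / (a * b) ^ 2, ?_, ?_⟩
  · have := mul_ne_zero ha hb
    have := mul_ne_zero hc hd
    positivity
  · rw [sym_smul, sym_smul, asm_smul, h, smul_smul, smul_smul]
    have hab := mul_ne_zero ha hb
    rw [div_mul_cancel₀ _ (pow_ne_zero 2 hab)]

theorem AddSub.symm_left {W : WeierstrassCurve K} {p q r₁ r₂ : K × K}
    (h : AddSub W p q r₁ r₂) : AddSub W q p r₁ r₂ := by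
  obtain ⟨hp, hq, h1, h2, l, hl, h⟩ := h
  refine ⟨hq, hp, h1, h2, l, hl, ?_⟩
  rw [sym_comm q p]
  exact h

theorem AddSub.symm_right {W : WeierstrassCurve K} {p q r₁ r₂ : K × K}
    (h : AddSub W p q r₁ r₂) : AddSub W p q r₂ r₁ := by
  obtain ⟨hp, hq, h1, h2, l, hl, h⟩ := h
  refine ⟨hp, hq, h2, h1, l, hl, ?_⟩
  rw [sym_comm r₂ r₁]
  exact h

end Pool.Agent.H38LS
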